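import Pool.Agent.Lib.MP_37c7bf_co_Dense.Rig

/-!
# The zero-one law for infinitesimal rigidity

If some realization of a graph is infinitesimally rigid, then almost all are; also in the relative
form where the graph lives on a subset of the points of a configuration.
-/

set_option linter.unusedSimpArgs false

open scoped Matrix
open MeasureTheory

namespace Pool.Agent.MP_37c7bf_co_Dense

/-- The six basic screws. -/
def bas : Fin 3 ⊕ Fin 3 → Pt × Pt :=
  Sum.elim (fun i => (Pi.single i 1, 0)) (fun i => (0, Pi.single i 1))

section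
variable {W : Type*} [Fintype W] [DecidableEq W] (H : SimpleGraph W)

open Classical in
/-- The rigidity matrix together with six rows spanning the trivial motions. -/
noncomputable def rowM (p : W → Pt) : Matrix ((W × W) ⊕ (Fin 3 ⊕ Fin 3)) (W × Fin 3) ℝ :=
  Matrix.of fun r c => Sum.elim
    (fun e : W × W => if H.Adj e.1 e.2 then
      (p e.1 c.2 - p e.2 c.2) * ((if c.1 = e.1 then 1 else 0) - (if c.1 = e.2 then 1 else 0))
      else 0)
    (fun b => vel (bas b) (p c.1) c.2) r

theorem rowM_inl (p : W → Pt) (x : W × Fin 3 → ℝ) {v w : W} (h : H.Adj v w) :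
    (rowM H p).mulVec x (Sum.inl (v, w)) =
      (p v - p w) ⬝ᵥ ((fun i => x (v, i)) - (fun i => x (w, i))) := by
  simp only [Matrix.mulVec, rowM, dotProduct, Matrix.of_apply, Sum.elim_inl, h, if_true,
    Fintype.sum_prod_type, Pi.sub_apply]
  rw [Finset.sum_comm]
  refine Finset.sum_congr rfl fun i _ => ?_
  simp only [mul_sub, sub_mul, Finset.sum_sub_distrib, mul_ite, ite_mul, mul_one, mul_zero,
    zero_mul, Finset.sum_ite_eq', Finset.mem_univ, if_true]

theorem rowM_inl_not (p : W → Pt) (x : W × Fin 3 → ℝ) {v w : W} (h : ¬ H.Adj v w) :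
    (rowM H p).mulVec x (Sum.inl (v, w)) = 0 := by
  simp [Matrix.mulVec, rowM, dotProduct, h]

theorem rowM_inr (p : W → Pt) (x : W × Fin 3 → ℝ) (b : Fin 3 ⊕ Fin 3) :
    (rowM H p).mulVec x (Sum.inr b) = ∑ v, vel (bas b) (p v) ⬝ᵥ (fun i => x (v, i)) := by
  simp only [Matrix.mulVec, rowM, dotProduct, Matrix.of_apply, Sum.elim_inr,
    Fintype.sum_prod_type]

theorem vel_eq_sum_bas (m : Pt × Pt) (x : Pt) :
    vel m x = ∑ i, m.1 i • vel (bas (Sum.inl i)) x + ∑ i, m.2 i • vel (bas (Sum.inr i)) x := by
  ext j
  fin_cases j <;>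
  · simp [vel_0, vel_1, vel_2, bas, Fin.sum_univ_three, Pi.single_apply]
    try ring

/-- The trivial motions as a subspace of the Euclidean space. -/
noncomputable def trivL (p : W → Pt) : (Pt × Pt) →ₗ[ℝ] EuclideanSpace ℝ (W × Fin 3) where
  toFun m := WithLp.toLp 2 fun c => vel m (p c.1) c.2
  map_add' m m' := by
    ext c
    simp only [vel, Prod.fst_add, Prod.snd_add, map_add, LinearMap.add_apply, Pi.add_apply,
      PiLp.add_apply]
    ring
  map_smul' c m := by
    ext x
    simp [vel, mul_add]

theorem infRigid_iff_rowM (p : W → Pt) :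
    InfRigid H p ↔ ∀ x, (rowM H p).mulVec x = 0 → x = 0 := by
  constructor
  · intro h x hx
    obtain ⟨r, t, hrt⟩ := h (fun v i => x (v, i)) (by
      intro v w hvw
      have := congrFun hx (Sum.inl (v, w))
      rw [rowM_inl H p x hvw] at this
      exact this)
    have horth : ∀ m : Pt × Pt, ∑ v, vel m (p v) ⬝ᵥ (fun i => x (v, i)) = 0 := by
      intro m
      have h0 : ∀ b, ∑ v, vel (bas b) (p v) ⬝ᵥ (fun i => x (v, i)) = 0 := by
        intro b
        rw [← rowM_inr H p x b, hx]
        rfl
      simp_rw [vel_eq_sum_bas m, add_dotProduct, Finset.sum_add_distrib, sum_dotProduct,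
        smul_dotProduct]
      rw [Finset.sum_comm, Finset.sum_comm (γ := W)]
      simp_rw [← Finset.smul_sum, h0]
      simp
    have h1 := horth (r, t)
    have h2 : ∑ v, (fun i => x (v, i)) ⬝ᵥ (fun i => x (v, i)) = 0 := by
      rw [← h1]
      refine Finset.sum_congr rfl fun v _ => ?_
      congr 1
      exact hrt v
    have h3 := (Finset.sum_eq_zero_iff_of_nonneg (fun v _ => by
      simp only [dotProduct]
      exact Finset.sum_nonneg fun i _ => mul_self_nonneg _)).1 h2
    ext ⟨v, i⟩
    have h4 := dotProduct_self_eq_zero.1 (h3 v (Finset.mem_univ v))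
    exact congrFun h4 i
  · intro h u hu
    let U : EuclideanSpace ℝ (W × Fin 3) := WithLp.toLp 2 fun c => u c.1 c.2
    obtain ⟨y, hy, z, hz, hyz⟩ := (LinearMap.range (trivL p)).exists_add_mem_mem_orthogonal U
    obtain ⟨m, rfl⟩ := LinearMap.mem_range.1 hy
    have hz0 : (fun c => z c) = (0 : W × Fin 3 → ℝ) := by
      apply h
      have hzc : ∀ c : W × Fin 3, z c = u c.1 c.2 - vel m (p c.1) c.2 := by
        intro c
        have := congrArg (fun q : EuclideanSpace ℝ (W × Fin 3) => q c) hyz
        simp only [U, trivL, LinearMap.coe_mk, AddHom.coe_mk, PiLp.add_apply] at this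
        linarith
      ext r
      rcases r with ⟨v, w⟩ | b
      · by_cases hvw : H.Adj v w
        · rw [rowM_inl H p _ hvw]
          have h1 := hu v w hvw
          have h2 := dot_vel_sub m (p v) (p w)
          have : ((fun i => z (v, i)) - fun i => z (w, i)) =
              (u v - u w) - (vel m (p v) - vel m (p w)) := by
            ext i
            simp only [Pi.sub_apply, hzc]
            ring
          rw [this, dotProduct_sub, h1, h2, sub_zero]
          rfl
        · rw [rowM_inl_not H p _ hvw]
          rfl
      · rw [rowM_inr]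
        have h1 := hz (trivL p (bas b)) (LinearMap.mem_range_self _ _)
        rw [EuclideanSpace.inner_eq_star_dotProduct] at h1
        simp only [trivL, LinearMap.coe_mk, AddHom.coe_mk, dotProduct, Fintype.sum_prod_type,
          star_trivial] at h1
        simp only [Pi.zero_apply]
        rw [← h1]
        refine Finset.sum_congr rfl fun v _ => ?_
        simp only [dotProduct]
        refine Finset.sum_congr rfl fun i _ => ?_
        rw [mul_comm]
    refine ⟨m.1, m.2, fun v => ?_⟩
    ext i
    have h1 := congrFun hz0 (v, i)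
    have := congrArg (fun q : EuclideanSpace ℝ (W × Fin 3) => q (v, i)) hyz
    simp only [U, trivL, LinearMap.coe_mk, AddHom.coe_mk, PiLp.add_apply] at this
    simp only [Pi.zero_apply] at h1
    rw [h1, add_zero] at this
    exact this

theorem gram_inj_iff {R C : Type*} [Fintype R] [Fintype C] [DecidableEq C] (M : Matrix R C ℝ) :
    (∀ x, (Mᵀ * M).mulVec x = 0 → x = 0) ↔ ∀ x, M.mulVec x = 0 → x = 0 := by
  have := Matrix.ker_mulVecLin_transpose_mul_self M
  constructor
  · intro h x hx
    apply h
    rw [← Matrix.mulVec_mulVec, hx, Matrix.mulVec_zero]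
  · intro h x hx
    apply h
    have h1 : x ∈ LinearMap.ker (Mᵀ * M).mulVecLin := by
      rw [LinearMap.mem_ker, Matrix.mulVecLin_apply, hx]
    rw [this] at h1
    simpa using h1

end

/-- If a graph `H` on `W` has an infinitesimally rigid realization, then for almost all
configurations `p : V → ℝ³` the restriction of `p` to `W` is infinitesimally rigid. -/
theorem ae_infRigid_of_exists {W V : Type*} [Fintype W] [Fintype V] {ι : W → V}
    (hι : Function.Injective ι) {H : SimpleGraph W} {q : W → Pt} (hq : InfRigid H q) :
    ∀ᵐ p : V → Pt, InfRigid H (p ∘ ι) := by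
  classical
  have hq' := (gram_inj_iff _).2 ((infRigid_iff_rowM H q).1 hq)
  rw [mulVec_inj_iff] at hq'
  have key := ae_matrix_inj (volume : Measure (V → Pt))
    (fun p => (rowM H (p ∘ ι))ᵀ * rowM H (p ∘ ι)) (q := Function.extend ι q 0)
    (by
      intro i j p
      simp only [Matrix.mul_apply, Matrix.transpose_apply]
      apply Finset.analyticAt_fun_sum
      intro r _
      have hent : ∀ c : W × Fin 3, AnalyticAt ℝ (fun p : V → Pt => rowM H (p ∘ ι) r c) p := by
        intro c
        obtain ⟨c1, c2⟩ := c
        rcases r with ⟨v, w⟩ | b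
        · simp only [rowM, Matrix.of_apply, Sum.elim_inl, Function.comp]
          split_ifs <;> fun_prop
        · simp only [rowM, Matrix.of_apply, Sum.elim_inr, Function.comp]
          fin_cases c2
          · simp only [Fin.zero_eta, vel_0]; fun_prop
          · simp only [Fin.mk_one, vel_1]; fun_prop
          · simp only [Fin.reduceFinMk, vel_2]; fun_prop
      exact (hent i).fun_mul (hent j))
    (by
      have : Function.extend ι q 0 ∘ ι = q := by
        funext w
        exact hι.extend_apply q 0 w
      simp only [this]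
      exact hq')
  filter_upwards [key] with p hp
  rw [infRigid_iff_rowM, ← gram_inj_iff]
  exact hp

/-- The zero-one law. -/
theorem zero_one {V : Type*} [Fintype V] (G : SimpleGraph V) :
    GenericallyRigid G ∨ ∀ p, ¬ InfRigid G p := by
  by_cases h : ∃ p, InfRigid G p
  · left
    obtain ⟨q, hq⟩ := h
    exact ae_infRigid_of_exists Function.injective_id hq
  · right
    push Not at h
    exact h

end Pool.Agent.MP_37c7bf_co_Dense
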