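import Mathlib

/-!
# Large closed sets in dense graphs

Let `P` be a family of vertex sets which contains every `K_{10,4}` and is closed under adding a
vertex with three neighbours in the set and under unions of two members sharing three vertices.
If the minimum degree is at least `(n + 3k(k+1)) / (k+1)` and `n` is large, then at most `k` maximal
members of `P` have `2k + 3` or more vertices, and they cover the whole vertex set.
-/

namespace Pool.Agent.MP_37c7bf_co_Dense

section
variable {V : Type*} {G : SimpleGraph V} [DecidableRel G.Adj]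

theorem double_count (S T : Finset V) :
    ∑ v ∈ S, (T.filter fun w => G.Adj v w).card = ∑ w ∈ T, (S.filter fun v => G.Adj w v).card := by
  have := Finset.sum_card_bipartiteAbove_eq_sum_card_bipartiteBelow (s := S) (t := T)
    (fun v w => G.Adj v w)
  simp only [Finset.bipartiteAbove, Finset.bipartiteBelow] at this
  rw [this]
  refine Finset.sum_congr rfl fun w _ => ?_
  congr 1
  ext v
  simp [G.adj_comm]

/-- A dense graph contains a `K_{m,4}`. -/
theorem exists_Km4 (k m : ℕ) (U : Finset V) (hw : 4 * (k + 1) ≤ U.card)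
    (hU : (4 * k + 1) * ((4 * (k + 1)).choose 4 * m) < U.card)
    (hdeg : ∀ v ∈ U, U.card ≤ (k + 1) * (U.filter fun w => G.Adj v w).card) :
    ∃ (Y T : Finset V), m < Y.card ∧ T.card = 4 ∧ Y ⊆ U ∧ T ⊆ U ∧
      ∀ y ∈ Y, ∀ t ∈ T, G.Adj y t := by
  classical
  obtain ⟨W, hWU, hW⟩ := Finset.exists_subset_card_eq hw
  have hsum : 4 * U.card ≤ ∑ x ∈ U, (W.filter fun w => G.Adj x w).card := by
    have h1 : ∑ w ∈ W, U.card ≤ ∑ w ∈ W, (k + 1) * (U.filter fun x => G.Adj w x).card :=
      Finset.sum_le_sum fun w hw => hdeg w (hWU hw)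
    rw [Finset.sum_const, hW, ← Finset.mul_sum, double_count W U, smul_eq_mul,
      mul_comm 4 (k + 1), mul_assoc] at h1
    exact Nat.le_of_mul_le_mul_left h1 (Nat.succ_pos k)
  set U4 := U.filter fun x => 4 ≤ (W.filter fun w => G.Adj x w).card with hU4
  have hle : ∑ x ∈ U, (W.filter fun w => G.Adj x w).card ≤ (4 * k + 1) * U4.card + 3 * U.card := by
    have h2 : ∀ x ∈ U, (W.filter fun w => G.Adj x w).card ≤
        (4 * k + 1) * (if 4 ≤ (W.filter fun w => G.Adj x w).card then 1 else 0) + 3 := by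
      intro x _
      have h3 : (W.filter fun w => G.Adj x w).card ≤ 4 * (k + 1) := by
        rw [← hW]; exact Finset.card_filter_le _ _
      split_ifs <;> omega
    refine (Finset.sum_le_sum h2).trans ?_
    rw [Finset.sum_add_distrib, ← Finset.mul_sum, Finset.sum_const, hU4, Finset.card_filter,
      smul_eq_mul, mul_comm U.card 3]
  have hU4card : (4 * (k + 1)).choose 4 * m < U4.card := by
    have : U.card ≤ (4 * k + 1) * U4.card := by omega
    exact lt_of_mul_lt_mul_left (hU.trans_le this) (Nat.zero_le _)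
  have hT : ∀ x ∈ U4, ∃ T ⊆ W.filter fun w => G.Adj x w, T.card = 4 := by
    intro x hx
    exact Finset.exists_subset_card_eq (Finset.mem_filter.1 hx).2
  choose! T hTsub hT4 using hT
  obtain ⟨T₀, hT₀, hfib⟩ := Finset.exists_lt_card_fiber_of_mul_lt_card_of_maps_to
    (s := U4) (t := W.powersetCard 4) (f := T) (n := m)
    (by
      intro x hx
      exact Finset.mem_powersetCard.2 ⟨(hTsub x hx).trans (Finset.filter_subset _ _), hT4 x hx⟩)
    (by
      rw [Finset.card_powersetCard, hW]
      exact hU4card)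
  have hT₀' := Finset.mem_powersetCard.1 hT₀
  refine ⟨_, T₀, hfib, hT₀'.2, ?_, hT₀'.1.trans hWU, ?_⟩
  · exact (Finset.filter_subset _ _).trans (Finset.filter_subset _ _)
  · intro y hy t ht
    have h1 := Finset.mem_filter.1 hy
    have h2 := hTsub _ h1.1
    rw [h1.2] at h2
    exact (Finset.mem_filter.1 (h2 ht)).2

variable [DecidableEq V]

theorem sum_card_le_card_biUnion (𝒜 : Finset (Finset V))
    (h : ∀ A ∈ 𝒜, ∀ B ∈ 𝒜, A ≠ B → (A ∩ B).card ≤ 2) :
    ∑ A ∈ 𝒜, A.card + 𝒜.card ≤ (𝒜.biUnion id).card + 𝒜.card * 𝒜.card := by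
  induction 𝒜 using Finset.induction_on with
  | empty => simp
  | insert A 𝒜 hA ih =>
    have ih' := ih fun B hB C hC => h B (Finset.mem_insert_of_mem hB) C (Finset.mem_insert_of_mem hC)
    rw [Finset.sum_insert hA, Finset.card_insert_of_notMem hA, Finset.biUnion_insert, id]
    have h1 := Finset.card_union_add_card_inter A (𝒜.biUnion id)
    have h2 : (A ∩ 𝒜.biUnion id).card ≤ 2 * 𝒜.card := by
      rw [Finset.inter_biUnion]
      refine Finset.card_biUnion_le.trans ?_
      refine (Finset.sum_le_card_nsmul _ _ 2 fun B hB => ?_).trans ?_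
      · exact h A (Finset.mem_insert_self _ _) B (Finset.mem_insert_of_mem hB)
          (fun hAB => hA (hAB ▸ hB))
      · rw [smul_eq_mul, mul_comm]
    nlinarith

end

section
variable {V : Type*} [Fintype V] [DecidableEq V] {G : SimpleGraph V} [DecidableRel G.Adj]

/-- `A` is a maximal member of the family `P`. -/
def IsMaxP (P : Finset V → Prop) (A : Finset V) : Prop :=
  P A ∧ ∀ B, P B → A ⊆ B → B = A

/-- The closure properties used. -/
structure ClosedFamily (G : SimpleGraph V) [DecidableRel G.Adj] (P : Finset V → Prop) : Prop where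
  add : ∀ S v, P S → v ∉ S → 3 ≤ (S.filter fun w => G.Adj v w).card → P (insert v S)
  glue : ∀ S T, P S → P T → 3 ≤ (S ∩ T).card → P (S ∪ T)
  base : ∀ Y T : Finset V, Y.card = 10 → T.card = 4 → (∀ y ∈ Y, ∀ t ∈ T, G.Adj y t) → P (Y ∪ T)

variable {P : Finset V → Prop}

omit [DecidableEq V] in
theorem exists_isMaxP {S : Finset V} (hS : P S) : ∃ A, S ⊆ A ∧ IsMaxP P A := by
  classical
  obtain ⟨A, hA, hmax⟩ := Finset.exists_max_image
    (Finset.univ.filter fun T : Finset V => S ⊆ T ∧ P T) Finset.card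
    ⟨S, by simp [hS]⟩
  simp only [Finset.mem_filter, Finset.mem_univ, true_and] at hA hmax
  refine ⟨A, hA.1, hA.2, fun B hB hAB => ?_⟩
  exact (Finset.eq_of_subset_of_card_le hAB (hmax B ⟨hA.1.trans hAB, hB⟩)).symm

theorem IsMaxP.card_nbrs_le (hP : ClosedFamily G P) {A : Finset V} (hA : IsMaxP P A) {v : V}
    (hv : v ∉ A) : (A.filter fun w => G.Adj v w).card ≤ 2 := by
  by_contra hcon
  have := hA.2 _ (hP.add A v hA.1 hv (by omega)) (Finset.subset_insert _ _)
  exact hv (this ▸ Finset.mem_insert_self v A)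

theorem IsMaxP.card_inter_le (hP : ClosedFamily G P) {A B : Finset V} (hA : IsMaxP P A)
    (hB : IsMaxP P B) (hAB : A ≠ B) : (A ∩ B).card ≤ 2 := by
  by_contra hcon
  have h := hP.glue A B hA.1 hB.1 (by omega)
  have h1 := hA.2 _ h Finset.subset_union_left
  have h2 := hB.2 _ h Finset.subset_union_right
  exact hAB (h1.symm.trans h2)

theorem degree_le_add (A : Finset V) (v : V) :
    G.degree v = (A.filter fun w => G.Adj v w).card + (Aᶜ.filter fun w => G.Adj v w).card := by
  rw [← G.card_neighborFinset_eq_degree, ← Finset.card_union_of_disjoint]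
  · congr 1
    ext w
    simp only [SimpleGraph.mem_neighborFinset, Finset.mem_union, Finset.mem_filter,
      Finset.mem_compl]
    tauto
  · rw [Finset.disjoint_left]
    intro w h1 h2
    exact (Finset.mem_compl.1 (Finset.mem_filter.1 h2).1) (Finset.mem_filter.1 h1).1

/-- A maximal member of `P` which is not tiny is large. -/
theorem IsMaxP.card_ge (hP : ClosedFamily G P) {k : ℕ}
    (hδ : Fintype.card V ≤ (k + 1) * G.minDegree) (hbig : 2 * k * (2 * k + 3) < G.minDegree)
    {A : Finset V} (hA : IsMaxP P A) (hcard : 2 * k + 3 ≤ A.card) :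
    G.minDegree < A.card + 2 * k := by
  by_contra hcon
  push Not at hcon
  have h1 : A.card * (G.minDegree + 1) ≤
      A.card * A.card + ∑ v ∈ A, (Aᶜ.filter fun w => G.Adj v w).card := by
    have : ∀ v ∈ A, G.minDegree + 1 ≤ A.card + (Aᶜ.filter fun w => G.Adj v w).card := by
      intro v hv
      have h2 := G.minDegree_le_degree v
      rw [degree_le_add A v] at h2
      have h3 : (A.filter fun w => G.Adj v w).card < A.card := by
        apply Finset.card_lt_card
        refine ⟨Finset.filter_subset _ _, fun h => ?_⟩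
        exact G.loopless.irrefl v (Finset.mem_filter.1 (h hv)).2
      omega
    have := Finset.sum_le_sum this
    rw [Finset.sum_const, Finset.sum_add_distrib, Finset.sum_const, smul_eq_mul,
      smul_eq_mul] at this
    exact this
  rw [double_count] at h1
  have h2 : ∑ w ∈ Aᶜ, (A.filter fun v => G.Adj w v).card ≤ Aᶜ.card * 2 := by
    refine (Finset.sum_le_card_nsmul _ _ 2 fun w hw => ?_).trans (by rw [smul_eq_mul])
    exact hA.card_nbrs_le hP (Finset.mem_compl.1 hw)
  have h3 : A.card + Aᶜ.card = Fintype.card V := Finset.card_add_card_compl A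
  generalize A.card = r at *
  generalize Aᶜ.card = c at *
  generalize G.minDegree = d at *
  generalize Fintype.card V = n at *
  -- `r (d + 1) ≤ r² + 2 (n - r)`, `2k + 3 ≤ r ≤ d - 2k`
  have h4 : r * (d + 1) ≤ r * r + c * 2 := by omega
  zify at *
  nlinarith [mul_nonneg (sub_nonneg.2 hcard) (sub_nonneg.2 hcon)]

/-- The threshold on the number of vertices. -/
def thr (k : ℕ) : ℕ := (k + 1) * ((4 * k + 1) * ((4 * (k + 1)).choose 4 * (2 * k + 9)))

theorem cluster_cover (hP : ClosedFamily G P) {k : ℕ} (hk : 1 ≤ k) (hn : thr k < Fintype.card V)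
    (hδ : Fintype.card V + 3 * k * (k + 1) ≤ (k + 1) * G.minDegree) :
    ∃ 𝒜 : Finset (Finset V), 𝒜.card ≤ k ∧
      (∀ A, A ∈ 𝒜 ↔ IsMaxP P A ∧ 2 * k + 3 ≤ A.card) ∧
      (∀ A ∈ 𝒜, G.minDegree < A.card + 2 * k) ∧ ∀ v, ∃ A ∈ 𝒜, v ∈ A := by
  classical
  have hchoose : 1 ≤ (4 * (k + 1)).choose 4 := Nat.choose_pos (by omega)
  have hδ' : Fintype.card V ≤ (k + 1) * G.minDegree := by omega
  have hbig : 2 * k * (2 * k + 3) < G.minDegree := by
    have h1 : (k + 1) * ((4 * k + 1) * (1 * (2 * k + 9))) < (k + 1) * G.minDegree := by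
      refine lt_of_le_of_lt ?_ (hn.trans_le hδ')
      unfold thr
      exact Nat.mul_le_mul_left _ (Nat.mul_le_mul_left _ (Nat.mul_le_mul_right _ hchoose))
    have h2 := lt_of_mul_lt_mul_left h1 (Nat.zero_le _)
    nlinarith
  set 𝒜 : Finset (Finset V) := Finset.univ.filter fun A => IsMaxP P A ∧ 2 * k + 3 ≤ A.card with h𝒜
  have hmem : ∀ A, A ∈ 𝒜 ↔ IsMaxP P A ∧ 2 * k + 3 ≤ A.card := by
    intro A; simp [h𝒜]
  have hlarge : ∀ A ∈ 𝒜, G.minDegree < A.card + 2 * k := fun A hA =>
    ((hmem A).1 hA).1.card_ge hP hδ' hbig ((hmem A).1 hA).2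
  have hpair : ∀ A ∈ 𝒜, ∀ B ∈ 𝒜, A ≠ B → (A ∩ B).card ≤ 2 := fun A hA B hB hAB =>
    ((hmem A).1 hA).1.card_inter_le hP ((hmem B).1 hB).1 hAB
  have hcard : 𝒜.card ≤ k := by
    by_contra hcon
    obtain ⟨ℬ, hℬ, hℬk⟩ := Finset.exists_subset_card_eq (show k + 1 ≤ 𝒜.card by omega)
    have h1 := sum_card_le_card_biUnion ℬ fun A hA B hB => hpair A (hℬ hA) B (hℬ hB)
    have h2 : (ℬ.biUnion id).card ≤ Fintype.card V := Finset.card_le_univ _
    have h3 : (k + 1) * (G.minDegree + 1) ≤ ∑ A ∈ ℬ, (A.card + 2 * k) := by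
      rw [← hℬk, ← smul_eq_mul]
      exact Finset.card_nsmul_le_sum _ _ _ fun A hA => hlarge A (hℬ hA)
    rw [Finset.sum_add_distrib, Finset.sum_const, smul_eq_mul, hℬk] at h3
    rw [hℬk] at h1
    nlinarith
  refine ⟨𝒜, hcard, hmem, hlarge, ?_⟩
  by_contra hcon
  push Not at hcon
  obtain ⟨v₀, hv₀⟩ := hcon
  set U : Finset V := (𝒜.biUnion id)ᶜ with hU
  have hUm : ∀ v, v ∈ U ↔ ∀ A ∈ 𝒜, v ∉ A := by
    intro v; simp [hU]
  have hv₀U : v₀ ∈ U := (hUm v₀).2 hv₀
  have hdegU : ∀ v ∈ U, G.minDegree ≤ (U.filter fun w => G.Adj v w).card + 2 * k := by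
    intro v hv
    have h1 := G.minDegree_le_degree v
    rw [degree_le_add U v] at h1
    have h2 : (Uᶜ.filter fun w => G.Adj v w).card ≤ 2 * k := by
      rw [hU, compl_compl, Finset.filter_biUnion]
      refine Finset.card_biUnion_le.trans ?_
      refine (Finset.sum_le_card_nsmul _ _ 2 fun A hA => ?_).trans ?_
      · exact ((hmem A).1 hA).1.card_nbrs_le hP ((hUm v).1 hv A hA)
      · rw [smul_eq_mul, mul_comm]
        omega
    omega
  have hUcard : G.minDegree < U.card + 2 * k := by
    have h1 := hdegU v₀ hv₀U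
    have h3 : (U.filter fun w => G.Adj v₀ w).card < U.card := by
      apply Finset.card_lt_card
      refine ⟨Finset.filter_subset _ _, fun h => ?_⟩
      exact G.loopless.irrefl v₀ (Finset.mem_filter.1 (h hv₀U)).2
    omega
  have hUn : U.card ≤ Fintype.card V := Finset.card_le_univ _
  have hUdeg : ∀ v ∈ U, U.card ≤ (k + 1) * (U.filter fun w => G.Adj v w).card := by
    intro v hv
    have h1 := hdegU v hv
    have h2 : (k + 1) * G.minDegree ≤ (k + 1) * ((U.filter fun w => G.Adj v w).card + 2 * k) :=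
      Nat.mul_le_mul_left _ h1
    nlinarith
  have hUbig : (4 * k + 1) * ((4 * (k + 1)).choose 4 * (2 * k + 9)) < U.card := by
    have h1 : (k + 1) * ((4 * k + 1) * ((4 * (k + 1)).choose 4 * (2 * k + 9))) <
        (k + 1) * U.card := by
      have h2 : (k + 1) * G.minDegree < (k + 1) * (U.card + 2 * k) :=
        Nat.mul_lt_mul_of_pos_left hUcard (Nat.succ_pos k)
      unfold thr at hn
      nlinarith
    exact lt_of_mul_lt_mul_left h1 (Nat.zero_le _)
  obtain ⟨Y, T, hY, hT, hYU, hTU, hYT⟩ := exists_Km4 (G := G) k (2 * k + 9) U (by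
    have h1 : (4 * k + 1) * (1 * (2 * k + 9)) ≤
        (4 * k + 1) * ((4 * (k + 1)).choose 4 * (2 * k + 9)) :=
      Nat.mul_le_mul_left _ (Nat.mul_le_mul_right _ hchoose)
    nlinarith) hUbig hUdeg
  obtain ⟨Y', hY', hY'10⟩ := Finset.exists_subset_card_eq (show 10 ≤ Y.card by omega)
  obtain ⟨A, hA, hAmax⟩ := exists_isMaxP (P := P) (hP.base Y' T hY'10 hT fun y hy t ht =>
    hYT y (hY' hy) t ht)
  have hYA : Y ⊆ A := by
    intro y hy
    by_contra hyA
    have h1 := hAmax.card_nbrs_le hP hyA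
    have h2 : T ⊆ A.filter fun w => G.Adj y w := by
      intro t ht
      exact Finset.mem_filter.2 ⟨hA (Finset.mem_union_right _ ht), hYT y hy t ht⟩
    have := Finset.card_le_card h2
    omega
  have hA𝒜 : A ∈ 𝒜 := by
    rw [hmem]
    refine ⟨hAmax, ?_⟩
    have := Finset.card_le_card hYA
    omega
  obtain ⟨t, ht⟩ : T.Nonempty := Finset.card_pos.1 (by omega)
  exact (hUm t).1 (hTU ht) A hA𝒜 (hA (Finset.mem_union_right _ ht))

end

end Pool.Agent.MP_37c7bf_co_Dense
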