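import Mathlib

/-!
# Definitions: generic 3-rigidity, mixed connectivity, clusters and kernels

Infinitesimal rigidity of frameworks in `ℝ³`, generic rigidity (for almost all realizations in
Lebesgue measure), the mixed connectivity condition `(6, 3, 1)`, the purely combinatorial closure
rules producing the rigid clusters of a graph, and the kernel graph of a family of clusters.
-/

open scoped Matrix

namespace Pool.Agent.MP_37c7bf_co_Dense

/-- The space `ℝ³`. -/
abbrev Pt : Type := Fin 3 → ℝ

section
variable {V : Type*}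

/-- `u` is an infinitesimal motion of the framework `(G, p)` in `ℝ³`: the distance between the ends
of every edge is preserved to first order, i.e. `u` is in the kernel of the rigidity matrix. -/
def IsInfMotion (G : SimpleGraph V) (p u : V → Pt) : Prop :=
  ∀ v w, G.Adj v w → (p v - p w) ⬝ᵥ (u v - u w) = 0

/-- `u` is the restriction to `p` of an infinitesimal isometry `x ↦ r × x + t` of `ℝ³`. -/
def IsTrivialMotion (p u : V → Pt) : Prop :=
  ∃ r t : Pt, ∀ v, u v = r ⨯₃ p v + t

/-- The framework `(G, p)` is infinitesimally rigid in `ℝ³`: all its infinitesimal motions are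
trivial (for `n ≥ 3` vertices, not all collinear: its rigidity matrix has rank `3n - 6`). -/
def InfRigid (G : SimpleGraph V) (p : V → Pt) : Prop :=
  ∀ u, IsInfMotion G p u → IsTrivialMotion p u

/-- `G` is generically rigid in 3D: almost all realizations `p : V → ℝ³` (Lebesgue measure on
`ℝ^{3n}`) are infinitesimally rigid. -/
def GenericallyRigid [Fintype V] (G : SimpleGraph V) : Prop :=
  ∀ᵐ p : V → Pt, InfRigid G p

/-- `G` is generically flexible in 3D: almost all realizations `p : V → ℝ³` (Lebesgue measure on
`ℝ^{3n}`) are not infinitesimally rigid. -/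
def GenericallyFlexible [Fintype V] (G : SimpleGraph V) : Prop :=
  ∀ᵐ p : V → Pt, ¬ InfRigid G p

/-- Mixed connectivity `(6, 3, 1)`: for every set `X` of at most two vertices and every partition of
the remaining vertices into two nonempty parts `S` and `V \ (S ∪ X)`, the number of edges between
the two parts is at least `binom (4 - |X|) 2`, i.e. at least `6`, `3`, `1` for `|X| = 0, 1, 2`.
In other words: `G` is 6-edge-connected, every `G - x` is 3-edge-connected, every `G - x - y` is
connected. -/
def MixedConnected [Fintype V] [DecidableEq V] (G : SimpleGraph V) [DecidableRel G.Adj] : Prop :=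
  ∀ X S : Finset V, X.card ≤ 2 → S.Nonempty → Disjoint S X → (S ∪ X)ᶜ.Nonempty →
    (4 - X.card).choose 2 ≤ ((S ×ˢ (S ∪ X)ᶜ).filter fun e => G.Adj e.1 e.2).card

/-- `F` is the edge set of a bipartite graph (edges directed from left to right) of maximum degree
at most two: no vertex is both a left end and a right end, and among three edges with the same left
end (resp. right end) two coincide. -/
structure Bip2 (F : Finset (V × V)) : Prop where
  bip : ∀ e ∈ F, ∀ e' ∈ F, e.1 ≠ e'.2
  left : ∀ a b₁ b₂ b₃, (a, b₁) ∈ F → (a, b₂) ∈ F → (a, b₃) ∈ F → b₁ = b₂ ∨ b₁ = b₃ ∨ b₂ = b₃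
  right : ∀ b a₁ a₂ a₃, (a₁, b) ∈ F → (a₂, b) ∈ F → (a₃, b) ∈ F → a₁ = a₂ ∨ a₁ = a₃ ∨ a₂ = a₃

/-- The vertex sets produced from `G` by three combinatorial rules:
* `base`: the vertex set of a (not necessarily induced) complete bipartite graph `K_{10,4}`;
* `add`: adjoin a vertex having three neighbours in the set;
* `glue`: unite two sets `S`, `T` when `G` has at least `binom (4 - |S ∩ T|) 2` edges `F` between
  `S \ T` and `T \ S` forming a graph of maximum degree at most two (for `|S ∩ T| ≥ 3` no edge is
  needed). -/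
inductive Built [DecidableEq V] (G : SimpleGraph V) : Finset V → Prop
  | base : ∀ Y T : Finset V, Y.card = 10 → T.card = 4 → (∀ y ∈ Y, ∀ t ∈ T, G.Adj y t) →
      Built G (Y ∪ T)
  | add : ∀ (S : Finset V) (v : V), Built G S → ∀ N ⊆ S, N.card = 3 → (∀ w ∈ N, G.Adj v w) →
      Built G (insert v S)
  | glue : ∀ S T : Finset V, Built G S → Built G T → ∀ F : Finset (V × V),
      (∀ e ∈ F, e.1 ∈ S \ T ∧ e.2 ∈ T \ S ∧ G.Adj e.1 e.2) → Bip2 F →
      (4 - (S ∩ T).card).choose 2 ≤ F.card → Built G (S ∪ T)

/-- The clusters of `G` (with parameter `k`): the inclusion-maximal built sets with at least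
`2 * k + 3` vertices. -/
def IsCluster [DecidableEq V] (G : SimpleGraph V) (k : ℕ) (A : Finset V) : Prop :=
  (Built G A ∧ ∀ B, Built G B → A ⊆ B → B = A) ∧ 2 * k + 3 ≤ A.card

/-- `W` is a kernel set for the family `𝒜` of vertex sets: it contains at least three vertices of
every member, all common vertices of two different members, and both ends of every edge of `G` which
is not contained in a member. -/
structure IsKernelSet [DecidableEq V] (G : SimpleGraph V) (𝒜 : Finset (Finset V)) (W : Finset V) :
    Prop where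
  three : ∀ A ∈ 𝒜, 3 ≤ (A ∩ W).card
  inter : ∀ A ∈ 𝒜, ∀ B ∈ 𝒜, A ≠ B → A ∩ B ⊆ W
  ends : ∀ v w, G.Adj v w → (∀ A ∈ 𝒜, ¬ (v ∈ A ∧ w ∈ A)) → v ∈ W ∧ w ∈ W

/-- The kernel graph: the graph with vertex set `W` in which two different vertices are joined if
they are adjacent in `G` or lie in a common member of `𝒜`. -/
def kernelGraph (G : SimpleGraph V) (𝒜 : Finset (Finset V)) (W : Finset V) :
    SimpleGraph W where
  Adj v w := v ≠ w ∧ (G.Adj v w ∨ ∃ A ∈ 𝒜, (v : V) ∈ A ∧ (w : V) ∈ A)
  symm := ⟨fun _ _ h => ⟨h.1.symm, h.2.imp (fun h => h.symm) fun ⟨A, hA, h1, h2⟩ =>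
    ⟨A, hA, h2, h1⟩⟩⟩
  loopless := ⟨fun _ h => h.1 rfl⟩

end

end Pool.Agent.MP_37c7bf_co_Dense
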