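import Pool.Agent.Lib.MP_37c7bf_co_Dense.TwoBodies

/-!
# A small mixed cut makes the framework flexible
-/

set_option linter.unusedSimpArgs false

open scoped Matrix

namespace Pool.Agent.MP_37c7bf_co_Dense

variable {V : Type*} [Fintype V] [DecidableEq V] {G : SimpleGraph V} {p : V → Pt}

theorem exists_screw (hp : Good p) {F : Finset (V × V)} {X : Finset V}
    (hX : X.card ≤ 2) (hc : F.card < (4 - X.card).choose 2)
    {s t : V} (hst : s ≠ t) (hs : s ∉ X) (ht : t ∉ X) :
    ∃ m : Pt × Pt, m ≠ 0 ∧ (∀ x ∈ X, vel m (p x) = 0) ∧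
      ∀ e ∈ F, bar m (p e.1) (p e.2) = 0 := by
  interval_cases hcard : X.card
  · have h6 : F.card < 6 := hc
    obtain ⟨m, hm, hm'⟩ := exists_ne_zero_of_card_lt F h6 (fun e => p e.1) (fun e => p e.2)
    refine ⟨m, hm, ?_, hm'⟩
    rw [Finset.card_eq_zero.1 hcard]
    simp
  · have h3 : F.card < 3 := hc
    obtain ⟨x, rfl⟩ := Finset.card_eq_one.1 hcard
    obtain ⟨m, hm, hm'⟩ := exists_ne_zero_of_card_lt
      (F.disjSum (Finset.univ : Finset (Fin 3))) (by
        rw [Finset.card_disjSum, Finset.card_univ, Fintype.card_fin]; omega)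
      (Sum.elim (fun e => p e.1) (fun i => p x + Pi.single i 1))
      (Sum.elim (fun e => p e.2) (fun _ => p x))
    refine ⟨m, hm, ?_, ?_⟩
    · intro y hy
      rw [Finset.mem_singleton] at hy
      subst hy
      ext i
      have := hm' (Sum.inr i) (by simp)
      simp only [Sum.elim_inr, bar_add_dot] at this
      simpa using this
    · intro e he
      exact hm' (Sum.inl e) (by simpa using he)
  · have h1 : F.card < 1 := hc
    have hF0 : F = ∅ := Finset.card_eq_zero.1 (by omega)
    obtain ⟨x, y, hxy, rfl⟩ := Finset.card_eq_two.1 hcard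
    simp only [Finset.mem_insert, Finset.mem_singleton, not_or] at hs ht
    have htri := hp.c1 x y s t hxy (Ne.symm hs.1) (Ne.symm ht.1) (Ne.symm hs.2) (Ne.symm ht.2) hst
    refine ⟨(p y - p x, -((p y - p x) ⨯₃ p x)), ?_, ?_, ?_⟩
    · intro h
      have h1 : p y - p x = 0 := (Prod.mk.inj h).1
      rw [h1] at htri
      apply htri
      simp [tri]
    · intro v hv
      simp only [Finset.mem_insert, Finset.mem_singleton] at hv
      have : vel (p y - p x, -((p y - p x) ⨯₃ p x)) (p v) = (p y - p x) ⨯₃ (p v - p x) := by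
        simp only [vel]
        rw [map_sub ((crossProduct (p y - p x)))]
        abel
      rw [this]
      rcases hv with rfl | rfl
      · simp
      · rw [cross_self]
    · rw [hF0]
      simp

theorem not_infRigid [DecidableRel G.Adj] (hp : Good p) (hδ : 8 ≤ G.minDegree)
    (hM : ¬ MixedConnected G) : ¬ InfRigid G p := by
  unfold MixedConnected at hM
  push Not at hM
  obtain ⟨X, S, hX, hS, hd, hT, hlt⟩ := hM
  obtain ⟨s, hs⟩ := hS
  obtain ⟨t, ht⟩ := hT
  have htm : t ∉ S ∪ X := Finset.mem_compl.1 ht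
  have htS : t ∉ S := fun h => htm (Finset.mem_union_left _ h)
  have htX : t ∉ X := fun h => htm (Finset.mem_union_right _ h)
  have hsX : s ∉ X := Finset.disjoint_left.1 hd hs
  have hst : s ≠ t := fun h => htS (h ▸ hs)
  set F := (S ×ˢ (S ∪ X)ᶜ).filter fun e => G.Adj e.1 e.2 with hF
  have hFm : ∀ {a b}, (a, b) ∈ F ↔ a ∈ S ∧ (b ∉ S ∧ b ∉ X) ∧ G.Adj a b := by
    intro a b
    simp [hF, and_assoc]
  have hF6 : F.card < 6 := by
    refine hlt.trans_le ?_
    calc (4 - X.card).choose 2 ≤ (4 : ℕ).choose 2 := Nat.choose_le_choose 2 (by omega)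
      _ = 6 := rfl
  obtain ⟨m, hm0, hmX, hmF⟩ := exists_screw hp hX hlt hst hsX htX
  -- both sides are large
  have hdeg : ∀ v, 8 ≤ (G.neighborFinset v).card := fun v => by
    rw [G.card_neighborFinset_eq_degree]
    exact hδ.trans (G.minDegree_le_degree v)
  have hV : 4 ≤ Fintype.card V := by
    have := hdeg s
    have := Finset.card_le_univ (G.neighborFinset s)
    omega
  have hbig1 : 3 ≤ (S ∪ X).card := by
    have h1 : ((G.neighborFinset s) \ (S ∪ X)).card ≤ F.card := by
      apply Finset.card_le_card_of_injOn (fun b => (s, b))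
      · intro b hb
        have hb := Finset.mem_sdiff.1 hb
        rw [SimpleGraph.mem_neighborFinset] at hb
        exact Finset.mem_coe.2 (hFm.2 ⟨hs, ⟨fun h => hb.2 (Finset.mem_union_left _ h),
          fun h => hb.2 (Finset.mem_union_right _ h)⟩, hb.1⟩)
      · intro b _ b' _ h
        exact (Prod.mk.inj h).2
    have h2 := Finset.card_le_card_sdiff_add_card (s := G.neighborFinset s) (t := S ∪ X)
    have h3 := hdeg s
    omega
  have hbig2 : 3 ≤ (Sᶜ).card := by
    have h1 : ((G.neighborFinset t) \ Sᶜ).card ≤ F.card := by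
      apply Finset.card_le_card_of_injOn (fun b => (b, t))
      · intro b hb
        have hb := Finset.mem_sdiff.1 hb
        rw [SimpleGraph.mem_neighborFinset, Finset.mem_compl, not_not] at hb
        exact Finset.mem_coe.2 (hFm.2 ⟨hb.2, ⟨htS, htX⟩, hb.1.symm⟩)
      · intro b _ b' _ h
        exact (Prod.mk.inj h).1
    have h2 := Finset.card_le_card_sdiff_add_card (s := G.neighborFinset t) (t := Sᶜ)
    have h3 := hdeg t
    omega
  have vanish : ∀ (T : Finset V) (m : Pt × Pt), 3 ≤ T.card → (∀ v ∈ T, vel m (p v) = 0) →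
      m = 0 := by
    intro T m hT hm
    obtain ⟨T', hT', hT'3⟩ := Finset.exists_subset_card_eq hT
    obtain ⟨a, b, c, hab, hac, hbc, rfl⟩ := Finset.card_eq_three.1 hT'3
    exact hp.screw_eq_zero hV hab hac hbc (hm a (hT' (by simp))) (hm b (hT' (by simp)))
      (hm c (hT' (by simp)))
  -- the motion
  intro hrig
  obtain ⟨r, t', hrt⟩ := hrig (fun v => if v ∈ S then vel m (p v) else 0) (by
    have main : ∀ v w, v ∈ S → w ∉ S → G.Adj v w → (p v - p w) ⬝ᵥ vel m (p v) = 0 := by
      intro v w hv hw hvw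
      by_cases hwX : w ∈ X
      · have h1 := dot_vel_sub m (p v) (p w)
        rwa [hmX w hwX, sub_zero] at h1
      · have := hmF (v, w) (hFm.2 ⟨hv, ⟨hw, hwX⟩, hvw⟩)
        rwa [bar_eq_dot_left] at this
    intro v w hvw
    by_cases hv : v ∈ S <;> by_cases hw : w ∈ S
    · simp only [hv, hw, if_true]
      exact dot_vel_sub m (p v) (p w)
    · simp only [hv, hw, if_true, if_false, sub_zero]
      exact main v w hv hw hvw
    · simp only [hv, hw, if_true, if_false, zero_sub, dotProduct_neg, neg_eq_zero]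
      have := main w v hw hv hvw.symm
      rw [← neg_sub, neg_dotProduct, this, neg_zero]
    · simp [hv, hw])
  have hm'0 : (r, t') = (0 : Pt × Pt) := by
    apply vanish Sᶜ _ hbig2
    intro v hv
    have := hrt v
    rw [Finset.mem_compl] at hv
    simp only [hv, if_false] at this
    exact this.symm
  apply hm0
  apply vanish (S ∪ X) m hbig1
  intro v hv
  rcases Finset.mem_union.1 hv with h | h
  · have := hrt v
    simp only [h, if_true] at this
    rw [this]
    have h1 : r = 0 := (Prod.mk.inj hm'0).1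
    have h2 : t' = 0 := (Prod.mk.inj hm'0).2
    simp [h1, h2]
  · exact hmX v h

end Pool.Agent.MP_37c7bf_co_Dense
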