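import Pool.Agent.Lib.MP_37c7bf_co_Dense.Third
import Pool.Agent.Lib.MP_37c7bf_co_Dense.ZeroOne

/-!
# Clusters and the kernel graph
-/

set_option linter.unusedSimpArgs false

open scoped Matrix

namespace Pool.Agent.MP_37c7bf_co_Dense

/-- A triangle moves as a rigid body. -/
theorem exists_screw_of_triangle {a b c d : Pt} (h : tri (b - a) (c - a) (d - a) ≠ 0)
    {ua ub uc : Pt} (hab : (a - b) ⬝ᵥ (ua - ub) = 0) (hac : (a - c) ⬝ᵥ (ua - uc) = 0)
    (hbc : (b - c) ⬝ᵥ (ub - uc) = 0) :
    ∃ m : Pt × Pt, ua = vel m a ∧ ub = vel m b ∧ uc = vel m c := by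
  set B := b - a with hB
  set C := c - a with hC
  set x := ub - ua with hx
  set y := uc - ua with hy
  set N := B ⨯₃ C with hN
  have hN0 : N ⬝ᵥ N ≠ 0 := by
    apply dot_self_ne
    intro h0
    apply h
    have : tri B C (d - a) = (d - a) ⬝ᵥ N := by
      rw [hN]
      exact (triple_product_permutation (d - a) B C).symm
    rw [this, h0, dotProduct_zero]
  have e1 : B ⬝ᵥ x = 0 := by
    rw [hB, hx]
    simp only [dot3, Pi.sub_apply] at hab ⊢
    linarith
  have e2 : C ⬝ᵥ y = 0 := by
    rw [hC, hy]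
    simp only [dot3, Pi.sub_apply] at hac ⊢
    linarith
  have e3 : C ⬝ᵥ x + B ⬝ᵥ y = 0 := by
    have h1 : (b - c) ⬝ᵥ (ub - uc) = B ⬝ᵥ x + C ⬝ᵥ y - (C ⬝ᵥ x + B ⬝ᵥ y) := by
      rw [hB, hC, hx, hy]
      simp only [dot3, Pi.sub_apply]
      ring
    rw [hbc, e1, e2] at h1
    linarith
  -- the rotation vector
  set r : Pt := (1 / (N ⬝ᵥ N)) • ((y ⬝ᵥ N) • B - (x ⬝ᵥ N) • C + (C ⬝ᵥ x) • N) with hr
  have hN0' : N 0 = B 1 * C 2 - B 2 * C 1 := by rw [hN]; simp [cross_apply]
  have hN1' : N 1 = B 2 * C 0 - B 0 * C 2 := by rw [hN]; simp [cross_apply]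
  have hN2' : N 2 = B 0 * C 1 - B 1 * C 0 := by rw [hN]; simp [cross_apply]
  have hrB : r ⨯₃ B = x := by
    have : (N ⬝ᵥ N) • (r ⨯₃ B) = (N ⬝ᵥ N) • x := by
      rw [← LinearMap.smul_apply, ← map_smul, hr, smul_smul, mul_one_div_cancel hN0, one_smul]
      rw [dot3] at e1
      ext i
      fin_cases i
      · simp [cross_apply, dot3, hN0', hN1', hN2']
        linear_combination (C 2 * (B 2 * C 0 - B 0 * C 2) - C 1 * (B 0 * C 1 - B 1 * C 0)) * e1
      · simp [cross_apply, dot3, hN0', hN1', hN2']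
        linear_combination (C 0 * (B 0 * C 1 - B 1 * C 0) - C 2 * (B 1 * C 2 - B 2 * C 1)) * e1
      · simp [cross_apply, dot3, hN0', hN1', hN2']
        linear_combination (C 1 * (B 1 * C 2 - B 2 * C 1) - C 0 * (B 2 * C 0 - B 0 * C 2)) * e1
    exact smul_right_injective _ hN0 this
  have hrC : r ⨯₃ C = y := by
    have : (N ⬝ᵥ N) • (r ⨯₃ C) = (N ⬝ᵥ N) • y := by
      rw [← LinearMap.smul_apply, ← map_smul, hr, smul_smul, mul_one_div_cancel hN0, one_smul]
      rw [dot3] at e2
      rw [dot3, dot3] at e3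
      ext i
      fin_cases i
      · simp [cross_apply, dot3, hN0', hN1', hN2']
        linear_combination (C 2 * (B 2 * C 0 - B 0 * C 2) - C 1 * (B 0 * C 1 - B 1 * C 0)) * e3
          - ((B 2 * C 0 - B 0 * C 2) * B 2 - (B 0 * C 1 - B 1 * C 0) * B 1) * e2
      · simp [cross_apply, dot3, hN0', hN1', hN2']
        linear_combination (C 0 * (B 0 * C 1 - B 1 * C 0) - C 2 * (B 1 * C 2 - B 2 * C 1)) * e3
          - ((B 0 * C 1 - B 1 * C 0) * B 0 - (B 1 * C 2 - B 2 * C 1) * B 2) * e2
      · simp [cross_apply, dot3, hN0', hN1', hN2']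
        linear_combination (C 1 * (B 1 * C 2 - B 2 * C 1) - C 0 * (B 2 * C 0 - B 0 * C 2)) * e3
          - ((B 1 * C 2 - B 2 * C 1) * B 1 - (B 2 * C 0 - B 0 * C 2) * B 0) * e2
    exact smul_right_injective _ hN0 this
  refine ⟨(r, ua - r ⨯₃ a), ?_, ?_, ?_⟩
  · simp [vel]
  · have : vel (r, ua - r ⨯₃ a) b = r ⨯₃ B + ua := by
      rw [hB, map_sub]; simp only [vel]; abel
    rw [this, hrB, hx]; abel
  · have : vel (r, ua - r ⨯₃ a) c = r ⨯₃ C + ua := by
      rw [hC, map_sub]; simp only [vel]; abel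
    rw [this, hrC, hy]; abel

variable {V : Type*} [Fintype V] [DecidableEq V] {G : SimpleGraph V} {p : V → Pt}

/-- Sets of at least three vertices spanning a complete graph are rigid. -/
theorem rig_top (hp : Good p) (hV : 4 ≤ Fintype.card V) {S : Finset V} (hS : 3 ≤ S.card) :
    Rig (⊤ : SimpleGraph V) p S := by
  classical
  induction hn : S.card using Nat.strong_induction_on generalizing S with
  | _ n ih =>
    subst hn
    by_cases h3 : S.card = 3
    · obtain ⟨a, b, c, hab, hac, hbc, rfl⟩ := Finset.card_eq_three.1 h3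
      obtain ⟨d, hd⟩ : ∃ d, d ∉ ({a, b, c} : Finset V) := by
        by_contra hcon
        push Not at hcon
        have : Fintype.card V ≤ ({a, b, c} : Finset V).card := by
          rw [← Finset.card_univ]
          exact Finset.card_le_card fun x _ => hcon x
        omega
      simp only [Finset.mem_insert, Finset.mem_singleton, not_or] at hd
      have htri := hp.c1 a b c d hab hac (Ne.symm hd.1) hbc (Ne.symm hd.2.1) (Ne.symm hd.2.2)
      intro u hu
      obtain ⟨m, ha, hb, hc⟩ := exists_screw_of_triangle htri (ua := u a) (ub := u b) (uc := u c)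
        (hu a (by simp) b (by simp) hab) (hu a (by simp) c (by simp) hac)
        (hu b (by simp) c (by simp) hbc)
      refine ⟨m, fun v hv => ?_⟩
      simp only [Finset.mem_insert, Finset.mem_singleton] at hv
      rcases hv with rfl | rfl | rfl <;> assumption
    · obtain ⟨v, hv⟩ : S.Nonempty := Finset.card_pos.1 (by omega)
      have hcard := Finset.card_erase_of_mem hv
      have := ih (S.erase v).card (by omega) (S := S.erase v) (by omega) rfl
      have h2 := Rig.insert hp this (Finset.notMem_erase v S) (by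
        rw [Finset.filter_true_of_mem]
        · omega
        · intro w hw
          exact (Finset.ne_of_mem_erase hw).symm)
      rwa [Finset.insert_erase hv] at h2

theorem infRigid_iff_kernel (hp : Good p) (hV : 4 ≤ Fintype.card V) {𝒜 : Finset (Finset V)}
    (hrig : ∀ A ∈ 𝒜, Rig G p A) (hcov : ∀ v, ∃ A ∈ 𝒜, v ∈ A) {W : Finset V}
    (hW : IsKernelSet G 𝒜 W) :
    InfRigid G p ↔ InfRigid (kernelGraph G 𝒜 W) (fun w : W => p w) := by
  -- two screws agreeing on three vertices are equal
  have huniq : ∀ (A : Finset V) (m m' : Pt × Pt), 3 ≤ A.card →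
      (∀ v ∈ A, vel m (p v) = vel m' (p v)) → m = m' := by
    intro A m m' hA h
    obtain ⟨A', hA', hA'3⟩ := Finset.exists_subset_card_eq hA
    obtain ⟨a, b, c, hab, hac, hbc, rfl⟩ := Finset.card_eq_three.1 hA'3
    have : m - m' = 0 := by
      apply hp.screw_eq_zero hV hab hac hbc
      · rw [vel_sub_screw, h a (hA' (by simp)), sub_self]
      · rw [vel_sub_screw, h b (hA' (by simp)), sub_self]
      · rw [vel_sub_screw, h c (hA' (by simp)), sub_self]
    exact sub_eq_zero.1 this
  constructor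
  · intro h u hu
    -- extend `u` to all vertices
    have hm : ∀ A ∈ 𝒜, ∃ m : Pt × Pt, ∀ w : W, (w : V) ∈ A → u w = vel m (p w) := by
      intro A hA
      obtain ⟨m, hm⟩ := rig_top hp hV (hW.three A hA)
        (fun v => if hv : v ∈ W then u ⟨v, hv⟩ else 0) (by
          intro v hv w hw hvw
          have hv' := Finset.mem_inter.1 hv
          have hw' := Finset.mem_inter.1 hw
          simp only [hv'.2, hw'.2, dif_pos]
          exact hu ⟨v, hv'.2⟩ ⟨w, hw'.2⟩ ⟨fun h => hvw (congrArg Subtype.val h),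
            Or.inr ⟨A, hA, hv'.1, hw'.1⟩⟩)
      refine ⟨m, fun w hw => ?_⟩
      have := hm w (Finset.mem_inter.2 ⟨hw, w.2⟩)
      simpa using this
    choose! m hm using hm
    choose A hA hvA using hcov
    have hUA : ∀ B ∈ 𝒜, ∀ v ∈ B, vel (m (A v)) (p v) = vel (m B) (p v) := by
      intro B hB v hv
      by_cases hAB : A v = B
      · rw [hAB]
      · have hvW : v ∈ W := hW.inter _ (hA v) _ hB hAB (Finset.mem_inter.2 ⟨hvA v, hv⟩)
        rw [← hm (A v) (hA v) ⟨v, hvW⟩ (hvA v), ← hm B hB ⟨v, hvW⟩ hv]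
    have hUW : ∀ w : W, vel (m (A w)) (p w) = u w := fun w => (hm (A w) (hA w) w (hvA w)).symm
    obtain ⟨r, t, hrt⟩ := h (fun v => vel (m (A v)) (p v)) (by
      intro v w hvw
      by_cases hB : ∃ B ∈ 𝒜, v ∈ B ∧ w ∈ B
      · obtain ⟨B, hB, hv, hw⟩ := hB
        simp only
        rw [hUA B hB v hv, hUA B hB w hw]
        exact dot_vel_sub _ _ _
      · push Not at hB
        obtain ⟨hv, hw⟩ := hW.ends v w hvw fun B hB' h => hB B hB' h.1 h.2
        simp only
        rw [hUW ⟨v, hv⟩, hUW ⟨w, hw⟩]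
        exact hu ⟨v, hv⟩ ⟨w, hw⟩ ⟨fun h => hvw.ne (congrArg Subtype.val h), Or.inl hvw⟩)
    refine ⟨r, t, fun w => ?_⟩
    rw [← hUW w]
    exact hrt w
  · intro h u hu
    choose! m hm using fun A hA => hrig A hA u fun v _ w _ => hu v w
    obtain ⟨r, t, hrt⟩ := h (fun w => u w) (by
      rintro v w ⟨-, hvw | ⟨B, hB, hv, hw⟩⟩
      · exact hu v w hvw
      · simp only
        rw [hm B hB v hv, hm B hB w hw]
        exact dot_vel_sub _ _ _)
    refine ⟨r, t, fun v => ?_⟩
    obtain ⟨A, hA, hvA⟩ := hcov v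
    have : m A = (r, t) := by
      apply huniq (A ∩ W) _ _ (hW.three A hA)
      intro w hw
      have hw' := Finset.mem_inter.1 hw
      rw [← hm A hA w hw'.1]
      exact hrt ⟨w, hw'.2⟩
    rw [hm A hA v hvA, this]
    rfl

/-- Built sets are rigid at configurations in general position. -/
theorem Built.rig (hp : Good p) (hV : 4 ≤ Fintype.card V) {S : Finset V} (hS : Built G S) :
    Rig G p S := by
  classical
  induction hS with
  | base Y T hY hT h => exact (closedFamily_rig hp hV).base Y T hY hT h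
  | add S v hS N hN hN3 h ih =>
    by_cases hv : v ∈ S
    · rwa [Finset.insert_eq_of_mem hv]
    · apply ih.insert hp hv
      rw [← hN3]
      apply Finset.card_le_card
      intro w hw
      exact Finset.mem_filter.2 ⟨hN hw, h w hw⟩
  | glue S T hS hT F hF hF2 hcard ihS ihT =>
    by_cases h3 : 3 ≤ (S ∩ T).card
    · exact ihS.union hp hV ihT h3
    · intro u hu
      obtain ⟨m, hm⟩ := ihS u fun v hv w hw =>
        hu v (Finset.mem_union_left _ hv) w (Finset.mem_union_left _ hw)
      obtain ⟨m', hm'⟩ := ihT u fun v hv w hw =>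
        hu v (Finset.mem_union_right _ hv) w (Finset.mem_union_right _ hw)
      have h0 : m - m' = 0 := by
        apply screw_eq_zero_of_bars hp hF2 (X := S ∩ T) (by omega) ?_ hcard
        · intro x hx
          have := Finset.mem_inter.1 hx
          rw [vel_sub_screw, ← hm x this.1, ← hm' x this.2, sub_self]
        · rintro ⟨a, b⟩ he
          obtain ⟨ha, hb, hab⟩ := hF _ he
          simp only [Finset.mem_sdiff] at ha hb
          have hedge := hu a (Finset.mem_union_left _ ha.1) b (Finset.mem_union_right _ hb.1) hab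
          rw [hm a ha.1, hm' b hb.1] at hedge
          have h2 := dot_vel_sub m (p a) (p b)
          rw [dotProduct_sub] at hedge h2
          simp only [bar]
          rw [vel_sub_screw, dotProduct_sub]
          linarith
        · rintro x hx ⟨a, b⟩ he
          obtain ⟨ha, hb, hab⟩ := hF _ he
          simp only [Finset.mem_sdiff] at ha hb
          have hx' := Finset.mem_inter.1 hx
          constructor
          · rintro rfl
            exact ha.2 hx'.2
          · rintro rfl
            exact hb.2 hx'.1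
      have h1 : m = m' := sub_eq_zero.1 h0
      subst h1
      refine ⟨m, fun v hv => ?_⟩
      rcases Finset.mem_union.1 hv with h | h
      · exact hm v h
      · exact hm' v h

theorem closedFamily_built [DecidableRel G.Adj] : ClosedFamily G (Built G) where
  add S v hS _ h3 := by
    obtain ⟨N, hN, hN3⟩ := Finset.exists_subset_card_eq h3
    exact Built.add S v hS N (hN.trans (Finset.filter_subset _ _)) hN3 fun w hw =>
      (Finset.mem_filter.1 (hN hw)).2
  glue S T hS hT h3 := by
    refine Built.glue S T hS hT ∅ (by simp) ⟨by simp, by simp, by simp⟩ ?_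
    have : (4 - (S ∩ T).card).choose 2 = 0 := Nat.choose_eq_zero_of_lt (by omega)
    omega
  base := Built.base

/-- The edges of `G` between `A \ B` and `B \ A`. -/
def cross (G : SimpleGraph V) [DecidableRel G.Adj] (A B : Finset V) : Finset (V × V) :=
  ((A \ B) ×ˢ (B \ A)).filter fun e => G.Adj e.1 e.2

omit [Fintype V] in
theorem mem_cross [DecidableRel G.Adj] {A B : Finset V} {a b : V} :
    (a, b) ∈ cross G A B ↔ (a ∈ A ∧ a ∉ B) ∧ (b ∈ B ∧ b ∉ A) ∧ G.Adj a b := by
  simp [cross, and_assoc]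

omit [Fintype V] in
theorem three_of_card_le_two {s : Finset V} {a b c : V} (ha : a ∈ s) (hb : b ∈ s) (hc : c ∈ s)
    (hs : s.card ≤ 2) : a = b ∨ a = c ∨ b = c := by
  by_contra hcon
  push Not at hcon
  have hsub : ({a, b, c} : Finset V) ⊆ s := by
    intro x hx
    simp only [Finset.mem_insert, Finset.mem_singleton] at hx
    rcases hx with rfl | rfl | rfl <;> assumption
  have := Finset.card_le_card hsub
  rw [Finset.card_eq_three.2 ⟨a, b, c, hcon.1, hcon.2.1, hcon.2.2, rfl⟩] at this
  omega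

/-- Two different maximal built sets are joined by few edges. -/
theorem card_cross_lt [DecidableRel G.Adj] {A B : Finset V} (hA : IsMaxP (Built G) A)
    (hB : IsMaxP (Built G) B) (hAB : A ≠ B) :
    (cross G A B).card < (4 - (A ∩ B).card).choose 2 := by
  by_contra hcon
  push Not at hcon
  have hP := closedFamily_built (G := G)
  have h := Built.glue A B hA.1 hB.1 (cross G A B) (by
    rintro ⟨a, b⟩ he
    rw [mem_cross] at he
    simp only [Finset.mem_sdiff]
    exact he) (by
    refine ⟨?_, ?_, ?_⟩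
    · rintro ⟨a, b⟩ he ⟨a', b'⟩ he' h
      simp only at h
      subst h
      exact (mem_cross.1 he').2.1.2 (mem_cross.1 he).1.1
    · intro a b₁ b₂ b₃ h1 h2 h3
      rw [mem_cross] at h1 h2 h3
      exact three_of_card_le_two (Finset.mem_filter.2 ⟨h1.2.1.1, h1.2.2⟩)
        (Finset.mem_filter.2 ⟨h2.2.1.1, h2.2.2⟩)
        (Finset.mem_filter.2 ⟨h3.2.1.1, h3.2.2⟩) (hB.card_nbrs_le hP h1.1.2)
    · intro b a₁ a₂ a₃ h1 h2 h3
      rw [mem_cross] at h1 h2 h3
      exact three_of_card_le_two (Finset.mem_filter.2 ⟨h1.1.1, h1.2.2.symm⟩)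
        (Finset.mem_filter.2 ⟨h2.1.1, h2.2.2.symm⟩)
        (Finset.mem_filter.2 ⟨h3.1.1, h3.2.2.symm⟩) (hA.card_nbrs_le hP h1.2.1.2)) hcon
  have h1 := hA.2 _ h Finset.subset_union_left
  have h2 := hB.2 _ h Finset.subset_union_right
  exact hAB (h1.symm.trans h2)

/-- Small kernel sets exist. -/
theorem exists_kernelSet [DecidableRel G.Adj] {𝒜 : Finset (Finset V)}
    (hmax : ∀ A ∈ 𝒜, IsMaxP (Built G) A) (h3 : ∀ A ∈ 𝒜, 3 ≤ A.card)
    (hcov : ∀ v, ∃ A ∈ 𝒜, v ∈ A) :
    ∃ W, IsKernelSet G 𝒜 W ∧ W.card ≤ 3 * 𝒜.card + 5 * (𝒜.card * (𝒜.card - 1)) := by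
  have hT : ∀ A ∈ 𝒜, ∃ T ⊆ A, T.card = 3 := fun A hA => Finset.exists_subset_card_eq (h3 A hA)
  choose! T hTA hT3 using hT
  let piece : Finset V × Finset V → Finset V := fun q =>
    (q.1 ∩ q.2) ∪ (cross G q.1 q.2).image Prod.fst
  refine ⟨𝒜.biUnion T ∪ 𝒜.offDiag.biUnion piece, ⟨?_, ?_, ?_⟩, ?_⟩
  · intro A hA
    rw [← hT3 A hA]
    apply Finset.card_le_card
    intro v hv
    exact Finset.mem_inter.2 ⟨hTA A hA hv, Finset.mem_union_left _
      (Finset.mem_biUnion.2 ⟨A, hA, hv⟩)⟩
  · intro A hA B hB hAB v hv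
    exact Finset.mem_union_right _ (Finset.mem_biUnion.2
      ⟨(A, B), Finset.mem_offDiag.2 ⟨hA, hB, hAB⟩, Finset.mem_union_left _ hv⟩)
  · have key : ∀ v w, G.Adj v w → (∀ A ∈ 𝒜, ¬ (v ∈ A ∧ w ∈ A)) →
        v ∈ 𝒜.offDiag.biUnion piece := by
      intro v w hvw hno
      obtain ⟨A, hA, hvA⟩ := hcov v
      obtain ⟨B, hB, hwB⟩ := hcov w
      have hwA : w ∉ A := fun h => hno A hA ⟨hvA, h⟩
      have hvB : v ∉ B := fun h => hno B hB ⟨h, hwB⟩
      have hAB : A ≠ B := by
        rintro rfl
        exact hvB hvA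
      refine Finset.mem_biUnion.2 ⟨(A, B), Finset.mem_offDiag.2 ⟨hA, hB, hAB⟩,
        Finset.mem_union_right _ (Finset.mem_image.2 ⟨(v, w), ?_, rfl⟩)⟩
      exact mem_cross.2 ⟨⟨hvA, hvB⟩, ⟨hwB, hwA⟩, hvw⟩
    intro v w hvw hno
    exact ⟨Finset.mem_union_right _ (key v w hvw hno), Finset.mem_union_right _
      (key w v hvw.symm fun A hA h => hno A hA ⟨h.2, h.1⟩)⟩
  · refine (Finset.card_union_le _ _).trans (Nat.add_le_add ?_ ?_)
    · refine Finset.card_biUnion_le.trans ?_
      refine (Finset.sum_le_card_nsmul _ _ 3 fun A hA => (hT3 A hA).le).trans ?_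
      rw [smul_eq_mul, mul_comm]
    · refine Finset.card_biUnion_le.trans ?_
      refine (Finset.sum_le_card_nsmul _ _ 5 fun q hq => ?_).trans ?_
      · obtain ⟨A, B⟩ := q
        obtain ⟨hA, hB, hAB⟩ := Finset.mem_offDiag.1 hq
        simp only at hA hB hAB
        have h1 := card_cross_lt (hmax A hA) (hmax B hB) hAB
        have h2 := (hmax A hA).card_inter_le closedFamily_built (hmax B hB) hAB
        have h4 : (piece (A, B)).card ≤ (A ∩ B).card + (cross G A B).card :=
          (Finset.card_union_le _ _).trans (Nat.add_le_add_left Finset.card_image_le _)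
        refine h4.trans ?_
        interval_cases hc : (A ∩ B).card
        · have : (4 - 0).choose 2 = 6 := rfl
          omega
        · have : (4 - 1).choose 2 = 3 := rfl
          omega
        · have : (4 - 2).choose 2 = 1 := rfl
          omega
      · rw [smul_eq_mul, Finset.offDiag_card, mul_comm, Nat.mul_sub_one]

end Pool.Agent.MP_37c7bf_co_Dense
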