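import Pool.Agent.Lib.MP_37c7bf_co_Dense.Kernel

/-!
# Main theorem on the kernel of a dense graph
-/

open scoped Matrix
open MeasureTheory

namespace Pool.Agent.MP_37c7bf_co_Dense

variable {V : Type*} [Fintype V] [DecidableEq V]

theorem kernel_dichotomy {G : SimpleGraph V} (hV : 4 ≤ Fintype.card V) {𝒜 : Finset (Finset V)}
    (hbuilt : ∀ A ∈ 𝒜, Built G A) (hcov : ∀ v, ∃ A ∈ 𝒜, v ∈ A) {W : Finset V}
    (hW : IsKernelSet G 𝒜 W) :
    (GenericallyRigid G ∧ GenericallyRigid (kernelGraph G 𝒜 W)) ∨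
      (GenericallyFlexible G ∧ GenericallyFlexible (kernelGraph G 𝒜 W)) := by
  rcases zero_one (kernelGraph G 𝒜 W) with h | h
  · left
    refine ⟨?_, h⟩
    obtain ⟨q, hq⟩ := Filter.Eventually.exists h
    unfold GenericallyRigid
    filter_upwards [ae_good (V := V), ae_infRigid_of_exists (V := V) Subtype.val_injective hq]
      with p hp hpH
    exact (infRigid_iff_kernel hp hV (fun A hA => (hbuilt A hA).rig hp hV) hcov hW).2 hpH
  · right
    refine ⟨?_, Filter.Eventually.of_forall h⟩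
    unfold GenericallyFlexible
    filter_upwards [ae_good (V := V)] with p hp hG
    exact h _ ((infRigid_iff_kernel hp hV (fun A hA => (hbuilt A hA).rig hp hV) hcov hW).1 hG)

theorem dense_kernel (G : SimpleGraph V) [DecidableRel G.Adj] (k : ℕ) (hk : 1 ≤ k)
    (hn : (k + 1) * ((4 * k + 1) * ((4 * (k + 1)).choose 4 * (2 * k + 9))) < Fintype.card V)
    (hδ : Fintype.card V + 3 * k * (k + 1) ≤ (k + 1) * G.minDegree) :
    ∃ 𝒜 : Finset (Finset V), (∀ A, A ∈ 𝒜 ↔ IsCluster G k A) ∧ 𝒜.card ≤ k ∧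
      (∀ v, ∃ A ∈ 𝒜, v ∈ A) ∧
      (∃ W, IsKernelSet G 𝒜 W ∧ W.card ≤ 5 * k ^ 2) ∧
      ∀ W, IsKernelSet G 𝒜 W →
        (GenericallyRigid G ∧ GenericallyRigid (kernelGraph G 𝒜 W)) ∨
          (GenericallyFlexible G ∧ GenericallyFlexible (kernelGraph G 𝒜 W)) := by
  obtain ⟨𝒜, hcard, hmem, -, hcov⟩ := cluster_cover (closedFamily_built (G := G)) hk hn hδ
  have hmem' : ∀ A, A ∈ 𝒜 ↔ IsCluster G k A := hmem
  have hchoose : 1 ≤ (4 * (k + 1)).choose 4 := Nat.choose_pos (by omega)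
  have hV : 4 ≤ Fintype.card V := by
    have h1 : 1 * ((4 * k + 1) * (1 * (2 * k + 9))) ≤
        (k + 1) * ((4 * k + 1) * ((4 * (k + 1)).choose 4 * (2 * k + 9))) :=
      Nat.mul_le_mul (by omega) (Nat.mul_le_mul_left _ (Nat.mul_le_mul_right _ hchoose))
    nlinarith
  refine ⟨𝒜, hmem', hcard, hcov, ?_, fun W hW => kernel_dichotomy hV
    (fun A hA => ((hmem A).1 hA).1.1) hcov hW⟩
  obtain ⟨W, hW, hWcard⟩ := exists_kernelSet (fun A hA => ((hmem A).1 hA).1)
    (fun A hA => by have := ((hmem A).1 hA).2; omega) hcov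
  refine ⟨W, hW, hWcard.trans ?_⟩
  generalize 𝒜.card = m at hcard
  rcases m with _ | m
  · positivity
  · have : m + 1 - 1 = m := rfl
    rw [this]
    nlinarith

end Pool.Agent.MP_37c7bf_co_Dense
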