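import Pool.Agent.Lib.MP_37c7bf_co_Dense.Defs

section GenericPart

/-!
# Zero sets of nonzero real-analytic functions are null

Used for generic configurations: an analytic function on a finite-dimensional real vector space
which is nonzero at one point is nonzero almost everywhere; consequence for matrices with analytic
entries.
-/

open MeasureTheory Metric Set

namespace Pool.Agent.MP_37c7bf_co_Dense

@[fun_prop]
theorem analyticAt_apply_pi {ι : Type*} [Fintype ι] {F : Type*} [NormedAddCommGroup F]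
    [NormedSpace ℝ F] (i : ι) (f : ι → F) : AnalyticAt ℝ (fun f : ι → F => f i) f :=
  (ContinuousLinearMap.proj (R := ℝ) (φ := fun _ : ι => F) i).analyticAt f

section
variable {E : Type*} [NormedAddCommGroup E] [NormedSpace ℝ E] [MeasurableSpace E] [BorelSpace E]
  [FiniteDimensional ℝ E] (μ : Measure E) [μ.IsAddHaarMeasure]

theorem ae_ne_zero_of_analytic_aux {f : E → ℝ} (hf : ∀ x, AnalyticAt ℝ f x) (h0 : f 0 ≠ 0) :
    ∀ᵐ x ∂μ, f x ≠ 0 := by
  have hcont : Continuous f := continuous_iff_continuousAt.2 fun x => (hf x).continuousAt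
  -- work on the punctured space
  have hnull : μ {x | x ≠ 0 ∧ f x = 0} = 0 := by
    have hmp := μ.measurePreserving_homeomorphUnitSphereProd
    set H := homeomorphUnitSphereProd E with hH
    have hZ : MeasurableSet {y : sphere (0 : E) 1 × Ioi (0 : ℝ) | f (y.2.1 • y.1.1) = 0} := by
      apply IsClosed.measurableSet
      apply isClosed_eq _ continuous_const
      exact hcont.comp (by fun_prop)
    have key : (μ.toSphere.prod (Measure.volumeIoiPow (Module.finrank ℝ E - 1)))
        {y : sphere (0 : E) 1 × Ioi (0 : ℝ) | f (y.2.1 • y.1.1) = 0} = 0 := by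
      rw [Measure.measure_prod_null hZ]
      refine Filter.Eventually.of_forall fun s => ?_
      have hline : AnalyticOnNhd ℝ (fun t : ℝ => f (t • (s : E))) univ := by
        intro t _
        exact (hf _).fun_comp (by fun_prop)
      have hcod := hline.preimage_zero_mem_codiscrete (x := 0) (by simpa using h0)
      have hae : ∀ᵐ t : ℝ, f (t • (s : E)) ≠ 0 := by
        have := ae_restrict_le_codiscreteWithin (μ := (volume : Measure ℝ)) MeasurableSet.univ hcod
        rw [Measure.restrict_univ] at this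
        filter_upwards [this] with t ht
        simpa using ht
      have hac : Measure.volumeIoiPow (Module.finrank ℝ E - 1) ≪
          (Measure.comap Subtype.val volume : Measure (Ioi (0 : ℝ))) :=
        withDensity_absolutelyContinuous _ _
      apply hac
      rw [Measure.comap_apply _ Subtype.val_injective
        (fun s hs => measurableSet_Ioi.subtype_image hs)]
      · refine measure_mono_null ?_ hae
        rintro _ ⟨t, ht, rfl⟩
        simpa using ht
      · exact (measurable_prodMk_left hZ)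
    have h2 := hmp.measure_preimage hZ.nullMeasurableSet
    rw [key] at h2
    rw [Measure.comap_apply _ Subtype.val_injective
        (fun s hs => (measurableSet_singleton _).compl.subtype_image hs)] at h2
    · refine measure_mono_null ?_ h2
      rintro x ⟨hx0, hx⟩
      refine ⟨⟨x, hx0⟩, ?_, rfl⟩
      have hx1 : ‖x‖ ≠ 0 := by simpa using hx0
      simp [hH, homeomorphUnitSphereProd, smul_smul, hx1, hx]
    · exact H.measurable hZ
  have : μ {x | f x = 0} = 0 := by
    refine measure_mono_null ?_ hnull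
    intro x hx
    refine ⟨?_, hx⟩
    rintro rfl
    exact h0 hx
  simpa [ae_iff] using this

/-- An analytic function which is nonzero somewhere is nonzero almost everywhere. -/
theorem ae_ne_zero_of_analytic {f : E → ℝ} (hf : ∀ x, AnalyticAt ℝ f x) {q : E} (h0 : f q ≠ 0) :
    ∀ᵐ x ∂μ, f x ≠ 0 := by
  have h1 : ∀ᵐ x ∂μ, f (x + q) ≠ 0 := by
    apply ae_ne_zero_of_analytic_aux μ (f := fun x => f (x + q))
    · intro x
      exact (hf _).fun_comp (by fun_prop)
    · simpa using h0
  have h2 : ∀ᵐ x ∂μ, (fun y => f y ≠ 0) (x + q) := h1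
  rw [ae_iff] at h2 ⊢
  have := measure_preimage_add_right μ q {y | ¬ (f y ≠ 0)}
  rw [← this]
  exact h2

theorem mulVec_inj_iff {n : Type*} [Fintype n] [DecidableEq n] (M : Matrix n n ℝ) :
    (∀ v, M.mulVec v = 0 → v = 0) ↔ M.det ≠ 0 := by
  rw [ne_eq, ← Matrix.exists_mulVec_eq_zero_iff]
  push Not
  constructor
  · intro h v hv hv'
    exact hv (h v hv')
  · intro h v hv'
    by_contra hv
    exact h v hv hv'

/-- A square matrix with analytic entries which is invertible at one point is injective almost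
everywhere. -/
theorem ae_matrix_inj {n : Type*} [Fintype n] [DecidableEq n] (M : E → Matrix n n ℝ)
    (hM : ∀ i j x, AnalyticAt ℝ (fun x => M x i j) x) {q : E}
    (hq : (M q).det ≠ 0) : ∀ᵐ x ∂μ, ∀ v, (M x).mulVec v = 0 → v = 0 := by
  have h1 : ∀ᵐ x ∂μ, (M x).det ≠ 0 := by
    apply ae_ne_zero_of_analytic μ (q := q)
    · intro x
      simp_rw [Matrix.det_apply']
      apply Finset.analyticAt_fun_sum
      intro σ _
      apply AnalyticAt.fun_mul analyticAt_const
      apply Finset.analyticAt_fun_prod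
      intro i _
      exact hM _ _ _
    · exact hq
  filter_upwards [h1] with x hx
  exact (mulVec_inj_iff _).2 hx

end

end Pool.Agent.MP_37c7bf_co_Dense

end GenericPart

section ScrewPart

/-!
# Screws and bars between two rigid bodies

`vel m` is the velocity field of the infinitesimal isometry `m = (r, t)`, `bar m a b` is the value
on `m` of the length functional of a bar joining `a` in one body to `b` in another one. We show that
for every bipartite graph `F` of maximum degree at most two with at most six edges the bars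
of `F` are independent at some (hence almost every) configuration.
-/

open scoped Matrix
open MeasureTheory

namespace Pool.Agent.MP_37c7bf_co_Dense

/-- Value of the infinitesimal isometry `m = (r, t)` at the point `x`. -/
def vel (m : Pt × Pt) (x : Pt) : Pt := m.1 ⨯₃ x + m.2

/-- Value on `m` of the length functional of the bar from `a` to `b`. -/
def bar (m : Pt × Pt) (a b : Pt) : ℝ := (a - b) ⬝ᵥ vel m b

theorem vel_0 (m : Pt × Pt) (x : Pt) : vel m x 0 = m.1 1 * x 2 - m.1 2 * x 1 + m.2 0 := by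
  simp [vel, cross_apply]

theorem vel_1 (m : Pt × Pt) (x : Pt) : vel m x 1 = m.1 2 * x 0 - m.1 0 * x 2 + m.2 1 := by
  simp [vel, cross_apply]

theorem vel_2 (m : Pt × Pt) (x : Pt) : vel m x 2 = m.1 0 * x 1 - m.1 1 * x 0 + m.2 2 := by
  simp [vel, cross_apply]

theorem dot3 (x y : Pt) : x ⬝ᵥ y = x 0 * y 0 + x 1 * y 1 + x 2 * y 2 := by
  simp [dotProduct, Fin.sum_univ_three]

theorem bar_eq (m : Pt × Pt) (a b : Pt) : bar m a b =
    (a 0 - b 0) * (m.1 1 * b 2 - m.1 2 * b 1 + m.2 0) +
    (a 1 - b 1) * (m.1 2 * b 0 - m.1 0 * b 2 + m.2 1) +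
    (a 2 - b 2) * (m.1 0 * b 1 - m.1 1 * b 0 + m.2 2) := by
  simp only [bar, dot3, vel_0, vel_1, vel_2, Pi.sub_apply]

theorem bar_swap (m : Pt × Pt) (a b : Pt) : bar m b a = - bar m a b := by
  simp only [bar_eq]; ring

theorem bar_sub_smul (m m' : Pt × Pt) (c : ℝ) (a b : Pt) :
    bar (m - c • m') a b = bar m a b - c * bar m' a b := by
  simp only [bar_eq, Prod.fst_sub, Prod.snd_sub, Prod.smul_fst, Prod.smul_snd, Pi.sub_apply,
    Pi.smul_apply, smul_eq_mul]
  ring

theorem bar_smul_sub (m m' : Pt × Pt) (c d : ℝ) (a b : Pt) :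
    bar (c • m - d • m') a b = c * bar m a b - d * bar m' a b := by
  simp only [bar_eq, Prod.fst_sub, Prod.snd_sub, Prod.smul_fst, Prod.smul_snd, Pi.sub_apply,
    Pi.smul_apply, smul_eq_mul]
  ring

theorem bar_add_dot (m : Pt × Pt) (w b : Pt) : bar m (b + w) b = w ⬝ᵥ vel m b := by
  simp [bar]

theorem dot_self_ne {w : Pt} (hw : w ≠ 0) : w ⬝ᵥ w ≠ 0 := by
  intro h
  exact hw (dotProduct_self_eq_zero.1 h)

/-- The linear functional `m ↦ bar m a b`. -/
def barL (a b : Pt) : (Pt × Pt) →ₗ[ℝ] ℝ where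
  toFun m := bar m a b
  map_add' m m' := by
    simp only [bar_eq, Prod.fst_add, Prod.snd_add, Pi.add_apply]; ring
  map_smul' c m := by
    simp only [bar_eq, Prod.smul_fst, Prod.smul_snd, Pi.smul_apply, smul_eq_mul,
      RingHom.id_apply]
    ring

/-- Fewer than six bars admit a nonzero screw. -/
theorem exists_ne_zero_of_card_lt {ι : Type*} (F : Finset ι) (hF : F.card < 6)
    (a b : ι → Pt) : ∃ m : Pt × Pt, m ≠ 0 ∧ ∀ e ∈ F, bar m (a e) (b e) = 0 := by
  let Φ : (Pt × Pt) →ₗ[ℝ] (F → ℝ) := LinearMap.pi fun e => barL (a e) (b e)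
  have hlt : Module.finrank ℝ (F → ℝ) < Module.finrank ℝ (Pt × Pt) := by
    simpa using hF
  have hker := LinearMap.ker_ne_bot_of_finrank_lt (f := Φ) hlt
  obtain ⟨m, hm, hm0⟩ := Submodule.exists_mem_ne_zero_of_ne_bot hker
  refine ⟨m, hm0, fun e he => ?_⟩
  have h := LinearMap.mem_ker.1 hm
  have := congrFun h ⟨e, he⟩
  simpa [Φ, barL] using this

theorem exists_vel_ne {m : Pt × Pt} (hm : m ≠ 0) : ∃ B : Pt, vel m B ≠ 0 := by
  by_contra hcon
  push Not at hcon
  apply hm
  have h0 := hcon 0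
  have h1 := hcon ![1, 0, 0]
  have h2 := hcon ![0, 1, 0]
  have e := fun i => congrFun h0 i
  have e1 := fun i => congrFun h1 i
  have e2 := fun i => congrFun h2 i
  have a0 := e 0; have a1 := e 1; have a2 := e 2
  have b1 := e1 1; have b2 := e1 2
  have c0 := e2 0
  simp only [vel_0, vel_1, vel_2, Pi.zero_apply, Matrix.cons_val_zero, Matrix.cons_val_one,
    Matrix.cons_val] at a0 a1 a2 b1 b2 c0
  have r0 : m.1 = 0 := by
    ext i; fin_cases i
    · have c2 := e2 2
      simp only [vel_2, Pi.zero_apply, Matrix.cons_val_zero, Matrix.cons_val_one] at c2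
      simp; linarith
    · simp; linarith
    · simp; linarith
  have t0 : m.2 = 0 := by
    ext i; fin_cases i
    · simp; linarith
    · simp; linarith
    · simp; linarith
  exact Prod.ext r0 t0

theorem vel_add (m : Pt × Pt) (b y : Pt) : vel m (b + y) = vel m b + m.1 ⨯₃ y := by
  simp only [vel, map_add]; abel

theorem bar_eq_dot_left (m : Pt × Pt) (a b : Pt) : bar m a b = (a - b) ⬝ᵥ vel m a := by
  simp only [bar_eq, dot3, vel_0, vel_1, vel_2, Pi.sub_apply]; ring

/-- if `u × v = 0`, `x ⬝ u ≠ 0`, `x ⬝ v = 0` then `v = 0` -/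
theorem eq_zero_of_cross {x u v : Pt} (h : u ⨯₃ v = 0) (hu : x ⬝ᵥ u ≠ 0) (hv : x ⬝ᵥ v = 0) :
    v = 0 := by
  have e0 := congrFun h 0
  have e1 := congrFun h 1
  have e2 := congrFun h 2
  simp [cross_apply] at e0 e1 e2
  rw [dot3] at hu hv
  have key : ∀ i, (x 0 * u 0 + x 1 * u 1 + x 2 * u 2) * v i = 0 := by
    intro i
    fin_cases i
    · simp only [Fin.zero_eta]
      linear_combination (u 0) * hv - x 1 * e2 + x 2 * e1
    · simp only [Fin.mk_one]
      linear_combination (u 1) * hv + x 0 * e2 - x 2 * e0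
    · simp only [Fin.reduceFinMk]
      linear_combination (u 2) * hv - x 0 * e1 + x 1 * e0
  ext i
  exact (mul_eq_zero.1 (key i)).resolve_left hu

/-- Two linearly independent screws have linearly independent velocities at some point. -/
theorem exists_vel_cross_ne {m₁ m₂ : Pt × Pt} {a b : Pt} (h1 : bar m₁ a b ≠ 0)
    (h2 : bar m₂ a b = 0) (hm : m₂ ≠ 0) : ∃ B : Pt, vel m₁ B ⨯₃ vel m₂ B ≠ 0 := by
  by_contra hcon
  push Not at hcon
  have hvb : vel m₂ b = 0 := eq_zero_of_cross (hcon b) h1 h2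
  have hr : m₂.1 ≠ 0 := by
    intro h
    apply hm
    refine Prod.ext h ?_
    rw [vel, h] at hvb
    simpa using hvb
  set w := vel m₁ b with hw
  have hw0 : w ≠ 0 := by
    intro h
    apply h1
    rw [bar, ← hw, h, dotProduct_zero]
  have key : ∀ y : Pt, w ⨯₃ (m₂.1 ⨯₃ y) = 0 := by
    intro y
    have e1 := hcon (b + y)
    have e2 := hcon (b + -y)
    rw [vel_add, vel_add, hvb, ← hw, zero_add] at e1 e2
    simp only [map_add, map_neg, LinearMap.add_apply, LinearMap.neg_apply] at e1 e2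
    have : (2 : ℝ) • w ⨯₃ (m₂.1 ⨯₃ y) = 0 := by
      rw [two_smul]
      calc w ⨯₃ (m₂.1 ⨯₃ y) + w ⨯₃ (m₂.1 ⨯₃ y) = (w ⨯₃ (m₂.1 ⨯₃ y) + (m₁.1 ⨯₃ y) ⨯₃ (m₂.1 ⨯₃ y))
          - (-(w ⨯₃ (m₂.1 ⨯₃ y) + -((m₁.1 ⨯₃ y) ⨯₃ (m₂.1 ⨯₃ y)))) := by abel
        _ = 0 := by rw [e1, e2]; simp
    exact (smul_eq_zero.1 this).resolve_left two_ne_zero
  -- components
  have hdot : m₂.1 ⬝ᵥ w = 0 := by
    have k0 := congrFun (key ![1, 0, 0]) 0
    have k1 := congrFun (key ![0, 1, 0]) 1
    have k2 := congrFun (key ![0, 0, 1]) 2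
    simp [cross_apply] at k0 k1 k2
    rw [dot3]
    linarith
  have k := fun i => congrFun (key w) i
  have k0 := k 0; have k1 := k 1; have k2 := k 2
  simp only [cross_apply, Matrix.cons_val_zero, Matrix.cons_val_one, Matrix.cons_val,
    Pi.zero_apply] at k0 k1 k2
  have hww := dot_self_ne hw0
  rw [dot3] at hww hdot
  apply hr
  ext i
  have : (w 0 * w 0 + w 1 * w 1 + w 2 * w 2) * m₂.1 i = 0 := by
    fin_cases i
    · simp only [Fin.zero_eta]
      linear_combination k0 + w 0 * hdot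
    · simp only [Fin.mk_one]
      linear_combination k1 + w 1 * hdot
    · simp only [Fin.reduceFinMk]
      linear_combination k2 + w 2 * hdot
  exact (mul_eq_zero.1 this).resolve_left hww

end Pool.Agent.MP_37c7bf_co_Dense

end ScrewPart

section IndepPart

/-!
# Independence of at most six bars forming a bipartite graph of maximum degree at most two
-/

open scoped Matrix
open MeasureTheory

namespace Pool.Agent.MP_37c7bf_co_Dense

variable {V : Type*} [DecidableEq V]

/-- The bars of `F` are independent at `p`: there are dual screws. -/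
def Indep (F : Finset (V × V)) (p : V → Pt) : Prop :=
  ∀ e ∈ F, ∃ m : Pt × Pt, bar m (p e.1) (p e.2) ≠ 0 ∧
    ∀ e' ∈ F, e' ≠ e → bar m (p e'.1) (p e'.2) = 0

omit [DecidableEq V] in
theorem Bip2.mono {F F' : Finset (V × V)} (h : Bip2 F) (hs : F' ⊆ F) : Bip2 F' where
  bip e he e' he' := h.bip e (hs he) e' (hs he')
  left a b₁ b₂ b₃ h1 h2 h3 := h.left a b₁ b₂ b₃ (hs h1) (hs h2) (hs h3)
  right b a₁ a₂ a₃ h1 h2 h3 := h.right b a₁ a₂ a₃ (hs h1) (hs h2) (hs h3)

/-- Exchange the two sides. -/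
def sw (F : Finset (V × V)) : Finset (V × V) := F.map (Equiv.prodComm V V).toEmbedding

omit [DecidableEq V] in
@[simp] theorem mem_sw {F : Finset (V × V)} {a b : V} : (a, b) ∈ sw F ↔ (b, a) ∈ F := by
  simp [sw]

omit [DecidableEq V] in
theorem sw_sw (F : Finset (V × V)) : sw (sw F) = F := by
  ext ⟨a, b⟩; simp

omit [DecidableEq V] in
theorem card_sw (F : Finset (V × V)) : (sw F).card = F.card := by simp [sw]

omit [DecidableEq V] in
theorem sw_ssubset {F F' : Finset (V × V)} (h : F' ⊂ sw F) : sw F' ⊂ F := by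
  rw [← sw_sw F]
  exact Finset.map_ssubset_map.2 h

omit [DecidableEq V] in
theorem Bip2.swap {F : Finset (V × V)} (h : Bip2 F) : Bip2 (sw F) where
  bip := by
    rintro ⟨a, b⟩ he ⟨a', b'⟩ he'
    rw [mem_sw] at he he'
    exact fun hab => h.bip _ he' _ he hab.symm
  left a b₁ b₂ b₃ h1 h2 h3 := by
    rw [mem_sw] at h1 h2 h3
    exact h.right a b₁ b₂ b₃ h1 h2 h3
  right b a₁ a₂ a₃ h1 h2 h3 := by
    rw [mem_sw] at h1 h2 h3
    exact h.left b a₁ a₂ a₃ h1 h2 h3

omit [DecidableEq V] in
theorem Indep.swap {F : Finset (V × V)} {p : V → Pt} (h : Indep (sw F) p) : Indep F p := by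
  rintro ⟨a, b⟩ he
  obtain ⟨m, hm, hm'⟩ := h (b, a) (mem_sw.2 he)
  refine ⟨m, ?_, ?_⟩
  · rw [bar_swap]
    exact neg_ne_zero.2 hm
  · rintro ⟨a', b'⟩ he' hne
    have := hm' (b', a') (mem_sw.2 he') (by
      intro h
      apply hne
      simp only [Prod.mk.injEq] at h ⊢
      exact ⟨h.2, h.1⟩)
    rw [bar_swap, this, neg_zero]

omit [DecidableEq V] in
theorem Indep.mono {F F' : Finset (V × V)} {p : V → Pt} (h : Indep F p) (hs : F' ⊆ F) :
    Indep F' p := by
  intro e he
  obtain ⟨m, hm, hm'⟩ := h e (hs he)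
  exact ⟨m, hm, fun e' he' => hm' e' (hs he')⟩

omit [DecidableEq V] in
theorem Indep.congr {F : Finset (V × V)} {p p' : V → Pt} (h : Indep F p)
    (hp : ∀ e ∈ F, p' e.1 = p e.1 ∧ p' e.2 = p e.2) : Indep F p' := by
  intro e he
  obtain ⟨m, hm, hm'⟩ := h e he
  refine ⟨m, ?_, ?_⟩
  · rwa [(hp e he).1, (hp e he).2]
  · intro e' he' hne
    rw [(hp e' he').1, (hp e' he').2]
    exact hm' e' he' hne

theorem Indep.insert {F : Finset (V × V)} {p : V → Pt} (h : Indep F p) {e : V × V} {m : Pt × Pt}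
    (hm : bar m (p e.1) (p e.2) ≠ 0) (hm' : ∀ e' ∈ F, bar m (p e'.1) (p e'.2) = 0) :
    Indep (insert e F) p := by
  intro e' he'
  by_cases hee : e' = e
  · subst hee
    refine ⟨m, hm, fun e'' he'' hne => ?_⟩
    exact hm' e'' ((Finset.mem_insert.1 he'').resolve_left hne)
  · have heF : e' ∈ F := (Finset.mem_insert.1 he').resolve_left hee
    obtain ⟨m', h1, h2⟩ := h e' heF
    refine ⟨m' - (bar m' (p e.1) (p e.2) / bar m (p e.1) (p e.2)) • m, ?_, ?_⟩
    · rw [bar_sub_smul, hm' e' heF]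
      simpa using h1
    · intro e'' he'' hne
      rw [bar_sub_smul]
      rcases Finset.mem_insert.1 he'' with rfl | hF
      · field_simp
        ring
      · rw [hm' e'' hF, h2 e'' hF hne]
        simp

theorem exists_indep_of_leaf {F : Finset (V × V)} (hF : Bip2 F) (hc : F.card ≤ 6)
    (ih : ∀ F' ⊂ F, ∃ p : V → Pt, Indep F' p) {a b : V} (hab : (a, b) ∈ F)
    (hleaf : ∀ b', (a, b') ∈ F → b' = b) : ∃ p : V → Pt, Indep F p := by
  have hne : a ≠ b := hF.bip _ hab _ hab
  obtain ⟨p, hp⟩ := ih (F.erase (a, b)) (Finset.erase_ssubset hab)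
  have hcard : (F.erase (a, b)).card < 6 := by
    rw [Finset.card_erase_of_mem hab]
    have : 0 < F.card := Finset.card_pos.2 ⟨_, hab⟩
    omega
  obtain ⟨m₂, hm₂, hm₂'⟩ := exists_ne_zero_of_card_lt (F.erase (a, b)) hcard
    (fun e => p e.1) (fun e => p e.2)
  -- endpoints of other edges
  have ha1 : ∀ e ∈ F.erase (a, b), e.1 ≠ a := by
    rintro ⟨a', b'⟩ he h
    simp only at h
    subst h
    have he' := Finset.mem_erase.1 he
    exact he'.1 (by rw [hleaf b' he'.2])
  have ha2 : ∀ e ∈ F.erase (a, b), e.2 ≠ a := fun e he h =>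
    hF.bip _ hab _ (Finset.mem_of_mem_erase he) h.symm
  have hb1 : ∀ e ∈ F.erase (a, b), e.1 ≠ b := fun e he h =>
    hF.bip _ (Finset.mem_of_mem_erase he) _ hab h
  by_cases hb : ∀ a', (a', b) ∈ F → a' = a
  · -- `b` is a leaf too
    have hb2 : ∀ e ∈ F.erase (a, b), e.2 ≠ b := by
      rintro ⟨a', b'⟩ he h
      simp only at h
      subst h
      have he' := Finset.mem_erase.1 he
      exact he'.1 (by rw [hb a' he'.2])
    obtain ⟨B, hB⟩ := exists_vel_ne hm₂
    refine ⟨Function.update (Function.update p b B) a (B + vel m₂ B), ?_⟩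
    set p' := Function.update (Function.update p b B) a (B + vel m₂ B) with hp'
    have hpe : ∀ e ∈ F.erase (a, b), p' e.1 = p e.1 ∧ p' e.2 = p e.2 := by
      intro e he
      rw [hp', Function.update_of_ne (ha1 e he), Function.update_of_ne (hb1 e he),
        Function.update_of_ne (ha2 e he), Function.update_of_ne (hb2 e he)]
      exact ⟨rfl, rfl⟩
    have hpa : p' a = B + vel m₂ B := by rw [hp', Function.update_self]
    have hpb : p' b = B := by
      rw [hp', Function.update_of_ne hne.symm, Function.update_self]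
    have := (hp.congr hpe).insert (e := (a, b)) (m := m₂) (by
      simp only [hpa, hpb, bar_add_dot]
      exact dot_self_ne hB) (by
      intro e' he'
      rw [(hpe e' he').1, (hpe e' he').2]
      exact hm₂' e' he')
    rwa [Finset.insert_erase hab] at this
  · -- `b` has another neighbour `c`
    push Not at hb
    obtain ⟨c, hcb, hca⟩ := hb
    have hcb' : (c, b) ∈ F.erase (a, b) := by
      refine Finset.mem_erase.2 ⟨?_, hcb⟩
      intro h
      exact hca (Prod.mk.inj h).1
    obtain ⟨m₁, hm₁, hm₁'⟩ := hp _ hcb'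
    simp only at hm₁
    have hcb_ne : c ≠ b := hF.bip _ hcb _ hab
    set F'' := (F.erase (a, b)).erase (c, b) with hF''
    have hsub : F'' ⊆ F.erase (a, b) := Finset.erase_subset _ _
    have hb2 : ∀ e ∈ F'', e.2 ≠ b := by
      rintro ⟨a', b'⟩ he h
      simp only at h
      subst h
      have he' := Finset.mem_erase.1 he
      have he'' := Finset.mem_erase.1 he'.2
      rcases hF.right b' a c a' hab hcb he''.2 with h | h | h
      · exact hca h.symm
      · subst h; exact he''.1 rfl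
      · subst h; exact he'.1 rfl
    have h2cb : bar m₂ (p c) (p b) = 0 := hm₂' _ hcb'
    obtain ⟨B₀, hB₀⟩ := exists_vel_cross_ne hm₁ h2cb hm₂
    -- choose `B`
    obtain ⟨B, hB1, hB2⟩ : ∃ B : Pt, bar m₁ (p c) B ≠ 0 ∧ vel m₁ B ⨯₃ vel m₂ B ≠ 0 := by
      obtain ⟨i, hi⟩ : ∃ i, (vel m₁ B₀ ⨯₃ vel m₂ B₀) i ≠ 0 := by
        by_contra hcon
        push Not at hcon
        exact hB₀ (funext hcon)
      have h1 : ∀ᵐ B : Pt, bar m₁ (p c) B ≠ 0 := by
        apply ae_ne_zero_of_analytic volume (f := fun B : Pt => bar m₁ (p c) B) (q := p b)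
        · intro x
          simp only [bar_eq]
          fun_prop
        · exact hm₁
      have h2 : ∀ᵐ B : Pt, (vel m₁ B ⨯₃ vel m₂ B) i ≠ 0 := by
        apply ae_ne_zero_of_analytic volume (f := fun B : Pt => (vel m₁ B ⨯₃ vel m₂ B) i)
          (q := B₀)
        · intro x
          fin_cases i <;>
          · simp only [cross_apply, vel_0, vel_1, vel_2, Fin.zero_eta, Fin.mk_one,
              Fin.reduceFinMk, Matrix.cons_val_zero, Matrix.cons_val_one, Matrix.cons_val]
            fun_prop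
        · exact hi
      obtain ⟨B, hB⟩ := (h1.and h2).exists
      refine ⟨B, hB.1, ?_⟩
      intro h
      apply hB.2
      rw [h]
      rfl
    set w : Pt := bar m₁ (p c) B • vel m₂ B - bar m₂ (p c) B • vel m₁ B with hw
    have hw0 : w ≠ 0 := by
      intro h
      have h3 : vel m₁ B ⨯₃ w = 0 := by rw [h, map_zero]
      rw [hw, map_sub, map_smul, map_smul, cross_self, smul_zero, sub_zero] at h3
      exact hB2 ((smul_eq_zero.1 h3).resolve_left hB1)
    refine ⟨Function.update (Function.update p b B) a (B + w), ?_⟩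
    set p' := Function.update (Function.update p b B) a (B + w) with hp'
    have hpe : ∀ e ∈ F'', p' e.1 = p e.1 ∧ p' e.2 = p e.2 := by
      intro e he
      rw [hp', Function.update_of_ne (ha1 e (hsub he)), Function.update_of_ne (hb1 e (hsub he)),
        Function.update_of_ne (ha2 e (hsub he)), Function.update_of_ne (hb2 e he)]
      exact ⟨rfl, rfl⟩
    have hpa : p' a = B + w := by rw [hp', Function.update_self]
    have hpb : p' b = B := by
      rw [hp', Function.update_of_ne hne.symm, Function.update_self]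
    have hpc : p' c = p c := by
      rw [hp', Function.update_of_ne hca, Function.update_of_ne hcb_ne]
    have hI1 := ((hp.mono hsub).congr hpe).insert (e := (c, b)) (m := m₁) (by
      simp only [hpc, hpb]
      exact hB1) (by
      intro e' he'
      rw [(hpe e' he').1, (hpe e' he').2]
      exact hm₁' e' (hsub he') (Finset.mem_erase.1 he').1)
    rw [hF'', Finset.insert_erase hcb'] at hI1
    have hI2 := hI1.insert (e := (a, b))
      (m := bar m₁ (p c) B • m₂ - bar m₂ (p c) B • m₁) (by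
      simp only [hpa, hpb]
      rw [bar_add_dot]
      have : vel (bar m₁ (p c) B • m₂ - bar m₂ (p c) B • m₁) B = w := by
        rw [hw]
        ext i
        fin_cases i <;>
        · simp [vel_0, vel_1, vel_2]
          ring
      rw [this]
      exact dot_self_ne hw0) (by
      intro e' he'
      by_cases h : e' = (c, b)
      · subst h
        simp only [hpc, hpb]
        rw [bar_smul_sub]
        ring
      · have he'' : e' ∈ F'' := Finset.mem_erase.2 ⟨h, he'⟩
        rw [(hpe e' he'').1, (hpe e' he'').2, bar_smul_sub, hm₂' e' he', hm₁' e' he' h]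
        ring)
    rwa [Finset.insert_erase hab] at hI2

end Pool.Agent.MP_37c7bf_co_Dense

end IndepPart

section CyclesPart

/-!
# The 4-cycle and the 6-cycle; existence of configurations with independent bars
-/

set_option linter.unusedSimpArgs false
set_option linter.unreachableTactic false
set_option linter.unusedTactic false

open scoped Matrix
open MeasureTheory

namespace Pool.Agent.MP_37c7bf_co_Dense

variable {V : Type*} [DecidableEq V]

theorem exists_indep_C4 {a₁ a₂ b₁ b₂ : V} (ha : a₁ ≠ a₂) (hb : b₁ ≠ b₂)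
    (h11 : a₁ ≠ b₁) (h12 : a₁ ≠ b₂) (h21 : a₂ ≠ b₁) (h22 : a₂ ≠ b₂) :
    ∃ p : V → Pt, Indep {(a₁, b₁), (a₁, b₂), (a₂, b₁), (a₂, b₂)} p := by
  refine ⟨fun v => if v = a₂ then ![1, 0, 0] else if v = b₁ then ![0, 1, 0] else
    if v = b₂ then ![0, 0, 1] else 0, ?_⟩
  intro e he
  simp only [Finset.mem_insert, Finset.mem_singleton] at he
  rcases he with rfl | rfl | rfl | rfl
  · refine ⟨(![0, 0, -1], ![0, 1, 0]), ?_, ?_⟩
    · simp [bar_eq, *, ha.symm, hb.symm, h11.symm, h12.symm, h21.symm, h22.symm]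
    · intro e' he' hne
      simp only [Finset.mem_insert, Finset.mem_singleton] at he'
      rcases he' with rfl | rfl | rfl | rfl <;> first | exact absurd rfl hne |
        simp [bar_eq, *, ha.symm, hb.symm, h11.symm, h12.symm, h21.symm, h22.symm]
  · refine ⟨(![0, 1, 0], ![0, 0, 1]), ?_, ?_⟩
    · simp [bar_eq, *, ha.symm, hb.symm, h11.symm, h12.symm, h21.symm, h22.symm]
    · intro e' he' hne
      simp only [Finset.mem_insert, Finset.mem_singleton] at he'
      rcases he' with rfl | rfl | rfl | rfl <;> first | exact absurd rfl hne |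
        simp [bar_eq, *, ha.symm, hb.symm, h11.symm, h12.symm, h21.symm, h22.symm]
  · refine ⟨(![0, 0, 1], ![0, 0, 0]), ?_, ?_⟩
    · simp [bar_eq, *, ha.symm, hb.symm, h11.symm, h12.symm, h21.symm, h22.symm]
    · intro e' he' hne
      simp only [Finset.mem_insert, Finset.mem_singleton] at he'
      rcases he' with rfl | rfl | rfl | rfl <;> first | exact absurd rfl hne |
        simp [bar_eq, *, ha.symm, hb.symm, h11.symm, h12.symm, h21.symm, h22.symm]
  · refine ⟨(![0, 1, 0], ![0, 0, 0]), ?_, ?_⟩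
    · simp [bar_eq, *, ha.symm, hb.symm, h11.symm, h12.symm, h21.symm, h22.symm]
    · intro e' he' hne
      simp only [Finset.mem_insert, Finset.mem_singleton] at he'
      rcases he' with rfl | rfl | rfl | rfl <;> first | exact absurd rfl hne |
        simp [bar_eq, *, ha.symm, hb.symm, h11.symm, h12.symm, h21.symm, h22.symm]

/-- Six points `±e_i`; `aᵢ` is joined to `bⱼ` for `i ≠ j`. -/
theorem exists_indep_C6 {a₁ a₂ a₃ b₁ b₂ b₃ : V} (ha12 : a₁ ≠ a₂) (ha13 : a₁ ≠ a₃) (ha23 : a₂ ≠ a₃)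
    (hb12 : b₁ ≠ b₂) (hb13 : b₁ ≠ b₃) (hb23 : b₂ ≠ b₃)
    (h11 : a₁ ≠ b₁) (h12 : a₁ ≠ b₂) (h13 : a₁ ≠ b₃) (h21 : a₂ ≠ b₁) (h22 : a₂ ≠ b₂)
    (h23 : a₂ ≠ b₃) (h31 : a₃ ≠ b₁) (h32 : a₃ ≠ b₂) (h33 : a₃ ≠ b₃) :
    ∃ p : V → Pt, Indep {(a₁, b₂), (a₂, b₁), (a₁, b₃), (a₃, b₁), (a₂, b₃), (a₃, b₂)} p := by
  refine ⟨fun v => if v = a₁ then ![-1, 0, 0] else if v = b₁ then ![1, 0, 0] else
    if v = a₂ then ![0, -1, 0] else if v = b₂ then ![0, 1, 0] else
    if v = a₃ then ![0, 0, -1] else if v = b₃ then ![0, 0, 1] else 0, ?_⟩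
  intro e he
  simp only [Finset.mem_insert, Finset.mem_singleton] at he
  rcases he with rfl | rfl | rfl | rfl | rfl | rfl
  · refine ⟨(![0, 0, 2], ![-1, -1, 1]), ?_, ?_⟩
    · simp [bar_eq, *, ha12.symm, ha13.symm, ha23.symm, hb12.symm, hb13.symm, hb23.symm, h11.symm,
        h12.symm, h13.symm, h21.symm, h22.symm, h23.symm, h31.symm, h32.symm, h33.symm]
      try norm_num
    · intro e' he' hne
      simp only [Finset.mem_insert, Finset.mem_singleton] at he'
      rcases he' with rfl | rfl | rfl | rfl | rfl | rfl <;> first | exact absurd rfl hne |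
        (simp [bar_eq, *, ha12.symm, ha13.symm, ha23.symm, hb12.symm, hb13.symm, hb23.symm,
          h11.symm, h12.symm, h13.symm, h21.symm, h22.symm, h23.symm, h31.symm, h32.symm, h33.symm]
         try norm_num)
  · refine ⟨(![0, 0, -2], ![-1, -1, 1]), ?_, ?_⟩
    · simp [bar_eq, *, ha12.symm, ha13.symm, ha23.symm, hb12.symm, hb13.symm, hb23.symm, h11.symm,
        h12.symm, h13.symm, h21.symm, h22.symm, h23.symm, h31.symm, h32.symm, h33.symm]
      try norm_num
    · intro e' he' hne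
      simp only [Finset.mem_insert, Finset.mem_singleton] at he'
      rcases he' with rfl | rfl | rfl | rfl | rfl | rfl <;> first | exact absurd rfl hne |
        (simp [bar_eq, *, ha12.symm, ha13.symm, ha23.symm, hb12.symm, hb13.symm, hb23.symm,
          h11.symm, h12.symm, h13.symm, h21.symm, h22.symm, h23.symm, h31.symm, h32.symm, h33.symm]
         try norm_num)
  · refine ⟨(![0, -2, 0], ![-1, 1, -1]), ?_, ?_⟩
    · simp [bar_eq, *, ha12.symm, ha13.symm, ha23.symm, hb12.symm, hb13.symm, hb23.symm, h11.symm,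
        h12.symm, h13.symm, h21.symm, h22.symm, h23.symm, h31.symm, h32.symm, h33.symm]
      try norm_num
    · intro e' he' hne
      simp only [Finset.mem_insert, Finset.mem_singleton] at he'
      rcases he' with rfl | rfl | rfl | rfl | rfl | rfl <;> first | exact absurd rfl hne |
        (simp [bar_eq, *, ha12.symm, ha13.symm, ha23.symm, hb12.symm, hb13.symm, hb23.symm,
          h11.symm, h12.symm, h13.symm, h21.symm, h22.symm, h23.symm, h31.symm, h32.symm, h33.symm]
         try norm_num)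
  · refine ⟨(![0, 2, 0], ![-1, 1, -1]), ?_, ?_⟩
    · simp [bar_eq, *, ha12.symm, ha13.symm, ha23.symm, hb12.symm, hb13.symm, hb23.symm, h11.symm,
        h12.symm, h13.symm, h21.symm, h22.symm, h23.symm, h31.symm, h32.symm, h33.symm]
      try norm_num
    · intro e' he' hne
      simp only [Finset.mem_insert, Finset.mem_singleton] at he'
      rcases he' with rfl | rfl | rfl | rfl | rfl | rfl <;> first | exact absurd rfl hne |
        (simp [bar_eq, *, ha12.symm, ha13.symm, ha23.symm, hb12.symm, hb13.symm, hb23.symm,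
          h11.symm, h12.symm, h13.symm, h21.symm, h22.symm, h23.symm, h31.symm, h32.symm, h33.symm]
         try norm_num)
  · refine ⟨(![2, 0, 0], ![1, -1, -1]), ?_, ?_⟩
    · simp [bar_eq, *, ha12.symm, ha13.symm, ha23.symm, hb12.symm, hb13.symm, hb23.symm, h11.symm,
        h12.symm, h13.symm, h21.symm, h22.symm, h23.symm, h31.symm, h32.symm, h33.symm]
      try norm_num
    · intro e' he' hne
      simp only [Finset.mem_insert, Finset.mem_singleton] at he'
      rcases he' with rfl | rfl | rfl | rfl | rfl | rfl <;> first | exact absurd rfl hne |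
        (simp [bar_eq, *, ha12.symm, ha13.symm, ha23.symm, hb12.symm, hb13.symm, hb23.symm,
          h11.symm, h12.symm, h13.symm, h21.symm, h22.symm, h23.symm, h31.symm, h32.symm, h33.symm]
         try norm_num)
  · refine ⟨(![-2, 0, 0], ![1, -1, -1]), ?_, ?_⟩
    · simp [bar_eq, *, ha12.symm, ha13.symm, ha23.symm, hb12.symm, hb13.symm, hb23.symm, h11.symm,
        h12.symm, h13.symm, h21.symm, h22.symm, h23.symm, h31.symm, h32.symm, h33.symm]
      try norm_num
    · intro e' he' hne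
      simp only [Finset.mem_insert, Finset.mem_singleton] at he'
      rcases he' with rfl | rfl | rfl | rfl | rfl | rfl <;> first | exact absurd rfl hne |
        (simp [bar_eq, *, ha12.symm, ha13.symm, ha23.symm, hb12.symm, hb13.symm, hb23.symm,
          h11.symm, h12.symm, h13.symm, h21.symm, h22.symm, h23.symm, h31.symm, h32.symm, h33.symm]
         try norm_num)

theorem exists_indep_of_noLeaf {F : Finset (V × V)} (hF : Bip2 F) (hc : F.card ≤ 6)
    (h1 : ∀ a b, (a, b) ∈ F → ∃ b', b' ≠ b ∧ (a, b') ∈ F)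
    (h2 : ∀ a b, (a, b) ∈ F → ∃ a', a' ≠ a ∧ (a', b) ∈ F) (hne : F.Nonempty) :
    ∃ p : V → Pt, Indep F p := by
  obtain ⟨⟨a₁, b₁⟩, e11⟩ := hne
  obtain ⟨a₂, ha12, e21⟩ := h2 _ _ e11
  obtain ⟨b₂, hb12, e22⟩ := h1 _ _ e21
  obtain ⟨b₃, hb13, e13⟩ := h1 _ _ e11
  have hbip : ∀ {a b a' b'}, (a, b) ∈ F → (a', b') ∈ F → a ≠ b' := fun h h' => hF.bip _ h _ h'
  by_cases hb23 : b₃ = b₂
  · -- 4-cycle
    subst hb23
    have hsub : ({(a₁, b₁), (a₁, b₃), (a₂, b₁), (a₂, b₃)} : Finset (V × V)) ⊆ F := by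
      intro e he
      simp only [Finset.mem_insert, Finset.mem_singleton] at he
      rcases he with rfl | rfl | rfl | rfl <;> assumption
    have hEq : ({(a₁, b₁), (a₁, b₃), (a₂, b₁), (a₂, b₃)} : Finset (V × V)) = F := by
      refine Finset.Subset.antisymm hsub ?_
      rintro ⟨a, b⟩ hab
      by_contra hnot
      simp only [Finset.mem_insert, Finset.mem_singleton, Prod.mk.injEq, not_or, not_and] at hnot
      obtain ⟨n1, n2, n3, n4⟩ := hnot
      have ha1 : a ≠ a₁ := by
        rintro rfl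
        rcases hF.left a b₁ b₃ b e11 e13 hab with h | h | h
        · exact hb12 h.symm
        · exact n1 rfl h.symm
        · exact n2 rfl h.symm
      have ha2 : a ≠ a₂ := by
        rintro rfl
        rcases hF.left a b₁ b₃ b e21 e22 hab with h | h | h
        · exact hb12 h.symm
        · exact n3 rfl h.symm
        · exact n4 rfl h.symm
      have hb1 : b ≠ b₁ := by
        rintro rfl
        rcases hF.right b a₁ a₂ a e11 e21 hab with h | h | h
        · exact ha12 h.symm
        · exact ha1 h.symm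
        · exact ha2 h.symm
      have hb3 : b ≠ b₃ := by
        rintro rfl
        rcases hF.right b a₁ a₂ a e13 e22 hab with h | h | h
        · exact ha12 h.symm
        · exact ha1 h.symm
        · exact ha2 h.symm
      obtain ⟨b', hb', eab'⟩ := h1 _ _ hab
      obtain ⟨a', ha', ea'b⟩ := h2 _ _ hab
      have hsub7 : ({(a₁, b₁), (a₁, b₃), (a₂, b₁), (a₂, b₃), (a, b), (a, b'), (a', b)} :
          Finset (V × V)) ⊆ F := by
        intro e he
        simp only [Finset.mem_insert, Finset.mem_singleton] at he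
        rcases he with rfl | rfl | rfl | rfl | rfl | rfl | rfl <;> assumption
      have hcard := Finset.card_le_card hsub7
      rw [Finset.card_insert_of_notMem, Finset.card_insert_of_notMem,
        Finset.card_insert_of_notMem, Finset.card_insert_of_notMem, Finset.card_insert_of_notMem,
        Finset.card_insert_of_notMem, Finset.card_singleton] at hcard
      · omega
      all_goals
        simp [ha12, ha12.symm, hb12, hb12.symm, ha1, ha2, hb1, hb3, hb', ha', ha1.symm, ha2.symm,
          hb1.symm, hb3.symm, hb'.symm, ha'.symm]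
    rw [← hEq]
    exact exists_indep_C4 ha12.symm hb12.symm (hbip e11 e11) (hbip e11 e22) (hbip e21 e11)
      (hbip e21 e22)
  · -- 6-cycle
    obtain ⟨a₃, ha32, e32⟩ := h2 _ _ e22
    have ha31 : a₃ ≠ a₁ := by
      rintro rfl
      rcases hF.left a₃ b₁ b₃ b₂ e11 e13 e32 with h | h | h
      · exact hb13 h.symm
      · exact hb12 h.symm
      · exact hb23 h
    obtain ⟨b₄, hb42, e34⟩ := h1 _ _ e32
    have hb41 : b₄ ≠ b₁ := by
      rintro rfl
      rcases hF.right b₄ a₁ a₂ a₃ e11 e21 e34 with h | h | h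
      · exact ha12 h.symm
      · exact ha31 h.symm
      · exact ha32 h.symm
    have hb43 : b₄ = b₃ := by
      by_contra hb43
      obtain ⟨a₄, ha41, e43⟩ := h2 _ _ e13
      have hsub7 : ({(a₁, b₁), (a₂, b₁), (a₂, b₂), (a₁, b₃), (a₃, b₂), (a₃, b₄), (a₄, b₃)} :
          Finset (V × V)) ⊆ F := by
        intro e he
        simp only [Finset.mem_insert, Finset.mem_singleton] at he
        rcases he with rfl | rfl | rfl | rfl | rfl | rfl | rfl <;> assumption
      have hcard := Finset.card_le_card hsub7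
      have hb32 : b₃ ≠ b₂ := hb23
      have hb43' : b₄ ≠ b₃ := hb43
      rw [Finset.card_insert_of_notMem, Finset.card_insert_of_notMem,
        Finset.card_insert_of_notMem, Finset.card_insert_of_notMem, Finset.card_insert_of_notMem,
        Finset.card_insert_of_notMem, Finset.card_singleton] at hcard
      · omega
      all_goals
        simp [ha12, ha12.symm, hb12, hb12.symm, ha31, ha31.symm, ha32, ha32.symm, hb41, hb41.symm,
          hb42, hb42.symm, hb13, hb13.symm, hb32, hb32.symm, hb43', hb43'.symm, ha41, ha41.symm]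
    subst hb43
    have hsub : ({(a₁, b₁), (a₃, b₂), (a₁, b₄), (a₂, b₂), (a₃, b₄), (a₂, b₁)} :
        Finset (V × V)) ⊆ F := by
      intro e he
      simp only [Finset.mem_insert, Finset.mem_singleton] at he
      rcases he with rfl | rfl | rfl | rfl | rfl | rfl <;> assumption
    have hEq : ({(a₁, b₁), (a₃, b₂), (a₁, b₄), (a₂, b₂), (a₃, b₄), (a₂, b₁)} :
        Finset (V × V)) = F := by
      apply Finset.eq_of_subset_of_card_le hsub
      rw [Finset.card_insert_of_notMem, Finset.card_insert_of_notMem,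
        Finset.card_insert_of_notMem, Finset.card_insert_of_notMem, Finset.card_insert_of_notMem,
        Finset.card_singleton]
      · exact hc
      all_goals
        simp [ha12, ha12.symm, hb12, hb12.symm, ha31, ha31.symm, ha32, ha32.symm, hb41, hb41.symm,
          hb42, hb42.symm]
    rw [← hEq]
    -- in `exists_indep_C6`: a₁ ↦ a₁, b₂ ↦ b₁, a₂ ↦ a₃, b₁ ↦ b₂, b₃ ↦ b₄, a₃ ↦ a₂
    exact exists_indep_C6 (a₁ := a₁) (a₂ := a₃) (a₃ := a₂) (b₁ := b₂) (b₂ := b₁) (b₃ := b₄)
      ha31.symm ha12.symm ha32 hb12 hb42.symm hb41.symm (hbip e11 e22) (hbip e11 e11)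
      (hbip e11 e34) (hbip e32 e32) (hbip e32 e11) (hbip e32 e34) (hbip e21 e22) (hbip e21 e11)
      (hbip e21 e34)

/-- At most six bars forming a bipartite graph of maximum degree at most two are independent at
some configuration. -/
theorem exists_indep {F : Finset (V × V)} (hF : Bip2 F) (hc : F.card ≤ 6) :
    ∃ p : V → Pt, Indep F p := by
  induction F using Finset.strongInduction with
  | H F ih =>
    have ih' : ∀ F' ⊂ F, ∃ p : V → Pt, Indep F' p := fun F' hF' =>
      ih F' hF' (hF.mono hF'.subset) ((Finset.card_le_card hF'.subset).trans hc)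
    by_cases hne : F.Nonempty
    · by_cases h1 : ∀ a b, (a, b) ∈ F → ∃ b', b' ≠ b ∧ (a, b') ∈ F
      · by_cases h2 : ∀ a b, (a, b) ∈ F → ∃ a', a' ≠ a ∧ (a', b) ∈ F
        · exact exists_indep_of_noLeaf hF hc h1 h2 hne
        · push Not at h2
          obtain ⟨a, b, hab, hleaf⟩ := h2
          obtain ⟨p, hp⟩ := exists_indep_of_leaf (F := sw F) hF.swap (by rwa [card_sw])
            (fun F' hF' => by
              obtain ⟨p, hp⟩ := ih' (sw F') (sw_ssubset hF')
              refine ⟨p, ?_⟩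
              rw [← sw_sw F'] at hF' ⊢
              apply Indep.swap
              rwa [sw_sw])
            (a := b) (b := a) (mem_sw.2 hab)
            (fun a' ha' => by
              by_contra hcon
              exact hleaf a' hcon (mem_sw.1 ha'))
          exact ⟨p, hp.swap⟩
      · push Not at h1
        obtain ⟨a, b, hab, hleaf⟩ := h1
        exact exists_indep_of_leaf hF hc ih' hab (fun b' hb' => by
          by_contra hcon
          exact hleaf b' hcon hb')
    · rw [Finset.not_nonempty_iff_eq_empty] at hne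
      subst hne
      exact ⟨0, fun e he => absurd he (Finset.notMem_empty e)⟩

end Pool.Agent.MP_37c7bf_co_Dense

end CyclesPart

section GenPosPart

/-!
# General position conditions, valid for almost all configurations
-/

set_option linter.unusedSimpArgs false

open scoped Matrix
open MeasureTheory

namespace Pool.Agent.MP_37c7bf_co_Dense

instance instHaar {V : Type*} [Fintype V] : (volume : Measure (V → Pt)).IsAddHaarMeasure :=
  Measure.pi.isAddHaarMeasure (fun _ : V => (volume : Measure Pt))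

/-- The triple product. -/
def tri (u v w : Pt) : ℝ := u ⬝ᵥ (v ⨯₃ w)

theorem tri_eq (u v w : Pt) : tri u v w = u 0 * (v 1 * w 2 - v 2 * w 1) +
    u 1 * (v 2 * w 0 - v 0 * w 2) + u 2 * (v 0 * w 1 - v 1 * w 0) := by
  simp [tri, dotProduct, cross_apply, Fin.sum_univ_three]

theorem tri_eq_det (u v w : Pt) : tri u v w = Matrix.det ![u, v, w] :=
  triple_product_eq_det u v w

/-- The ten monomials of degree at most two. -/
def mono (x : Pt) : Fin 10 → ℝ :=
  ![1, x 0, x 1, x 2, x 0 * x 0, x 1 * x 1, x 2 * x 2, x 0 * x 1, x 0 * x 2, x 1 * x 2]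

/-- Ten points not on a quadric. -/
def pt10 : Fin 10 → Pt :=
  ![![0, 0, 0], ![1, 0, 0], ![0, 1, 0], ![0, 0, 1], ![2, 0, 0], ![0, 2, 0], ![0, 0, 2],
    ![1, 1, 0], ![1, 0, 1], ![0, 1, 1]]

/-- The normal to the plane through `x, a, b`. -/
def nrm (x a b : Pt) : Pt := (b - x) ⨯₃ (a - x)

section
variable {V : Type*} [Fintype V] [DecidableEq V]

theorem ae_c1 (a b c d : V) (hab : a ≠ b) (hac : a ≠ c) (had : a ≠ d) (hbc : b ≠ c) (hbd : b ≠ d)
    (hcd : c ≠ d) : ∀ᵐ p : V → Pt, tri (p b - p a) (p c - p a) (p d - p a) ≠ 0 := by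
  apply ae_ne_zero_of_analytic (f := fun p : V → Pt => tri (p b - p a) (p c - p a) (p d - p a))
    volume (q := fun v => if v = b then ![1, 0, 0] else if v = c then ![0, 1, 0] else
      if v = d then ![0, 0, 1] else 0)
  · intro p
    simp only [tri_eq, Pi.sub_apply]
    fun_prop
  · simp [tri_eq, hab, hac, had, hbc.symm, hbd.symm, hcd.symm]

omit [Fintype V] in
theorem ae_mono_aux (f : Fin 10 → V) (hf : Function.Injective f) :
    (Matrix.of fun i j => mono (Function.extend f pt10 0 (f i)) j).det ≠ 0 := by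
  rw [← mulVec_inj_iff]
  intro v hv
  simp only [hf.extend_apply] at hv
  have h := fun i => congrFun hv i
  simp only [Matrix.mulVec, Matrix.of_apply, dotProduct, Fin.sum_univ_succ, mono, pt10,
    Pi.zero_apply] at h
  have h0 := h 0; have h1 := h 1; have h2 := h 2; have h3 := h 3; have h4 := h 4
  have h5 := h 5; have h6 := h 6; have h7 := h 7; have h8 := h 8; have h9 := h 9
  simp at h0 h1 h2 h3 h4 h5 h6 h7 h8 h9
  ext i
  fin_cases i <;> simp <;> linarith

theorem ae_c2 (f : Fin 10 → V) (hf : Function.Injective f) :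
    ∀ᵐ p : V → Pt, ∀ c : Fin 10 → ℝ, (∀ i, mono (p (f i)) ⬝ᵥ c = 0) → c = 0 := by
  have := ae_matrix_inj (volume : Measure (V → Pt))
    (fun p => Matrix.of fun i j => mono (p (f i)) j) (q := Function.extend f pt10 0)
    (by
      intro i j p
      fin_cases j <;>
      · simp [mono]
        fun_prop)
    (ae_mono_aux f hf)
  filter_upwards [this] with p hp c hc
  apply hp
  ext i
  exact hc i

theorem ae_c3 (x a₁ b₁ a₂ b₂ a₃ b₃ : V) (h : [x, a₁, b₁, a₂, b₂, a₃, b₃].Nodup) :
    ∀ᵐ p : V → Pt, tri (nrm (p x) (p a₁) (p b₁)) (nrm (p x) (p a₂) (p b₂))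
      (nrm (p x) (p a₃) (p b₃)) ≠ 0 := by
  simp only [List.nodup_cons, List.mem_cons, List.not_mem_nil, or_false, not_or] at h
  obtain ⟨⟨x1, x2, x3, x4, x5, x6⟩, ⟨y1, y2, y3, y4, y5⟩, ⟨z1, z2, z3, z4⟩, ⟨w1, w2, w3⟩,
    ⟨u1, u2⟩, u3, -⟩ := h
  apply ae_ne_zero_of_analytic (f := fun p : V → Pt => tri (nrm (p x) (p a₁) (p b₁))
    (nrm (p x) (p a₂) (p b₂)) (nrm (p x) (p a₃) (p b₃)))
    volume (q := fun v => if v = a₁ then ![1, 0, 0] else if v = b₁ then ![0, 1, 0] else
      if v = a₂ then ![0, 1, 0] else if v = b₂ then ![0, 0, 1] else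
      if v = a₃ then ![0, 0, 1] else if v = b₃ then ![1, 0, 0] else 0)
  · intro p
    simp only [tri_eq, nrm, Pi.sub_apply, cross_apply, Matrix.cons_val_zero, Matrix.cons_val_one,
      Matrix.cons_val]
    fun_prop
  · have s := @Ne.symm V
    simp [tri_eq, nrm, cross_apply, *, Ne.symm x1, Ne.symm x2, Ne.symm x3, Ne.symm x4, Ne.symm x5,
      Ne.symm x6, Ne.symm y1, Ne.symm y2, Ne.symm y3, Ne.symm y4, Ne.symm y5, Ne.symm z1,
      Ne.symm z2, Ne.symm z3, Ne.symm z4, Ne.symm w1, Ne.symm w2, Ne.symm w3, Ne.symm u1,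
      Ne.symm u2, Ne.symm u3]

/-- The screw with coordinates `v`. -/
def toScrew (v : Fin 6 → ℝ) : Pt × Pt := (![v 0, v 1, v 2], ![v 3, v 4, v 5])

/-- The coordinates of a screw. -/
def ofScrew (m : Pt × Pt) : Fin 6 → ℝ := ![m.1 0, m.1 1, m.1 2, m.2 0, m.2 1, m.2 2]

/-- The coefficients of the functional of a bar. -/
def coef (a b : Pt) : Fin 6 → ℝ :=
  ![b 1 * a 2 - b 2 * a 1, b 2 * a 0 - b 0 * a 2, b 0 * a 1 - b 1 * a 0,
    a 0 - b 0, a 1 - b 1, a 2 - b 2]

omit [Fintype V] [DecidableEq V] in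
theorem coef_dot (a b : Pt) (m : Pt × Pt) : coef a b ⬝ᵥ ofScrew m = bar m a b := by
  simp [coef, ofScrew, dotProduct, Fin.sum_univ_succ, bar_eq]
  ring

theorem ae_c6 (F : Finset (V × V)) (hF : Bip2 F) (hc : F.card = 6) :
    ∀ᵐ p : V → Pt, ∀ m : Pt × Pt, (∀ e ∈ F, bar m (p e.1) (p e.2) = 0) → m = 0 := by
  obtain ⟨q, hq⟩ := exists_indep hF hc.le
  let e : Fin 6 ≃ F := (Fintype.equivFinOfCardEq (by simpa using hc)).symm
  have hdet : (Matrix.of fun i j => coef (q (e i).1.1) (q (e i).1.2) j).det ≠ 0 := by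
    choose! m hm hm' using hq
    set M : Matrix (Fin 6) (Fin 6) ℝ := Matrix.of fun i j => coef (q (e i).1.1) (q (e i).1.2) j
      with hM
    set N : Matrix (Fin 6) (Fin 6) ℝ := Matrix.of fun i j => ofScrew (m (e j).1) i with hN
    have hprod : M * N = Matrix.diagonal fun i => bar (m (e i).1) (q (e i).1.1) (q (e i).1.2) := by
      ext i j
      have : (M * N) i j = bar (m (e j).1) (q (e i).1.1) (q (e i).1.2) := by
        rw [← coef_dot, Matrix.mul_apply]
        rfl
      rw [this]
      by_cases hij : i = j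
      · subst hij
        rw [Matrix.diagonal_apply_eq]
      · rw [Matrix.diagonal_apply_ne _ hij]
        apply hm' _ (e j).2 _ (e i).2
        intro h
        exact hij (e.injective (Subtype.ext h))
    intro h0
    have h1 : (M * N).det = 0 := by rw [Matrix.det_mul, h0, zero_mul]
    rw [hprod, Matrix.det_diagonal, Finset.prod_eq_zero_iff] at h1
    obtain ⟨i, -, hi⟩ := h1
    exact hm _ (e i).2 hi
  have := ae_matrix_inj (volume : Measure (V → Pt))
    (fun p => Matrix.of fun i j => coef (p (e i).1.1) (p (e i).1.2) j) (q := q)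
    (by
      intro i j p
      fin_cases j <;>
      · simp [coef]
        fun_prop) hdet
  filter_upwards [this] with p hp m hm
  have h0 := hp (ofScrew m) (by
    ext i
    have := hm _ (e i).2
    rw [← coef_dot] at this
    exact this)
  have h := fun i => congrFun h0 i
  have g0 := h 0; have g1 := h 1; have g2 := h 2; have g3 := h 3; have g4 := h 4; have g5 := h 5
  simp [ofScrew] at g0 g1 g2 g3 g4 g5
  refine Prod.ext ?_ ?_
  · ext i; fin_cases i <;> simpa
  · ext i; fin_cases i <;> simpa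

/-- General position. -/
structure Good (p : V → Pt) : Prop where
  c1 : ∀ a b c d : V, a ≠ b → a ≠ c → a ≠ d → b ≠ c → b ≠ d → c ≠ d →
    tri (p b - p a) (p c - p a) (p d - p a) ≠ 0
  c2 : ∀ f : Fin 10 → V, Function.Injective f → ∀ c : Fin 10 → ℝ,
    (∀ i, mono (p (f i)) ⬝ᵥ c = 0) → c = 0
  c3 : ∀ x a₁ b₁ a₂ b₂ a₃ b₃ : V, [x, a₁, b₁, a₂, b₂, a₃, b₃].Nodup →
    tri (nrm (p x) (p a₁) (p b₁)) (nrm (p x) (p a₂) (p b₂)) (nrm (p x) (p a₃) (p b₃)) ≠ 0
  c6 : ∀ F : Finset (V × V), Bip2 F → F.card = 6 → ∀ m : Pt × Pt,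
    (∀ e ∈ F, bar m (p e.1) (p e.2) = 0) → m = 0

theorem ae_good : ∀ᵐ p : V → Pt, Good p := by
  have h1 : ∀ᵐ p : V → Pt, ∀ a b c d : V, a ≠ b → a ≠ c → a ≠ d → b ≠ c → b ≠ d → c ≠ d →
    tri (p b - p a) (p c - p a) (p d - p a) ≠ 0 := by
    simp only [ae_all_iff, Filter.eventually_imp_distrib_left]
    exact ae_c1
  have h2 : ∀ᵐ p : V → Pt, ∀ f : Fin 10 → V, Function.Injective f → ∀ c : Fin 10 → ℝ,
    (∀ i, mono (p (f i)) ⬝ᵥ c = 0) → c = 0 := by
    rw [ae_all_iff]
    intro f
    rw [Filter.eventually_imp_distrib_left]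
    exact ae_c2 f
  have h3 : ∀ᵐ p : V → Pt, ∀ x a₁ b₁ a₂ b₂ a₃ b₃ : V, [x, a₁, b₁, a₂, b₂, a₃, b₃].Nodup →
    tri (nrm (p x) (p a₁) (p b₁)) (nrm (p x) (p a₂) (p b₂)) (nrm (p x) (p a₃) (p b₃)) ≠ 0 := by
    simp only [ae_all_iff, Filter.eventually_imp_distrib_left]
    exact ae_c3
  have h6 : ∀ᵐ p : V → Pt, ∀ F : Finset (V × V), Bip2 F → F.card = 6 → ∀ m : Pt × Pt,
    (∀ e ∈ F, bar m (p e.1) (p e.2) = 0) → m = 0 := by
    rw [ae_all_iff]
    intro F
    simp only [Filter.eventually_imp_distrib_left]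
    exact ae_c6 F
  filter_upwards [h1, h2, h3, h6] with p h1 h2 h3 h6
  exact ⟨h1, h2, h3, h6⟩

end

end Pool.Agent.MP_37c7bf_co_Dense

end GenPosPart

section RigPart

/-!
# Rigid sets of vertices of a framework in general position
-/

set_option linter.unusedSimpArgs false

open scoped Matrix

namespace Pool.Agent.MP_37c7bf_co_Dense

theorem eq_zero_of_cross2 {r u v w : Pt} (h : tri u v w ≠ 0) (hu : r ⨯₃ u = 0) (hv : r ⨯₃ v = 0) :
    r = 0 := by
  have a := fun i => congrFun hu i
  have b := fun i => congrFun hv i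
  have a0 := a 0; have a1 := a 1; have a2 := a 2
  have b0 := b 0; have b1 := b 1; have b2 := b 2
  simp [cross_apply] at a0 a1 a2 b0 b1 b2
  have key : ∀ i, tri u v w * r i = 0 := by
    intro i
    rw [tri_eq]
    fin_cases i
    · simp only [Fin.zero_eta]
      linear_combination u 0 * (w 0 * b0 + w 1 * b1 + w 2 * b2)
        - v 0 * (w 0 * a0 + w 1 * a1 + w 2 * a2) + w 0 * (v 0 * a0 + v 1 * a1 + v 2 * a2)
    · simp only [Fin.mk_one]
      linear_combination u 1 * (w 0 * b0 + w 1 * b1 + w 2 * b2)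
        - v 1 * (w 0 * a0 + w 1 * a1 + w 2 * a2) + w 1 * (v 0 * a0 + v 1 * a1 + v 2 * a2)
    · simp only [Fin.reduceFinMk]
      linear_combination u 2 * (w 0 * b0 + w 1 * b1 + w 2 * b2)
        - v 2 * (w 0 * a0 + w 1 * a1 + w 2 * a2) + w 2 * (v 0 * a0 + v 1 * a1 + v 2 * a2)
  ext i
  exact (mul_eq_zero.1 (key i)).resolve_left h

/-- Cramer's rule. -/
theorem cramer (u v w z : Pt) (i : Fin 3) : tri u v w * z i =
    (u ⬝ᵥ z) * (v ⨯₃ w) i + (v ⬝ᵥ z) * (w ⨯₃ u) i + (w ⬝ᵥ z) * (u ⨯₃ v) i := by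
  fin_cases i <;> simp [tri_eq, dot3, cross_apply] <;> ring

theorem eq_zero_of_dot3 {z u v w : Pt} (h : tri u v w ≠ 0) (hu : u ⬝ᵥ z = 0) (hv : v ⬝ᵥ z = 0)
    (hw : w ⬝ᵥ z = 0) : z = 0 := by
  ext i
  have := cramer u v w z i
  rw [hu, hv, hw] at this
  have h2 : tri u v w * z i = 0 := by rw [this]; ring
  exact (mul_eq_zero.1 h2).resolve_left h

theorem vel_sub (m : Pt × Pt) (a b : Pt) : vel m a - vel m b = m.1 ⨯₃ (a - b) := by
  simp [vel, map_sub]

theorem vel_sub_screw (m m' : Pt × Pt) (a : Pt) : vel (m - m') a = vel m a - vel m' a := by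
  simp only [vel, Prod.fst_sub, Prod.snd_sub, map_sub, LinearMap.sub_apply]; abel

theorem dot_vel_sub (m : Pt × Pt) (a b : Pt) : (a - b) ⬝ᵥ (vel m a - vel m b) = 0 := by
  rw [vel_sub, dot_cross_self]

section
variable {V : Type*}

theorem Good.screw_eq_zero [Fintype V] [DecidableEq V] {p : V → Pt} (hp : Good p)
    (hV : 4 ≤ Fintype.card V)
    {a b c : V} (hab : a ≠ b) (hac : a ≠ c) (hbc : b ≠ c) {m : Pt × Pt}
    (ha : vel m (p a) = 0) (hb : vel m (p b) = 0) (hc : vel m (p c) = 0) : m = 0 := by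
  obtain ⟨d, hd⟩ : ∃ d, d ∉ ({a, b, c} : Finset V) := by
    by_contra hcon
    push Not at hcon
    have : Fintype.card V ≤ ({a, b, c} : Finset V).card := by
      rw [← Finset.card_univ]
      exact Finset.card_le_card fun x _ => hcon x
    have h3 := Finset.card_le_three (a := a) (b := b) (c := c)
    omega
  simp only [Finset.mem_insert, Finset.mem_singleton, not_or] at hd
  have htri := hp.c1 a b c d hab hac (Ne.symm hd.1) hbc (Ne.symm hd.2.1) (Ne.symm hd.2.2)
  have hr : m.1 = 0 := by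
    apply eq_zero_of_cross2 htri
    · rw [← vel_sub, ha, hb, sub_zero]
    · rw [← vel_sub, ha, hc, sub_zero]
  refine Prod.ext hr ?_
  rw [vel, hr] at ha
  simpa using ha

/-- A vertex joined to three vertices moving as `m` also moves as `m`. -/
theorem Good.vel_of_three [Fintype V] [DecidableEq V] {p : V → Pt} (hp : Good p) {u : V → Pt}
    {m : Pt × Pt} {v a b c : V} (hva : v ≠ a) (hvb : v ≠ b) (hvc : v ≠ c) (hab : a ≠ b)
    (hac : a ≠ c) (hbc : b ≠ c) (ha : u a = vel m (p a)) (hb : u b = vel m (p b))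
    (hc : u c = vel m (p c)) (ea : (p v - p a) ⬝ᵥ (u v - u a) = 0)
    (eb : (p v - p b) ⬝ᵥ (u v - u b) = 0) (ec : (p v - p c) ⬝ᵥ (u v - u c) = 0) :
    u v = vel m (p v) := by
  have htri := hp.c1 v a b c hva hvb hvc hab hac hbc
  have aux : ∀ s, u s = vel m (p s) → (p v - p s) ⬝ᵥ (u v - u s) = 0 →
      (p s - p v) ⬝ᵥ (u v - vel m (p v)) = 0 := by
    intro s hs es
    have h1 := dot_vel_sub m (p v) (p s)
    rw [hs] at es
    rw [dotProduct_sub] at h1 es ⊢
    rw [sub_dotProduct] at h1 es ⊢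
    rw [sub_dotProduct] at h1 es ⊢
    linarith
  have := eq_zero_of_dot3 htri (aux a ha ea) (aux b hb eb) (aux c hc ec)
  exact sub_eq_zero.1 this

/-- All the vertices of `S` move as one rigid body under every infinitesimal motion of the
subframework induced on `S`. -/
def Rig (G : SimpleGraph V) (p : V → Pt) (S : Finset V) : Prop :=
  ∀ u : V → Pt, (∀ v ∈ S, ∀ w ∈ S, G.Adj v w → (p v - p w) ⬝ᵥ (u v - u w) = 0) →
    ∃ m : Pt × Pt, ∀ v ∈ S, u v = vel m (p v)

variable [Fintype V] [DecidableEq V] {G : SimpleGraph V} {p : V → Pt}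

theorem Rig.union (hp : Good p) (hV : 4 ≤ Fintype.card V) {S T : Finset V} (hS : Rig G p S)
    (hT : Rig G p T) (hST : 3 ≤ (S ∩ T).card) : Rig G p (S ∪ T) := by
  intro u hu
  obtain ⟨m, hm⟩ := hS u fun v hv w hw =>
    hu v (Finset.mem_union_left _ hv) w (Finset.mem_union_left _ hw)
  obtain ⟨m', hm'⟩ := hT u fun v hv w hw =>
    hu v (Finset.mem_union_right _ hv) w (Finset.mem_union_right _ hw)
  obtain ⟨X, hX, hX3⟩ := Finset.exists_subset_card_eq hST
  obtain ⟨a, b, c, hab, hac, hbc, rfl⟩ := Finset.card_eq_three.1 hX3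
  have haS := Finset.mem_inter.1 (hX (by simp : a ∈ ({a, b, c} : Finset V)))
  have hbS := Finset.mem_inter.1 (hX (by simp : b ∈ ({a, b, c} : Finset V)))
  have hcS := Finset.mem_inter.1 (hX (by simp : c ∈ ({a, b, c} : Finset V)))
  have h0 : m - m' = 0 := by
    apply hp.screw_eq_zero hV hab hac hbc
    · rw [vel_sub_screw, ← hm a haS.1, ← hm' a haS.2, sub_self]
    · rw [vel_sub_screw, ← hm b hbS.1, ← hm' b hbS.2, sub_self]
    · rw [vel_sub_screw, ← hm c hcS.1, ← hm' c hcS.2, sub_self]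
  have h1 : m = m' := sub_eq_zero.1 h0
  subst h1
  refine ⟨m, fun v hv => ?_⟩
  rcases Finset.mem_union.1 hv with h | h
  · exact hm v h
  · exact hm' v h

theorem Rig.insert [DecidableRel G.Adj] (hp : Good p) {S : Finset V} (hS : Rig G p S) {v : V}
    (hv : v ∉ S) (h3 : 3 ≤ (S.filter fun w => G.Adj v w).card) : Rig G p (insert v S) := by
  intro u hu
  obtain ⟨m, hm⟩ := hS u fun a ha b hb =>
    hu a (Finset.mem_insert_of_mem ha) b (Finset.mem_insert_of_mem hb)
  obtain ⟨X, hX, hX3⟩ := Finset.exists_subset_card_eq h3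
  obtain ⟨a, b, c, hab, hac, hbc, rfl⟩ := Finset.card_eq_three.1 hX3
  have haS := Finset.mem_filter.1 (hX (by simp : a ∈ ({a, b, c} : Finset V)))
  have hbS := Finset.mem_filter.1 (hX (by simp : b ∈ ({a, b, c} : Finset V)))
  have hcS := Finset.mem_filter.1 (hX (by simp : c ∈ ({a, b, c} : Finset V)))
  refine ⟨m, fun w hw => ?_⟩
  rcases Finset.mem_insert.1 hw with rfl | hw
  · refine hp.vel_of_three haS.2.ne hbS.2.ne hcS.2.ne hab hac hbc (hm a haS.1) (hm b hbS.1)
      (hm c hcS.1) ?_ ?_ ?_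
    · exact hu _ (Finset.mem_insert_self _ _) _ (Finset.mem_insert_of_mem haS.1) haS.2
    · exact hu _ (Finset.mem_insert_self _ _) _ (Finset.mem_insert_of_mem hbS.1) hbS.2
    · exact hu _ (Finset.mem_insert_self _ _) _ (Finset.mem_insert_of_mem hcS.1) hcS.2
  · exact hm w hw

theorem quad_skew (hp : Good p) {f : Fin 10 → V} (hf : Function.Injective f)
    (L : Matrix (Fin 3) (Fin 3) ℝ) (s w : Pt)
    (H : ∀ i, (p (f i) - w) ⬝ᵥ (L.mulVec (p (f i)) + s) = 0) :
    L 0 0 = 0 ∧ L 1 1 = 0 ∧ L 2 2 = 0 ∧ L 0 1 + L 1 0 = 0 ∧ L 0 2 + L 2 0 = 0 ∧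
      L 1 2 + L 2 1 = 0 := by
  have h := hp.c2 f hf
    ![-(w 0 * s 0 + w 1 * s 1 + w 2 * s 2), s 0 - (w 0 * L 0 0 + w 1 * L 1 0 + w 2 * L 2 0),
      s 1 - (w 0 * L 0 1 + w 1 * L 1 1 + w 2 * L 2 1),
      s 2 - (w 0 * L 0 2 + w 1 * L 1 2 + w 2 * L 2 2), L 0 0, L 1 1, L 2 2, L 0 1 + L 1 0,
      L 0 2 + L 2 0, L 1 2 + L 2 1] (by
    intro i
    rw [← H i]
    simp [mono, dotProduct, Fin.sum_univ_succ, Matrix.mulVec]
    ring)
  have h' := fun i => congrFun h i
  refine ⟨h' 4, h' 5, h' 6, h' 7, h' 8, h' 9⟩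

/-- Complete bipartite graphs `K_{10,4}` are rigid. -/
theorem rig_K104 (hp : Good p) {f : Fin 10 → V} (hf : Function.Injective f)
    {g : Fin 4 → V} (hg : Function.Injective g) (hadj : ∀ i j, G.Adj (f i) (g j)) :
    Rig G p (Finset.univ.image f ∪ Finset.univ.image g) := by
  intro u hu
  have hfS : ∀ i, f i ∈ Finset.univ.image f ∪ Finset.univ.image g := fun i =>
    Finset.mem_union_left _ (Finset.mem_image_of_mem _ (Finset.mem_univ _))
  have hgS : ∀ i, g i ∈ Finset.univ.image f ∪ Finset.univ.image g := fun i =>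
    Finset.mem_union_right _ (Finset.mem_image_of_mem _ (Finset.mem_univ _))
  have E : ∀ i j, (p (f i) - p (g j)) ⬝ᵥ (u (f i) - u (g j)) = 0 := fun i j =>
    hu _ (hfS i) _ (hgS j) (hadj i j)
  have hne : ∀ i j, i ≠ j → g i ≠ g j := fun i j hij h => hij (hg h)
  have hD := hp.c1 (g 0) (g 1) (g 2) (g 3) (hne 0 1 (by decide)) (hne 0 2 (by decide))
    (hne 0 3 (by decide)) (hne 1 2 (by decide)) (hne 1 3 (by decide)) (hne 2 3 (by decide))
  set D := tri (p (g 1) - p (g 0)) (p (g 2) - p (g 0)) (p (g 3) - p (g 0)) with hDdef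
  set d1 := p (g 1) - p (g 0) with hd1
  set d2 := p (g 2) - p (g 0) with hd2
  set d3 := p (g 3) - p (g 0) with hd3
  -- right-hand sides
  let β : Fin 4 → ℝ := fun k => p (g k) ⬝ᵥ u (g k) - p (g 0) ⬝ᵥ u (g 0)
  have hdot : ∀ i k, (p (g k) - p (g 0)) ⬝ᵥ u (f i) =
      (u (g 0) - u (g k)) ⬝ᵥ p (f i) + β k := by
    intro i k
    have e1 := E i k
    have e0 := E i 0
    simp only [β, dot3, Pi.sub_apply] at e1 e0 ⊢
    linarith
  -- the affine map
  let L : Matrix (Fin 3) (Fin 3) ℝ := Matrix.of fun a b =>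
    ((u (g 0) - u (g 1)) b * (d2 ⨯₃ d3) a + (u (g 0) - u (g 2)) b * (d3 ⨯₃ d1) a +
      (u (g 0) - u (g 3)) b * (d1 ⨯₃ d2) a)
  let t : Pt := fun a => β 1 * (d2 ⨯₃ d3) a + β 2 * (d3 ⨯₃ d1) a + β 3 * (d1 ⨯₃ d2) a
  have hz : ∀ i a, D * u (f i) a = L.mulVec (p (f i)) a + t a := by
    intro i a
    rw [hDdef, cramer, hdot i 1, hdot i 2, hdot i 3]
    simp only [L, t, Matrix.mulVec, dot3, Matrix.of_apply]
    ring
  have hq := quad_skew hp hf L (t - D • u (g 0)) (p (g 0)) (by
    intro i
    have h0 := E i 0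
    have : (L.mulVec (p (f i)) + (t - D • u (g 0))) = D • (u (f i) - u (g 0)) := by
      ext a
      have := hz i a
      simp only [Pi.add_apply, Pi.sub_apply, Pi.smul_apply, smul_eq_mul]
      linarith
    rw [this, dotProduct_smul, h0, smul_zero])
  obtain ⟨l00, l11, l22, l01, l02, l12⟩ := hq
  set m : Pt × Pt := (![L 2 1 / D, L 0 2 / D, L 1 0 / D], ![t 0 / D, t 1 / D, t 2 / D]) with hm
  have hfm : ∀ i, u (f i) = vel m (p (f i)) := by
    intro i
    ext a
    have hz' := hz i a
    have : D * u (f i) a = D * vel m (p (f i)) a := by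
      rw [hz']
      fin_cases a
      · simp only [Fin.zero_eta, vel_0, Matrix.mulVec, dot3, hm, Matrix.cons_val_zero,
          Matrix.cons_val_one, Matrix.cons_val]
        field_simp
        linear_combination p (f i) 0 * l00 + p (f i) 1 * l01
      · simp only [Fin.mk_one, vel_1, Matrix.mulVec, dot3, hm, Matrix.cons_val_zero,
          Matrix.cons_val_one, Matrix.cons_val]
        field_simp
        linear_combination p (f i) 1 * l11 + p (f i) 2 * l12
      · simp only [Fin.reduceFinMk, vel_2, Matrix.mulVec, dot3, hm, Matrix.cons_val_zero,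
          Matrix.cons_val_one, Matrix.cons_val]
        field_simp
        linear_combination p (f i) 2 * l22 + p (f i) 0 * l02
    exact mul_left_cancel₀ hD this
  refine ⟨m, fun v hv => ?_⟩
  rcases Finset.mem_union.1 hv with h | h
  · obtain ⟨i, -, rfl⟩ := Finset.mem_image.1 h
    exact hfm i
  · obtain ⟨j, -, rfl⟩ := Finset.mem_image.1 h
    have hnf : ∀ i j, i ≠ j → f i ≠ f j := fun i j hij h => hij (hf h)
    have e : ∀ i, (p (g j) - p (f i)) ⬝ᵥ (u (g j) - u (f i)) = 0 := fun i =>
      hu _ (hgS j) _ (hfS i) (hadj i j).symm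
    exact hp.vel_of_three (hadj 0 j).ne' (hadj 1 j).ne' (hadj 2 j).ne' (hnf 0 1 (by decide))
      (hnf 0 2 (by decide)) (hnf 1 2 (by decide)) (hfm 0) (hfm 1) (hfm 2) (e 0) (e 1) (e 2)

end

end Pool.Agent.MP_37c7bf_co_Dense

end RigPart
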