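import Pool.Agent.Lib.MP_37c7bf_co_Dense.Main

/-!
# Sharpness of the constant `1/3`

Three cliques, pairwise sharing one vertex, and two extra edges: minimum degree at least `n / 3`,
mixed connected, but generically flexible.
-/

set_option linter.unusedSimpArgs false

open scoped Matrix

namespace Pool.Agent.MP_37c7bf_co_Dense

/-- Vertices: three pins `Sum.inl i` and the inner vertices `Sum.inr (i, s)` of three bodies. -/
abbrev SV (m : ℕ) : Type := Fin 3 ⊕ (Fin 3 × Fin (m + 7))

variable {m : ℕ}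

/-- The `i`-th body: the two pins different from `i` and the inner vertices `(i, s)`. -/
def body (i : Fin 3) : Finset (SV m) :=
  (Finset.univ.filter fun j : Fin 3 => j ≠ i).disjSum
    (Finset.univ.filter fun q : Fin 3 × Fin (m + 7) => q.1 = i)

/-- The two extra edges. -/
def extra (v w : SV m) : Prop :=
  (v = Sum.inr (0, 0) ∧ w = Sum.inr (1, 0)) ∨ (v = Sum.inr (1, 1) ∧ w = Sum.inr (2, 0))

instance : DecidableRel (extra (m := m)) := fun v w => by unfold extra; infer_instance

/-- The example. -/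
def sharpGraph (m : ℕ) : SimpleGraph (SV m) where
  Adj v w := v ≠ w ∧ ((∃ i, v ∈ body i ∧ w ∈ body i) ∨ extra v w ∨ extra w v)
  symm := ⟨fun _ _ h => ⟨h.1.symm, h.2.imp (fun ⟨i, h1, h2⟩ => ⟨i, h2, h1⟩) Or.symm⟩⟩
  loopless := ⟨fun _ h => h.1 rfl⟩

instance : DecidableRel (sharpGraph m).Adj := fun v w => by
  unfold sharpGraph; infer_instance

@[simp] theorem mem_body_inl {i j : Fin 3} : (Sum.inl j : SV m) ∈ body i ↔ j ≠ i := by
  simp [body]

@[simp] theorem mem_body_inr {i : Fin 3} {q : Fin 3 × Fin (m + 7)} :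
    (Sum.inr q : SV m) ∈ body i ↔ q.1 = i := by
  simp [body]

theorem exists_body (v : SV m) : ∃ i, v ∈ body i := by
  rcases v with j | q
  · refine ⟨j + 1, ?_⟩
    rw [mem_body_inl]
    fin_cases j <;> decide
  · exact ⟨q.1, by simp⟩

theorem card_body (i : Fin 3) : m + 9 ≤ (body (m := m) i).card := by
  rw [body, Finset.card_disjSum]
  have h1 : ∀ i : Fin 3, (Finset.univ.filter fun j : Fin 3 => j ≠ i).card = 2 := by decide
  have h2 : (Finset.univ.filter fun q : Fin 3 × Fin (m + 7) => q.1 = i).card = m + 7 := by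
    have : (Finset.univ.filter fun q : Fin 3 × Fin (m + 7) => q.1 = i) =
        ({i} : Finset (Fin 3)) ×ˢ (Finset.univ : Finset (Fin (m + 7))) := by
      ext ⟨a, b⟩; simp [eq_comm]
    rw [this, Finset.card_product]
    simp
  rw [h1, h2]
  omega

theorem minDegree_sharp : m + 8 ≤ (sharpGraph m).minDegree := by
  apply SimpleGraph.le_minDegree_of_forall_le_degree
  intro v
  obtain ⟨i, hi⟩ := exists_body v
  rw [← SimpleGraph.card_neighborFinset_eq_degree]
  have h1 := card_body (m := m) i
  have h2 := Finset.card_erase_of_mem hi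
  have h3 : (body i).erase v ⊆ (sharpGraph m).neighborFinset v := by
    intro w hw
    rw [SimpleGraph.mem_neighborFinset]
    exact ⟨(Finset.ne_of_mem_erase hw).symm, Or.inl ⟨i, hi, Finset.mem_of_mem_erase hw⟩⟩
  have := Finset.card_le_card h3
  omega

theorem card_SV : Fintype.card (SV m) = 3 * (m + 8) := by
  simp [SV]; ring

/-- A body with a vertex on each side contributes many edges to the cut. -/
theorem cut_of_split {X S : Finset (SV m)} (hX : X.card ≤ 2) {i : Fin 3} {a b : SV m}
    (ha : a ∈ body i) (haS : a ∈ S) (hb : b ∈ body i) (hbT : b ∈ (S ∪ X)ᶜ) :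
    6 ≤ ((S ×ˢ (S ∪ X)ᶜ).filter fun e => (sharpGraph m).Adj e.1 e.2).card := by
  -- map each other vertex of the body outside `X` to a cut edge
  have haT : a ∉ (S ∪ X)ᶜ := fun h => Finset.mem_compl.1 h (Finset.mem_union_left _ haS)
  have hab : a ≠ b := fun h => haT (h ▸ hbT)
  have hbS : b ∉ S := fun h => Finset.mem_compl.1 hbT (Finset.mem_union_left _ h)
  let D : Finset (SV m) := (body i \ X).erase a
  have hD : m + 6 ≤ D.card := by
    have h1 := card_body (m := m) i
    have h2 : (body i).card ≤ (body i \ X).card + X.card := Finset.card_le_card_sdiff_add_card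
    have h3 : (body i \ X).card - 1 ≤ D.card := Finset.pred_card_le_card_erase
    omega
  have hle : D.card ≤ ((S ×ˢ (S ∪ X)ᶜ).filter fun e => (sharpGraph m).Adj e.1 e.2).card := by
    apply Finset.card_le_card_of_injOn (fun v => if v ∈ S then (v, b) else (a, v))
    · intro v hv
      have hv' := Finset.mem_erase.1 hv
      have hv'' := Finset.mem_sdiff.1 hv'.2
      simp only
      split_ifs with hvS
      · refine Finset.mem_coe.2 (Finset.mem_filter.2 ⟨Finset.mem_product.2 ⟨hvS, hbT⟩, ?_, ?_⟩)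
        · intro h
          simp only at h
          exact hbS (h ▸ hvS)
        · exact Or.inl ⟨i, hv''.1, hb⟩
      · refine Finset.mem_coe.2 (Finset.mem_filter.2 ⟨Finset.mem_product.2 ⟨haS, ?_⟩, ?_, ?_⟩)
        · rw [Finset.mem_compl, Finset.mem_union, not_or]
          exact ⟨hvS, hv''.2⟩
        · exact hv'.1.symm
        · exact Or.inl ⟨i, ha, hv''.1⟩
    · intro v hv w hw hvw
      simp only at hvw
      have hva := (Finset.mem_erase.1 hv).1
      have hwa := (Finset.mem_erase.1 hw).1
      split_ifs at hvw with h1 h2 h2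
      · exact (Prod.mk.inj hvw).1
      · exact absurd (Prod.mk.inj hvw).1 hva
      · exact absurd (Prod.mk.inj hvw).1.symm hwa
      · exact (Prod.mk.inj hvw).2
  omega

theorem mixedConnected_sharp : MixedConnected (sharpGraph m) := by
  intro X S hX hS hd hT
  obtain ⟨s, hs⟩ := hS
  obtain ⟨t, ht⟩ := hT
  have hle6 : (4 - X.card).choose 2 ≤ 6 :=
    calc (4 - X.card).choose 2 ≤ (4 : ℕ).choose 2 := Nat.choose_le_choose 2 (by omega)
      _ = 6 := rfl
  by_cases hsplit : ∃ i : Fin 3, (∃ a ∈ body i, a ∈ S) ∧ ∃ b ∈ body i, b ∈ (S ∪ X)ᶜ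
  · obtain ⟨i, ⟨a, ha, haS⟩, b, hb, hbT⟩ := hsplit
    exact hle6.trans (cut_of_split hX ha haS hb hbT)
  · push Not at hsplit
    -- each body (minus `X`) lies on one side
    have hside : ∀ i : Fin 3, (∀ v ∈ body i, v ∈ S ∨ v ∈ X) ∨
        (∀ v ∈ body i, v ∈ (S ∪ X)ᶜ ∨ v ∈ X) := by
      intro i
      by_cases h : ∃ a ∈ body i, a ∈ S
      · left
        intro v hv
        have := hsplit i h v hv
        rw [Finset.mem_compl, not_not, Finset.mem_union] at this
        exact this
      · right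
        push Not at h
        intro v hv
        by_cases hvX : v ∈ X
        · exact Or.inr hvX
        · left
          rw [Finset.mem_compl, Finset.mem_union, not_or]
          exact ⟨h v hv, hvX⟩
    have hdisj : ∀ v, v ∈ S → v ∈ (S ∪ X)ᶜ → False := fun v h1 h2 =>
      Finset.mem_compl.1 h2 (Finset.mem_union_left _ h1)
    -- pins shared by bodies on opposite sides are in `X`
    have hpin : ∀ i j k : Fin 3, k ≠ i → k ≠ j → (∀ v ∈ body (m := m) i, v ∈ S ∨ v ∈ X) →
        (∀ v ∈ body (m := m) j, v ∈ (S ∪ X)ᶜ ∨ v ∈ X) → (Sum.inl k : SV m) ∈ X := by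
      intro i j k hki hkj h1 h2
      rcases h1 (Sum.inl k) (by simpa using hki) with h | h
      · rcases h2 (Sum.inl k) (by simpa using hkj) with h' | h'
        · exact (hdisj _ h h').elim
        · exact h'
      · exact h
    -- if two pins are in `X`, then `X` consists of them
    have hXeq : ∀ j k : Fin 3, j ≠ k → (Sum.inl j : SV m) ∈ X → (Sum.inl k : SV m) ∈ X →
        X.card = 2 ∧ ∀ q, (Sum.inr q : SV m) ∉ X := by
      intro j k hjk h1 h2
      have hsub : ({Sum.inl j, Sum.inl k} : Finset (SV m)) ⊆ X := by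
        intro v hv
        simp only [Finset.mem_insert, Finset.mem_singleton] at hv
        rcases hv with rfl | rfl <;> assumption
      have h2' : ({Sum.inl j, Sum.inl k} : Finset (SV m)).card = 2 :=
        Finset.card_pair (fun h => hjk (Sum.inl_injective h))
      have heq := Finset.eq_of_subset_of_card_le hsub (by omega)
      refine ⟨by rw [← heq]; exact h2', ?_⟩
      intro q hq
      rw [← heq] at hq
      simp at hq
    -- an extra edge across the cut
    have hedge : ∀ v w : SV m, (extra v w ∨ extra w v) → X.card = 2 → v ≠ w → v ∈ S →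
        w ∈ (S ∪ X)ᶜ → (4 - X.card).choose 2 ≤
          ((S ×ˢ (S ∪ X)ᶜ).filter fun e => (sharpGraph m).Adj e.1 e.2).card := by
      intro v w hvw hX2 hne hv hw
      rw [hX2]
      have : (4 - 2).choose 2 = 1 := rfl
      rw [this]
      exact Finset.card_pos.2 ⟨(v, w), Finset.mem_filter.2 ⟨Finset.mem_product.2 ⟨hv, hw⟩,
        hne, Or.inr hvw⟩⟩
    have e1 : extra (Sum.inr (0, 0) : SV m) (Sum.inr (1, 0)) := Or.inl ⟨rfl, rfl⟩
    have e2 : extra (Sum.inr (1, 1) : SV m) (Sum.inr (2, 0)) := Or.inr ⟨rfl, rfl⟩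
    have n1 : (Sum.inr (0, 0) : SV m) ≠ Sum.inr (1, 0) := by simp
    have n2 : (Sum.inr (1, 1) : SV m) ≠ Sum.inr (2, 0) := by simp
    have m00 : (Sum.inr (0, 0) : SV m) ∈ body 0 := by simp
    have m10 : (Sum.inr (1, 0) : SV m) ∈ body 1 := by simp
    have m11 : (Sum.inr (1, 1) : SV m) ∈ body 1 := by simp
    have m20 : (Sum.inr (2, 0) : SV m) ∈ body 2 := by simp
    rcases hside 0 with h0 | h0 <;> rcases hside 1 with h1 | h1 <;> rcases hside 2 with h2 | h2
    · -- all in `S`
      exfalso
      obtain ⟨i, hi⟩ := exists_body t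
      have : t ∈ S ∨ t ∈ X := by
        fin_cases i
        · exact h0 t hi
        · exact h1 t hi
        · exact h2 t hi
      exact Finset.mem_compl.1 ht (Finset.mem_union.2 this)
    · -- 2 on the other side
      obtain ⟨hX2, hXin⟩ := hXeq 0 1 (by decide) (hpin 1 2 0 (by decide) (by decide) h1 h2)
        (hpin 0 2 1 (by decide) (by decide) h0 h2)
      exact hedge _ _ (Or.inl e2) hX2 n2 ((h1 _ m11).resolve_right (hXin _))
        ((h2 _ m20).resolve_right (hXin _))
    · -- 1 on the other side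
      obtain ⟨hX2, hXin⟩ := hXeq 2 0 (by decide) (hpin 0 1 2 (by decide) (by decide) h0 h1)
        (hpin 2 1 0 (by decide) (by decide) h2 h1)
      exact hedge _ _ (Or.inl e1) hX2 n1 ((h0 _ m00).resolve_right (hXin _))
        ((h1 _ m10).resolve_right (hXin _))
    · -- 0 in S
      obtain ⟨hX2, hXin⟩ := hXeq 2 1 (by decide) (hpin 0 1 2 (by decide) (by decide) h0 h1)
        (hpin 0 2 1 (by decide) (by decide) h0 h2)
      exact hedge _ _ (Or.inl e1) hX2 n1 ((h0 _ m00).resolve_right (hXin _))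
        ((h1 _ m10).resolve_right (hXin _))
    · obtain ⟨hX2, hXin⟩ := hXeq 2 1 (by decide) (hpin 1 0 2 (by decide) (by decide) h1 h0)
        (hpin 2 0 1 (by decide) (by decide) h2 h0)
      exact hedge _ _ (Or.inr e1) hX2 n1.symm ((h1 _ m10).resolve_right (hXin _))
        ((h0 _ m00).resolve_right (hXin _))
    · obtain ⟨hX2, hXin⟩ := hXeq 2 0 (by decide) (hpin 1 0 2 (by decide) (by decide) h1 h0)
        (hpin 1 2 0 (by decide) (by decide) h1 h2)
      exact hedge _ _ (Or.inr e1) hX2 n1.symm ((h1 _ m10).resolve_right (hXin _))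
        ((h0 _ m00).resolve_right (hXin _))
    · obtain ⟨hX2, hXin⟩ := hXeq 0 1 (by decide) (hpin 2 1 0 (by decide) (by decide) h2 h1)
        (hpin 2 0 1 (by decide) (by decide) h2 h0)
      exact hedge _ _ (Or.inr e2) hX2 n2.symm ((h2 _ m20).resolve_right (hXin _))
        ((h1 _ m11).resolve_right (hXin _))
    · -- none in `S`
      exfalso
      obtain ⟨i, hi⟩ := exists_body s
      have : s ∈ (S ∪ X)ᶜ ∨ s ∈ X := by
        fin_cases i
        · exact h0 s hi
        · exact h1 s hi
        · exact h2 s hi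
      rcases this with h | h
      · exact hdisj s hs h
      · exact Finset.disjoint_left.1 hd hs h

/-- The linear map `m ↦ vel m x`. -/
def velL (x : Pt) : (Pt × Pt) →ₗ[ℝ] Pt where
  toFun m := vel m x
  map_add' m m' := by
    simp only [vel, Prod.fst_add, Prod.snd_add, map_add, LinearMap.add_apply]; abel
  map_smul' c m := by
    simp [vel, smul_add]

theorem flexible_sharp {p : SV m → Pt} (hp : Good p) : ¬ InfRigid (sharpGraph m) p := by
  have hV : 4 ≤ Fintype.card (SV m) := by rw [card_SV]; omega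
  -- screws of the bodies 0 and 2, body 1 being fixed
  let Φ : ((Pt × Pt) × (Pt × Pt)) →ₗ[ℝ] (Pt × Pt × Pt × ℝ × ℝ) :=
    ((velL (p (Sum.inl 2))).comp (LinearMap.fst ℝ _ _)).prod
      (((velL (p (Sum.inl 0))).comp (LinearMap.snd ℝ _ _)).prod
        (((velL (p (Sum.inl 1))).comp (LinearMap.fst ℝ _ _) -
          (velL (p (Sum.inl 1))).comp (LinearMap.snd ℝ _ _)).prod
          (((barL (p (Sum.inr (0, 0))) (p (Sum.inr (1, 0)))).comp (LinearMap.fst ℝ _ _)).prod
            ((barL (p (Sum.inr (2, 0))) (p (Sum.inr (1, 1)))).comp (LinearMap.snd ℝ _ _)))))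
  have hlt : Module.finrank ℝ (Pt × Pt × Pt × ℝ × ℝ) <
      Module.finrank ℝ ((Pt × Pt) × (Pt × Pt)) := by simp
  obtain ⟨⟨m₀, m₂⟩, hm, hm0⟩ := Submodule.exists_mem_ne_zero_of_ne_bot
    (LinearMap.ker_ne_bot_of_finrank_lt (f := Φ) hlt)
  have hΦ : Φ (m₀, m₂) = 0 := LinearMap.mem_ker.1 hm
  have k1 : vel m₀ (p (Sum.inl 2)) = 0 := congrArg (fun q => q.1) hΦ
  have k2 : vel m₂ (p (Sum.inl 0)) = 0 := congrArg (fun q => q.2.1) hΦ
  have k3 : vel m₀ (p (Sum.inl 1)) - vel m₂ (p (Sum.inl 1)) = 0 :=
    congrArg (fun q => q.2.2.1) hΦ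
  have k4 : bar m₀ (p (Sum.inr (0, 0))) (p (Sum.inr (1, 0))) = 0 :=
    congrArg (fun q => q.2.2.2.1) hΦ
  have k5 : bar m₂ (p (Sum.inr (2, 0))) (p (Sum.inr (1, 1))) = 0 :=
    congrArg (fun q => q.2.2.2.2) hΦ
  set M : Fin 3 → Pt × Pt := ![m₀, 0, m₂] with hM
  let u : SV m → Pt := fun v => if v ∈ body 1 then 0 else if v ∈ body 0 then vel m₀ (p v) else
    vel m₂ (p v)
  have vel0 : ∀ x, vel 0 x = 0 := fun x => by simp [vel]
  have hu : ∀ i, ∀ v ∈ body i, u v = vel (M i) (p v) := by
    intro i v hv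
    have M0 : M 0 = m₀ := rfl
    have M1 : M 1 = 0 := rfl
    have M2 : M 2 = m₂ := rfl
    rcases v with j | ⟨j, s⟩
    · rw [mem_body_inl] at hv
      fin_cases i <;> fin_cases j <;>
        simp [u, M0, M1, M2, vel0] at hv ⊢ <;>
        first | exact sub_eq_zero.1 k3 | exact k1.symm | exact k2.symm
    · rw [mem_body_inr] at hv
      simp only at hv
      subst hv
      fin_cases j <;> simp [u, M0, M1, M2, vel0]
  intro hrig
  obtain ⟨r, t, hrt⟩ := hrig u (by
    have hex : ∀ v w, extra v w → (p v - p w) ⬝ᵥ (u v - u w) = 0 := by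
      intro v w h
      rcases h with ⟨rfl, rfl⟩ | ⟨rfl, rfl⟩
      · rw [hu 0 (Sum.inr (0, 0)) (by simp), hu 1 (Sum.inr (1, 0)) (by simp)]
        have : vel (M 1) (p (Sum.inr (1, 0))) = 0 := vel0 _
        rw [this, sub_zero, ← bar_eq_dot_left]
        exact k4
      · rw [hu 1 (Sum.inr (1, 1)) (by simp), hu 2 (Sum.inr (2, 0)) (by simp)]
        have : vel (M 1) (p (Sum.inr (1, 1))) = 0 := vel0 _
        rw [this, zero_sub, dotProduct_neg, ← neg_dotProduct, neg_sub, ← bar_eq_dot_left]
        exact k5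
    rintro v w ⟨hne, ⟨i, hv, hw⟩ | h | h⟩
    · rw [hu i v hv, hu i w hw]
      exact dot_vel_sub _ _ _
    · exact hex v w h
    · have := hex w v h
      rw [← neg_sub (p w), ← neg_sub (u w), neg_dotProduct, dotProduct_neg, neg_neg]
      exact this)
  have vanish : ∀ (i : Fin 3) (m' : Pt × Pt), (∀ v ∈ body (m := m) i, vel m' (p v) = 0) →
      m' = 0 := by
    intro i m' hm'
    obtain ⟨T', hT', hT'3⟩ := Finset.exists_subset_card_eq
      (show 3 ≤ (body (m := m) i).card by have := card_body (m := m) i; omega)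
    obtain ⟨a, b, c, hab, hac, hbc, rfl⟩ := Finset.card_eq_three.1 hT'3
    exact hp.screw_eq_zero hV hab hac hbc (hm' a (hT' (by simp))) (hm' b (hT' (by simp)))
      (hm' c (hT' (by simp)))
  have h1 : (r, t) = (0 : Pt × Pt) := by
    apply vanish 1
    intro v hv
    have := hrt v
    rw [hu 1 v hv] at this
    have h0 : vel (M 1) (p v) = 0 := vel0 _
    rw [h0] at this
    exact this.symm
  have hr : r = 0 := (Prod.mk.inj h1).1
  have ht : t = 0 := (Prod.mk.inj h1).2
  have hu0 : ∀ v, u v = 0 := by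
    intro v
    rw [hrt v, hr, ht]
    simp
  have g0 : m₀ = 0 := by
    apply vanish 0
    intro v hv
    have := hu 0 v hv
    rw [hu0 v] at this
    exact this.symm
  have g2 : m₂ = 0 := by
    apply vanish 2
    intro v hv
    have := hu 2 v hv
    rw [hu0 v] at this
    exact this.symm
  apply hm0
  rw [g0, g2]
  rfl

theorem sharp (N : ℕ) : ∃ (V : Type) (_ : Fintype V) (_ : DecidableEq V) (G : SimpleGraph V)
    (_ : DecidableRel G.Adj), N ≤ Fintype.card V ∧ Fintype.card V ≤ 3 * G.minDegree ∧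
      MixedConnected G ∧ GenericallyFlexible G := by
  refine ⟨SV N, inferInstance, inferInstance, sharpGraph N, inferInstance, ?_, ?_,
    mixedConnected_sharp, ?_⟩
  · rw [card_SV]; omega
  · rw [card_SV]
    exact Nat.mul_le_mul_left 3 minDegree_sharp
  · unfold GenericallyFlexible
    filter_upwards [ae_good (V := SV N)] with p hp
    exact flexible_sharp hp

end Pool.Agent.MP_37c7bf_co_Dense
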