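import Pool.Agent.Lib.MP_37c7bf_co_Dense.Flex
import Pool.Agent.Lib.MP_37c7bf_co_Dense.Counting

/-!
# Graphs of minimum degree at least `n / 3 + 6`
-/

open scoped Matrix

namespace Pool.Agent.MP_37c7bf_co_Dense

variable {V : Type*} [Fintype V] [DecidableEq V] {G : SimpleGraph V} [DecidableRel G.Adj]
  {p : V → Pt}

theorem closedFamily_rig (hp : Good p) (hV : 4 ≤ Fintype.card V) :
    ClosedFamily G (Rig G p) where
  add S v hS hv h3 := hS.insert hp hv h3
  glue S T hS hT h3 := hS.union hp hV hT h3
  base Y T hY hT hYT := by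
    let f : Fin 10 → V := fun i => ((Finset.equivFinOfCardEq hY).symm i).1
    let g : Fin 4 → V := fun i => ((Finset.equivFinOfCardEq hT).symm i).1
    have hfY : ∀ i, f i ∈ Y := fun i => ((Finset.equivFinOfCardEq hY).symm i).2
    have hgT : ∀ i, g i ∈ T := fun i => ((Finset.equivFinOfCardEq hT).symm i).2
    have hf : Function.Injective f := fun i j h =>
      (Finset.equivFinOfCardEq hY).symm.injective (Subtype.ext h)
    have hg : Function.Injective g := fun i j h =>
      (Finset.equivFinOfCardEq hT).symm.injective (Subtype.ext h)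
    have hfY' : Finset.univ.image f = Y := by
      apply Finset.eq_of_subset_of_card_le
      · intro y hy
        obtain ⟨i, -, rfl⟩ := Finset.mem_image.1 hy
        exact hfY i
      · rw [Finset.card_image_of_injective _ hf, Finset.card_univ, Fintype.card_fin, hY]
    have hgT' : Finset.univ.image g = T := by
      apply Finset.eq_of_subset_of_card_le
      · intro y hy
        obtain ⟨i, -, rfl⟩ := Finset.mem_image.1 hy
        exact hgT i
      · rw [Finset.card_image_of_injective _ hg, Finset.card_univ, Fintype.card_fin, hT]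
    rw [← hfY', ← hgT']
    exact rig_K104 hp hf hg fun i j => hYT _ (hfY i) _ (hgT j)

omit [Fintype V] [DecidableEq V] [DecidableRel G.Adj] in
theorem infRigid_of_rig [Fintype V] (h : Rig G p Finset.univ) : InfRigid G p := by
  intro u hu
  obtain ⟨m, hm⟩ := h u fun v _ w _ hvw => hu v w hvw
  exact ⟨m.1, m.2, fun v => hm v (Finset.mem_univ v)⟩

theorem infRigid_of_mixedConnected (hp : Good p) (hn : 173745 < Fintype.card V)
    (hδ : Fintype.card V + 18 ≤ 3 * G.minDegree) (hM : MixedConnected G) : InfRigid G p := by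
  have hP := closedFamily_rig (G := G) hp (by omega)
  have hthr : thr 2 = 173745 := by
    have : Nat.choose 12 4 = 495 := by decide
    simp [thr, this]
  obtain ⟨𝒜, h𝒜2, h𝒜, -, hcov⟩ := cluster_cover hP (k := 2) (by norm_num) (by rw [hthr]; exact hn)
    (by omega)
  apply infRigid_of_rig
  have h0 : 𝒜.card ≠ 0 := by
    intro h0
    have : Nonempty V := Fintype.card_pos_iff.1 (by omega)
    obtain ⟨A, hA, -⟩ := hcov (Classical.arbitrary V)
    rw [Finset.card_eq_zero.1 h0] at hA
    exact Finset.notMem_empty _ hA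
  have h12 : 𝒜.card = 1 ∨ 𝒜.card = 2 := by omega
  rcases h12 with h1 | h2
  · obtain ⟨A, rfl⟩ := Finset.card_eq_one.1 h1
    have hA : A = Finset.univ := by
      ext v
      obtain ⟨B, hB, hv⟩ := hcov v
      rw [Finset.mem_singleton] at hB
      subst hB
      simp [hv]
    rw [← hA]
    exact ((h𝒜 A).1 (Finset.mem_singleton_self A)).1.1
  · obtain ⟨A, B, hAB, rfl⟩ := Finset.card_eq_two.1 h2
    have hA := ((h𝒜 A).1 (by simp)).1
    have hB := ((h𝒜 B).1 (by simp)).1
    have hUn : A ∪ B = Finset.univ := by
      ext v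
      obtain ⟨C, hC, hv⟩ := hcov v
      simp only [Finset.mem_insert, Finset.mem_singleton] at hC
      rcases hC with rfl | rfl <;> simp [hv]
    refine two_bodies hp hA.1 hB.1 hUn (fun v hv => hA.card_nbrs_le hP hv)
      (fun v hv => hB.card_nbrs_le hP hv) (hA.card_inter_le hP hB hAB) ?_ ?_ hM
    · rw [Finset.sdiff_nonempty]
      intro h
      exact hAB (hA.2 B hB.1 h).symm
    · rw [Finset.sdiff_nonempty]
      intro h
      exact hAB (hB.2 A hA.1 h)

theorem third (hn : 173745 < Fintype.card V) (hδ : Fintype.card V + 18 ≤ 3 * G.minDegree) :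
    (MixedConnected G ∧ GenericallyRigid G) ∨ (¬ MixedConnected G ∧ GenericallyFlexible G) := by
  by_cases hM : MixedConnected G
  · left
    refine ⟨hM, ?_⟩
    unfold GenericallyRigid
    filter_upwards [ae_good (V := V)] with p hp
    exact infRigid_of_mixedConnected hp hn hδ hM
  · right
    refine ⟨hM, ?_⟩
    unfold GenericallyFlexible
    filter_upwards [ae_good (V := V)] with p hp
    exact not_infRigid hp (by omega) hM

end Pool.Agent.MP_37c7bf_co_Dense
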