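import Pool.Agent.Lib.MP_37c7bf_co_Dense.Sharp

namespace Pool.Agent.Results.MP_37c7bf_co.ThirdDegree

open Pool.Agent.MP_37c7bf_co_Dense

/-- For graphs with more than `173745` vertices and minimum degree at least `n / 3 + 6`, generic
rigidity in `ℝ³` is equivalent to mixed connectivity `(6, 3, 1)`; the constant `1 / 3` is best
possible: this fails for arbitrarily large graphs of minimum degree at least `n / 3`. -/
theorem result :
    (∀ (V : Type) [Fintype V] [DecidableEq V] (G : SimpleGraph V) [DecidableRel G.Adj],
      173745 < Fintype.card V → Fintype.card V + 18 ≤ 3 * G.minDegree →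
        (MixedConnected G ∧ GenericallyRigid G) ∨
          (¬ MixedConnected G ∧ GenericallyFlexible G)) ∧
    ∀ N : ℕ, ∃ (V : Type) (_ : Fintype V) (_ : DecidableEq V) (G : SimpleGraph V)
      (_ : DecidableRel G.Adj), N ≤ Fintype.card V ∧ Fintype.card V ≤ 3 * G.minDegree ∧
        MixedConnected G ∧ GenericallyFlexible G :=
  ⟨fun _ _ _ _ _ hn hδ => third hn hδ, sharp⟩

end Pool.Agent.Results.MP_37c7bf_co.ThirdDegree
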