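import Pool.Agent.Lib.MP_37c7bf_co_Dense.Rig

/-!
# Two rigid bodies joined by bars; flexibility of graphs with a small mixed cut
-/

set_option linter.unusedSimpArgs false

open scoped Matrix

namespace Pool.Agent.MP_37c7bf_co_Dense

theorem tri_nrm_left (x a b₁ b₂ a₃ b₃ : Pt) :
    tri (nrm x a b₁) (nrm x a b₂) (nrm x a₃ b₃) =
      tri (b₁ - x) (b₂ - x) (a - x) * tri (a - x) (b₃ - x) (a₃ - x) := by
  simp [tri_eq, nrm, cross_apply]; ring

theorem tri_nrm_right (x a₁ a₂ b a₃ b₃ : Pt) :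
    tri (nrm x a₁ b) (nrm x a₂ b) (nrm x a₃ b₃) =
      tri (a₁ - x) (a₂ - x) (b - x) * tri (b - x) (b₃ - x) (a₃ - x) := by
  simp [tri_eq, nrm, cross_apply]; ring

theorem tri_rot (u v w : Pt) : tri u v w = tri v w u := by
  simp [tri_eq]; ring

theorem tri_swap (u v w : Pt) : tri u v w = - tri v u w := by
  simp [tri_eq]; ring

/-- The bar functional on screws vanishing at `x`. -/
theorem bar_eq_nrm {m : Pt × Pt} {x : Pt} (hx : vel m x = 0) (a b : Pt) :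
    bar m a b = nrm x a b ⬝ᵥ m.1 := by
  have h := fun i => congrFun hx i
  have h0 := h 0; have h1 := h 1; have h2 := h 2
  simp only [vel_0, vel_1, vel_2, Pi.zero_apply] at h0 h1 h2
  simp only [bar_eq, nrm, dot3, cross_apply, Pi.sub_apply, Matrix.cons_val_zero,
    Matrix.cons_val_one, Matrix.cons_val]
  linear_combination (a 0 - b 0) * h0 + (a 1 - b 1) * h1 + (a 2 - b 2) * h2

theorem eq_zero_of_cross_dot {r u v w : Pt} (h : tri u v w ≠ 0) (hu : r ⨯₃ u = 0)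
    (hvw : (v ⨯₃ w) ⬝ᵥ r = 0) : r = 0 := by
  have a := fun i => congrFun hu i
  have a0 := a 0; have a1 := a 1; have a2 := a 2
  simp [cross_apply] at a0 a1 a2
  rw [dot3] at hvw
  simp [cross_apply] at hvw
  have key : ∀ i, tri u v w * r i = 0 := by
    intro i
    rw [tri_eq]
    fin_cases i
    · simp only [Fin.zero_eta]
      linear_combination u 0 * hvw - v 0 * (w 0 * a0 + w 1 * a1 + w 2 * a2)
        + w 0 * (v 0 * a0 + v 1 * a1 + v 2 * a2)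
    · simp only [Fin.mk_one]
      linear_combination u 1 * hvw - v 1 * (w 0 * a0 + w 1 * a1 + w 2 * a2)
        + w 1 * (v 0 * a0 + v 1 * a1 + v 2 * a2)
    · simp only [Fin.reduceFinMk]
      linear_combination u 2 * hvw - v 2 * (w 0 * a0 + w 1 * a1 + w 2 * a2)
        + w 2 * (v 0 * a0 + v 1 * a1 + v 2 * a2)
  ext i
  exact (mul_eq_zero.1 (key i)).resolve_left h

variable {V : Type*} [Fintype V] [DecidableEq V] {G : SimpleGraph V} {p : V → Pt}

theorem tri_nrm_ne_of_left (hp : Good p) {F : Finset (V × V)} (hF : Bip2 F) {x : V}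
    (hx : ∀ e ∈ F, e.1 ≠ x ∧ e.2 ≠ x) {a b₁ b₂ a₃ b₃ : V} (h1 : (a, b₁) ∈ F) (h2 : (a, b₂) ∈ F)
    (h3 : (a₃, b₃) ∈ F) (h12 : (a, b₁) ≠ (a, b₂)) (h13 : (a, b₁) ≠ (a₃, b₃))
    (h23 : (a, b₂) ≠ (a₃, b₃)) :
    tri (nrm (p x) (p a) (p b₁)) (nrm (p x) (p a) (p b₂)) (nrm (p x) (p a₃) (p b₃)) ≠ 0 := by
  have hb12 : b₁ ≠ b₂ := fun h => h12 (by rw [h])
  have ha3 : a₃ ≠ a := by
    rintro rfl
    rcases hF.left a₃ b₁ b₂ b₃ h1 h2 h3 with h | h | h
    · exact hb12 h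
    · exact h13 (by rw [h])
    · exact h23 (by rw [h])
  rw [tri_nrm_left]
  refine mul_ne_zero ?_ ?_
  · exact hp.c1 x b₁ b₂ a (hx _ h1).2.symm (hx _ h2).2.symm (hx _ h1).1.symm hb12
      (hF.bip _ h1 _ h1).symm (hF.bip _ h2 _ h2).symm
  · exact hp.c1 x a b₃ a₃ (hx _ h1).1.symm (hx _ h3).2.symm (hx _ h3).1.symm
      (hF.bip _ h1 _ h3) ha3.symm (hF.bip _ h3 _ h3).symm

theorem tri_nrm_ne_of_right (hp : Good p) {F : Finset (V × V)} (hF : Bip2 F) {x : V}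
    (hx : ∀ e ∈ F, e.1 ≠ x ∧ e.2 ≠ x) {a₁ a₂ b a₃ b₃ : V} (h1 : (a₁, b) ∈ F) (h2 : (a₂, b) ∈ F)
    (h3 : (a₃, b₃) ∈ F) (h12 : (a₁, b) ≠ (a₂, b)) (h13 : (a₁, b) ≠ (a₃, b₃))
    (h23 : (a₂, b) ≠ (a₃, b₃)) :
    tri (nrm (p x) (p a₁) (p b)) (nrm (p x) (p a₂) (p b)) (nrm (p x) (p a₃) (p b₃)) ≠ 0 := by
  have ha12 : a₁ ≠ a₂ := fun h => h12 (by rw [h])
  have hb3 : b₃ ≠ b := by
    rintro rfl
    rcases hF.right b₃ a₁ a₂ a₃ h1 h2 h3 with h | h | h
    · exact ha12 h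
    · exact h13 (by rw [h])
    · exact h23 (by rw [h])
  rw [tri_nrm_right]
  refine mul_ne_zero ?_ ?_
  · exact hp.c1 x a₁ a₂ b (hx _ h1).1.symm (hx _ h2).1.symm (hx _ h1).2.symm ha12
      (hF.bip _ h1 _ h1) (hF.bip _ h2 _ h2)
  · exact hp.c1 x b b₃ a₃ (hx _ h1).2.symm (hx _ h3).2.symm (hx _ h3).1.symm
      hb3.symm (hF.bip _ h3 _ h1).symm (hF.bip _ h3 _ h3).symm

theorem tri_nrm_ne (hp : Good p) {F : Finset (V × V)} (hF : Bip2 F) {x : V}
    (hx : ∀ e ∈ F, e.1 ≠ x ∧ e.2 ≠ x) {e₁ e₂ e₃ : V × V} (h1 : e₁ ∈ F) (h2 : e₂ ∈ F)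
    (h3 : e₃ ∈ F) (h12 : e₁ ≠ e₂) (h13 : e₁ ≠ e₃) (h23 : e₂ ≠ e₃) :
    tri (nrm (p x) (p e₁.1) (p e₁.2)) (nrm (p x) (p e₂.1) (p e₂.2))
      (nrm (p x) (p e₃.1) (p e₃.2)) ≠ 0 := by
  obtain ⟨a₁, b₁⟩ := e₁
  obtain ⟨a₂, b₂⟩ := e₂
  obtain ⟨a₃, b₃⟩ := e₃
  simp only
  by_cases ha12 : a₁ = a₂
  · subst ha12
    exact tri_nrm_ne_of_left hp hF hx h1 h2 h3 h12 h13 h23
  by_cases ha13 : a₁ = a₃
  · subst ha13
    rw [← tri_rot]
    exact tri_nrm_ne_of_left hp hF hx h3 h1 h2 h13.symm h23.symm h12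
  by_cases ha23 : a₂ = a₃
  · subst ha23
    rw [tri_rot]
    exact tri_nrm_ne_of_left hp hF hx h2 h3 h1 h23 h12.symm h13.symm
  by_cases hb12 : b₁ = b₂
  · subst hb12
    exact tri_nrm_ne_of_right hp hF hx h1 h2 h3 h12 h13 h23
  by_cases hb13 : b₁ = b₃
  · subst hb13
    rw [← tri_rot]
    exact tri_nrm_ne_of_right hp hF hx h3 h1 h2 h13.symm h23.symm h12
  by_cases hb23 : b₂ = b₃
  · subst hb23
    rw [tri_rot]
    exact tri_nrm_ne_of_right hp hF hx h2 h3 h1 h23 h12.symm h13.symm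
  apply hp.c3
  simp only [List.nodup_cons, List.mem_cons, List.not_mem_nil, or_false, not_or]
  refine ⟨⟨(hx _ h1).1.symm, (hx _ h1).2.symm, (hx _ h2).1.symm, (hx _ h2).2.symm,
    (hx _ h3).1.symm, (hx _ h3).2.symm⟩, ⟨hF.bip _ h1 _ h1, ha12, hF.bip _ h1 _ h2, ha13,
    hF.bip _ h1 _ h3⟩, ⟨(hF.bip _ h2 _ h1).symm, hb12, (hF.bip _ h3 _ h1).symm, hb13⟩,
    ⟨hF.bip _ h2 _ h2, ha23, hF.bip _ h2 _ h3⟩, ⟨(hF.bip _ h3 _ h2).symm, hb23⟩,
    hF.bip _ h3 _ h3, not_false, List.nodup_nil⟩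

/-- The main step: a screw vanishing at the common vertices and annihilated by enough cross bars
is zero. -/
theorem screw_eq_zero_of_bars (hp : Good p) {F : Finset (V × V)} (hF : Bip2 F) {X : Finset V}
    (hX : X.card ≤ 2) (hx : ∀ x ∈ X, ∀ e ∈ F, e.1 ≠ x ∧ e.2 ≠ x)
    (hc : (4 - X.card).choose 2 ≤ F.card) {m : Pt × Pt} (hmX : ∀ x ∈ X, vel m (p x) = 0)
    (hmF : ∀ e ∈ F, bar m (p e.1) (p e.2) = 0) : m = 0 := by
  have hm2 : ∀ x ∈ X, m.1 = 0 → m = 0 := by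
    intro x hxX h
    refine Prod.ext h ?_
    have := hmX x hxX
    rw [vel, h] at this
    simpa using this
  interval_cases hcard : X.card
  · -- no common vertex
    have h6 : 6 ≤ F.card := hc
    obtain ⟨F', hF', hF'6⟩ := Finset.exists_subset_card_eq h6
    exact hp.c6 F' (hF.mono hF') hF'6 m fun e he => hmF e (hF' he)
  · -- one common vertex
    obtain ⟨x, rfl⟩ := Finset.card_eq_one.1 hcard
    have h3 : 3 ≤ F.card := hc
    obtain ⟨F', hF', hF'3⟩ := Finset.exists_subset_card_eq h3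
    obtain ⟨e₁, e₂, e₃, h12, h13, h23, rfl⟩ := Finset.card_eq_three.1 hF'3
    have h1 : e₁ ∈ F := hF' (by simp)
    have h2 : e₂ ∈ F := hF' (by simp)
    have h3 : e₃ ∈ F := hF' (by simp)
    have hxX : x ∈ ({x} : Finset V) := Finset.mem_singleton_self x
    have htri := tri_nrm_ne hp hF (hx x hxX) h1 h2 h3 h12 h13 h23
    apply hm2 x hxX
    apply eq_zero_of_dot3 htri
    · rw [← bar_eq_nrm (hmX x hxX)]; exact hmF _ h1
    · rw [← bar_eq_nrm (hmX x hxX)]; exact hmF _ h2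
    · rw [← bar_eq_nrm (hmX x hxX)]; exact hmF _ h3
  · -- two common vertices
    obtain ⟨x, y, hxy, rfl⟩ := Finset.card_eq_two.1 hcard
    have h1 : 1 ≤ F.card := hc
    obtain ⟨e, he⟩ := Finset.card_pos.1 h1
    have hxX : x ∈ ({x, y} : Finset V) := by simp
    have hyX : y ∈ ({x, y} : Finset V) := by simp
    apply hm2 x hxX
    have htri := hp.c1 x y e.2 e.1 hxy (hx x hxX e he).2.symm (hx x hxX e he).1.symm
      (hx y hyX e he).2.symm (hx y hyX e he).1.symm (hF.bip _ he _ he).symm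
    apply eq_zero_of_cross_dot htri
    · rw [← vel_sub, hmX x hxX, hmX y hyX, sub_zero]
    · have := hmF e he
      rw [bar_eq_nrm (hmX x hxX)] at this
      exact this

theorem two_bodies [DecidableRel G.Adj] (hp : Good p) {A B : Finset V} (hA : Rig G p A)
    (hB : Rig G p B) (hAB : A ∪ B = Finset.univ)
    (hA2 : ∀ v ∉ A, (A.filter fun w => G.Adj v w).card ≤ 2)
    (hB2 : ∀ v ∉ B, (B.filter fun w => G.Adj v w).card ≤ 2) (hI : (A ∩ B).card ≤ 2)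
    (hne1 : (A \ B).Nonempty) (hne2 : (B \ A).Nonempty) (hM : MixedConnected G) :
    Rig G p Finset.univ := by
  intro u hu
  obtain ⟨m, hm⟩ := hA u fun v _ w _ => hu v (Finset.mem_univ _) w (Finset.mem_univ _)
  obtain ⟨m', hm'⟩ := hB u fun v _ w _ => hu v (Finset.mem_univ _) w (Finset.mem_univ _)
  have hSX : A \ B ∪ A ∩ B = A := Finset.sdiff_union_inter A B
  have hAc : ∀ v, v ∉ A → v ∈ B := by
    intro v hv
    have : v ∈ A ∪ B := by rw [hAB]; exact Finset.mem_univ _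
    exact (Finset.mem_union.1 this).resolve_left hv
  have hcut := hM (A ∩ B) (A \ B) hI hne1 (Finset.disjoint_sdiff_inter A B) (by
    rw [hSX]
    obtain ⟨v, hv⟩ := hne2
    exact ⟨v, Finset.mem_compl.2 (Finset.mem_sdiff.1 hv).2⟩)
  rw [hSX] at hcut
  set F := ((A \ B) ×ˢ Aᶜ).filter fun e => G.Adj e.1 e.2 with hF
  have hFm : ∀ {a b}, (a, b) ∈ F ↔ (a ∈ A ∧ a ∉ B) ∧ b ∉ A ∧ G.Adj a b := by
    intro a b
    simp [hF, and_assoc]
  have three : ∀ {s : Finset V} {a b c : V}, a ∈ s → b ∈ s → c ∈ s → s.card ≤ 2 →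
      a = b ∨ a = c ∨ b = c := by
    intro s a b c ha hb hc hs
    by_contra hcon
    push Not at hcon
    have hsub : ({a, b, c} : Finset V) ⊆ s := by
      intro x hx
      simp only [Finset.mem_insert, Finset.mem_singleton] at hx
      rcases hx with rfl | rfl | rfl <;> assumption
    have := Finset.card_le_card hsub
    rw [Finset.card_eq_three.2 ⟨a, b, c, hcon.1, hcon.2.1, hcon.2.2, rfl⟩] at this
    omega
  have hBip : Bip2 F := by
    refine ⟨?_, ?_, ?_⟩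
    · rintro ⟨a, b⟩ he ⟨a', b'⟩ he' h
      simp only at h
      subst h
      exact (hFm.1 he').2.1 (hFm.1 he).1.1
    · intro a b₁ b₂ b₃ h1 h2 h3
      rw [hFm] at h1 h2 h3
      exact three (Finset.mem_filter.2 ⟨hAc _ h1.2.1, h1.2.2⟩)
        (Finset.mem_filter.2 ⟨hAc _ h2.2.1, h2.2.2⟩)
        (Finset.mem_filter.2 ⟨hAc _ h3.2.1, h3.2.2⟩) (hB2 a h1.1.2)
    · intro b a₁ a₂ a₃ h1 h2 h3
      rw [hFm] at h1 h2 h3
      exact three (Finset.mem_filter.2 ⟨h1.1.1, h1.2.2.symm⟩)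
        (Finset.mem_filter.2 ⟨h2.1.1, h2.2.2.symm⟩)
        (Finset.mem_filter.2 ⟨h3.1.1, h3.2.2.symm⟩) (hA2 b h1.2.1)
  have h0 : m - m' = 0 := by
    apply screw_eq_zero_of_bars hp hBip hI ?_ hcut
    · intro x hx
      have := Finset.mem_inter.1 hx
      rw [vel_sub_screw, ← hm x this.1, ← hm' x this.2, sub_self]
    · rintro ⟨a, b⟩ he
      have he' := hFm.1 he
      have hedge := hu a (Finset.mem_univ _) b (Finset.mem_univ _) he'.2.2
      rw [hm a he'.1.1, hm' b (hAc b he'.2.1)] at hedge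
      have h2 := dot_vel_sub m (p a) (p b)
      rw [dotProduct_sub] at hedge h2
      simp only [bar]
      rw [vel_sub_screw, dotProduct_sub]
      linarith
    · rintro x hx ⟨a, b⟩ he
      have he' := hFm.1 he
      have hx' := Finset.mem_inter.1 hx
      constructor
      · rintro rfl
        exact he'.1.2 hx'.2
      · rintro rfl
        exact he'.2.1 hx'.1
  have h1 : m = m' := sub_eq_zero.1 h0
  subst h1
  refine ⟨m, fun v _ => ?_⟩
  by_cases hv : v ∈ A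
  · exact hm v hv
  · exact hm' v (hAc v hv)

end Pool.Agent.MP_37c7bf_co_Dense
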